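import Pool.Agent.Lib.Subspace.SeqS
import Pool.Agent.Lib.SubspaceH15.Reduce

/-!
# The Subspace theorem for the places `∞, 2, 3`
-/

namespace Pool.Agent.Lib.Subspace

open Filter

theorem seqStmt : SubspaceH15.SeqStmt := by
  intro N hN A2 A3 h2 h3 ε hε X e f Q hQ hX0 hA2 hA3 hd2 hd3 hXQ hprod
  refine seq_subspace (ι := Fin 2) ![2, 3] ?_ ?_ N hN ![A2, A3] ?_ ε hε X (fun s => ![e s, f s]) Q
    hQ hX0 ?_ ?_ hXQ ?_
  · intro i
    fin_cases i
    · exact Nat.prime_two
    · exact Nat.prime_three
  · intro i j hij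
    fin_cases i <;> fin_cases j <;> simp_all
  · intro i
    fin_cases i
    · exact h2
    · exact h3
  · intro s i k
    fin_cases i
    · exact hA2 s k
    · exact hA3 s k
  · intro s i k
    fin_cases i
    · exact hd2 s k
    · exact hd3 s k
  · intro s
    rw [Fin.prod_univ_two]
    exact hprod s

/-- **The Subspace theorem** (Schmidt, Schlickewei) for the places `∞, 2, 3` of `ℚ` and linear
forms with rational coefficients. -/
theorem subspace_stmt : SubspaceH13.SubspaceStmt := SubspaceH15.SubspaceStmt_of_seq seqStmt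

end Pool.Agent.Lib.Subspace
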