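import Pool.Agent.Lib.Subspace.Norms

/-!
# Cross products, primitive normals
-/

namespace Pool.Agent.Lib.Subspace

open Matrix

section

variable {k : ℕ} {R : Type*} [CommRing R]

/-- generalised cross product of `k` vectors in dimension `k + 1` -/
def cr (y : Fin k → Fin (k + 1) → R) : Fin (k + 1) → R := fun i =>
  (-1) ^ (i : ℕ) * (Matrix.of fun (r c : Fin k) => y r (i.succAbove c)).det

theorem cr_dot (y : Fin k → Fin (k + 1) → R) (z : Fin (k + 1) → R) :
    ∑ i, cr y i * z i = (Matrix.of (Fin.cons z y : Fin (k + 1) → Fin (k + 1) → R)).det := by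
  rw [Matrix.det_succ_row_zero]
  refine Finset.sum_congr rfl fun i _ => ?_
  unfold cr
  have : (Matrix.of (Fin.cons z y : Fin (k + 1) → Fin (k + 1) → R)).submatrix Fin.succ
      i.succAbove = Matrix.of fun (r c : Fin k) => y r (i.succAbove c) := by
    ext r c
    simp
  rw [this]
  simp only [Matrix.of_apply, Fin.cons_zero]
  ring

theorem cr_dot_self (y : Fin k → Fin (k + 1) → R) (j : Fin k) : ∑ i, cr y i * y j i = 0 := by
  rw [cr_dot]
  apply Matrix.det_zero_of_row_eq (i := 0) (j := j.succ) (Fin.succ_ne_zero j).symm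
  funext i
  simp

theorem cr_mulVec [IsDomain R] (A : Matrix (Fin (k + 1)) (Fin (k + 1)) R) (hA : A.det ≠ 0)
    (y : Fin k → Fin (k + 1) → R) :
    cr (fun j => A *ᵥ y j) = (A.adjugate)ᵀ *ᵥ cr y := by
  have h1 : ∀ z : Fin (k + 1) → R, cr (fun j => A *ᵥ y j) ⬝ᵥ (A *ᵥ z) = A.det * (cr y ⬝ᵥ z) := by
    intro z
    have e1 : cr (fun j => A *ᵥ y j) ⬝ᵥ (A *ᵥ z) =
        (Matrix.of (Fin.cons (A *ᵥ z) (fun j => A *ᵥ y j) :
          Fin (k + 1) → Fin (k + 1) → R)).det := cr_dot _ _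
    have e2 : cr y ⬝ᵥ z =
        (Matrix.of (Fin.cons z y : Fin (k + 1) → Fin (k + 1) → R)).det := cr_dot _ _
    rw [e1, e2, mul_comm, ← Matrix.det_transpose A, ← Matrix.det_mul]
    congr 1
    ext r c
    rw [Matrix.mul_apply]
    refine Fin.cases ?_ (fun r => ?_) r
    · simp only [Matrix.of_apply, Fin.cons_zero, Matrix.transpose_apply, Matrix.mulVec,
        dotProduct]
      exact Finset.sum_congr rfl fun _ _ => mul_comm _ _
    · simp only [Matrix.of_apply, Fin.cons_succ, Matrix.transpose_apply, Matrix.mulVec,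
        dotProduct]
      exact Finset.sum_congr rfl fun _ _ => mul_comm _ _
  have h2 : ∀ z : Fin (k + 1) → R,
      ((A.adjugate)ᵀ *ᵥ cr y) ⬝ᵥ (A *ᵥ z) = A.det * (cr y ⬝ᵥ z) := by
    intro z
    rw [Matrix.mulVec_transpose, ← Matrix.dotProduct_mulVec, Matrix.mulVec_mulVec,
      Matrix.adjugate_mul, Matrix.smul_mulVec, Matrix.one_mulVec, dotProduct_smul, smul_eq_mul]
  have h3 : ∀ z : Fin (k + 1) → R, cr (fun j => A *ᵥ y j) ⬝ᵥ z =
      ((A.adjugate)ᵀ *ᵥ cr y) ⬝ᵥ z := by
    intro z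
    have h4 := (h1 (A.adjugate *ᵥ z)).trans (h2 (A.adjugate *ᵥ z)).symm
    rw [Matrix.mulVec_mulVec, Matrix.mul_adjugate, Matrix.smul_mulVec, Matrix.one_mulVec,
      dotProduct_smul, dotProduct_smul, smul_eq_mul, smul_eq_mul] at h4
    exact mul_left_cancel₀ hA h4
  funext i
  have := h3 (Pi.single i 1)
  simpa using this

theorem IsNm.det_le {f : R → ℝ} (hf : IsNm f) {n : ℕ} (M : Matrix (Fin n) (Fin n) R)
    (b : Fin n → ℝ) (hb : ∀ r c, f (M r c) ≤ b c) : f M.det ≤ n.factorial * ∏ c, b c := by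
  rw [Matrix.det_apply]
  refine (hf.sum_le _ _).trans ?_
  have h2 : ∀ π ∈ (Finset.univ : Finset (Equiv.Perm (Fin n))),
      f (Equiv.Perm.sign π • ∏ i, M (π i) i) ≤ ∏ c, b c := by
    intro π _
    have hsign : f (Equiv.Perm.sign π • ∏ i, M (π i) i) = f (∏ i, M (π i) i) := by
      rcases Int.units_eq_one_or (Equiv.Perm.sign π) with h | h
      · rw [h, one_smul]
      · rw [h, Units.neg_smul, one_smul, hf.neg]
    rw [hsign]
    exact (hf.prod_le _ _).trans (Finset.prod_le_prod (fun _ _ => hf.nonneg _) fun i _ => hb _ _)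
  calc ∑ π, f (Equiv.Perm.sign π • ∏ i, M (π i) i) ≤ ∑ _π : Equiv.Perm (Fin n), ∏ c, b c :=
        Finset.sum_le_sum h2
    _ = _ := by
        rw [Finset.sum_const, Finset.card_univ, Fintype.card_perm, Fintype.card_fin, nsmul_eq_mul]

theorem IsNm.cr_le {f : R → ℝ} (hf : IsNm f) (y : Fin k → Fin (k + 1) → R)
    (b : Fin (k + 1) → ℝ) (hb : ∀ j i, f (y j i) ≤ b i) (i : Fin (k + 1)) :
    f (cr y i) ≤ k.factorial * ∏ c, b (i.succAbove c) := by
  unfold cr
  have h1 : f ((-1) ^ (i : ℕ) * (Matrix.of fun (r c : Fin k) => y r (i.succAbove c)).det) =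
      f ((Matrix.of fun (r c : Fin k) => y r (i.succAbove c)).det) := by
    rcases neg_one_pow_eq_or R (i : ℕ) with h | h
    · rw [h, one_mul]
    · rw [h, neg_one_mul, hf.neg]
  rw [h1]
  exact hf.det_le _ (fun c => b (i.succAbove c)) fun r c => hb _ _

end

theorem cr_ne_zero {k : ℕ} (y : Fin k → Fin (k + 1) → ℤ)
    (hy : LinearIndependent ℚ (fun j i => (y j i : ℚ))) : cr y ≠ 0 := by
  intro h0
  have hcast : cr (fun j i => (y j i : ℚ)) = 0 := by
    funext i
    have := congrFun h0 i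
    unfold cr at this ⊢
    have h1 : ((Matrix.of fun (r c : Fin k) => (y r (i.succAbove c) : ℚ)).det) =
        (((Matrix.of fun (r c : Fin k) => y r (i.succAbove c)).det : ℤ) : ℚ) :=
      (Int.cast_det (R := ℚ) (Matrix.of fun (r c : Fin k) => y r (i.succAbove c))).symm
    rw [h1]
    rw [Pi.zero_apply] at this ⊢
    exact_mod_cast this
  obtain ⟨z, hz⟩ : ∃ z : Fin (k + 1) → ℚ,
      z ∉ Submodule.span ℚ (Set.range (fun j i => (y j i : ℚ))) := by
    by_contra hcon
    push Not at hcon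
    have h1 : Submodule.span ℚ (Set.range (fun j i => (y j i : ℚ))) = ⊤ :=
      Submodule.eq_top_iff'.2 hcon
    have h2 := finrank_span_eq_card hy
    rw [h1, finrank_top, Module.finrank_fin_fun, Fintype.card_fin] at h2
    omega
  have h1 : LinearIndependent ℚ (Fin.cons z (fun j i => (y j i : ℚ)) :
      Fin (k + 1) → Fin (k + 1) → ℚ) := linearIndependent_finCons.2 ⟨hy, hz⟩
  have h2 : IsUnit (Matrix.of (Fin.cons z (fun j i => (y j i : ℚ)) :
      Fin (k + 1) → Fin (k + 1) → ℚ)) := by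
    rw [← Matrix.linearIndependent_rows_iff_isUnit]
    exact h1
  rw [Matrix.isUnit_iff_isUnit_det, isUnit_iff_ne_zero] at h2
  apply h2
  rw [← cr_dot, hcast]
  simp

/-- every nonzero integer vector is a multiple of a primitive one -/
theorem exists_primitive {n : ℕ} (x : Fin n → ℤ) (hx : x ≠ 0) :
    ∃ (q : ℤ) (a : Fin n → ℤ), q ≠ 0 ∧ (∀ i, x i = q * a i) ∧ ∃ u : Fin n → ℤ, ∑ i, u i * a i = 1 := by
  set I : Ideal ℤ := Ideal.span (Set.range x) with hI
  set g := Submodule.IsPrincipal.generator I with hg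
  have hgI : g ∈ I := Submodule.IsPrincipal.generator_mem I
  have h1 : ∀ i, ∃ a, x i = g * a := by
    intro i
    have : x i ∈ I := Ideal.subset_span ⟨i, rfl⟩
    rw [← Ideal.span_singleton_generator I, Ideal.mem_span_singleton'] at this
    obtain ⟨a, ha⟩ := this
    exact ⟨a, by rw [← ha, mul_comm]⟩
  choose a ha using h1
  have hg0 : g ≠ 0 := by
    intro h0
    apply hx
    funext i
    rw [ha i, h0, zero_mul]
    rfl
  obtain ⟨u, hu⟩ := (Ideal.mem_span_range_iff_exists_fun).1 hgI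
  refine ⟨g, a, hg0, ha, u, ?_⟩
  have h2 : g * ∑ i, u i * a i = g * 1 := by
    rw [mul_one]
    conv_rhs => rw [← hu]
    rw [Finset.mul_sum]
    refine Finset.sum_congr rfl fun i _ => ?_
    rw [ha i]
    ring
  exact mul_left_cancel₀ hg0 h2

end Pool.Agent.Lib.Subspace
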