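import Pool.Agent.Lib.Subspace.AuxPoly
import Pool.Agent.Lib.Subspace.Cross

/-!
# Upper bound of the Taylor coefficients of the auxiliary polynomial at a small point
-/

namespace Pool.Agent.Lib.Subspace

open MvPolynomial

section

variable {m N : ℕ}

/-- sum of the absolute values of the entries -/
def entrySum {N : ℕ} (A : Matrix (Fin N) (Fin N) ℤ) : ℝ := ∑ i, ∑ l, |(A i l : ℝ)|

theorem entrySum_nonneg (A : Matrix (Fin N) (Fin N) ℤ) : 0 ≤ entrySum A :=
  Finset.sum_nonneg fun _ _ => Finset.sum_nonneg fun _ _ => abs_nonneg _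

theorem row_le_entrySum (A : Matrix (Fin N) (Fin N) ℤ) (i : Fin N) :
    ∑ l, |(A i l : ℝ)| ≤ entrySum A :=
  Finset.single_le_sum (f := fun i => ∑ l, |(A i l : ℝ)|)
    (fun _ _ => Finset.sum_nonneg fun _ _ => abs_nonneg _) (Finset.mem_univ i)

theorem entry_le_entrySum (A : Matrix (Fin N) (Fin N) ℤ) (i l : Fin N) :
    |(A i l : ℝ)| ≤ entrySum A :=
  (Finset.single_le_sum (f := fun l => |(A i l : ℝ)|) (fun _ _ => abs_nonneg _)
    (Finset.mem_univ l)).trans (row_le_entrySum A i)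

theorem IsNm.le_abs {f : ℤ → ℝ} (hf : IsNm f) (x : ℤ) : f x ≤ |(x : ℝ)| := by
  rcases Int.natAbs_eq x with h | h
  · have := hf.natCast_le x.natAbs
    rw [h]
    simpa using this
  · have := hf.natCast_le x.natAbs
    rw [h, hf.neg]
    simpa using this

/-- the norm of the transformed polynomial -/
theorem wnorm_blk_le {f : ℤ → ℝ} (hf : IsNm f) {d : Fin m → ℕ}
    {P : MvPolynomial (Fin m × Fin N) ℤ} (hP : BH d P) (A : Matrix (Fin N) (Fin N) ℤ) :
    wnorm f 1 (blk A P) ≤ (1 + entrySum A) ^ (∑ h, d h) * wnorm absZ 1 P := by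
  classical
  have hr : ∀ x : Fin m × Fin N, (0 : ℝ) ≤ (1 : Fin m × Fin N → ℝ) x := fun _ => zero_le_one
  have h2 := wnorm_aeval_le hf (r := (1 : Fin m × Fin N → ℝ)) hr
    (fun x => ∑ l, C (A x.2 l) * (X (x.1, l) : MvPolynomial (Fin m × Fin N) ℤ)) P
  have h3 : ∀ x : Fin m × Fin N, wnorm f 1
      (∑ l, C (A x.2 l) * (X (x.1, l) : MvPolynomial (Fin m × Fin N) ℤ)) ≤ 1 + entrySum A := by
    intro x
    refine (wnorm_sum_le hf hr _ _).trans ?_
    have h4 : ∑ l, wnorm f 1 (C (A x.2 l) * (X (x.1, l) : MvPolynomial (Fin m × Fin N) ℤ)) ≤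
        ∑ l, |(A x.2 l : ℝ)| := by
      refine Finset.sum_le_sum fun l _ => (wnorm_mul_le hf hr _ _).trans ?_
      rw [wnorm_C hf, wnorm_X hf]
      simpa using hf.le_abs _
    have := row_le_entrySum A x.2
    linarith
  refine h2.trans ((wnorm_mono hf (r' := fun _ => 1 + entrySum A)
    (fun x => wnorm_nonneg hf hr _) h3 P).trans ?_)
  unfold wnorm
  rw [Finset.mul_sum]
  refine Finset.sum_le_sum fun J hJ => ?_
  rw [Finset.prod_pow_eq_pow_sum]
  have h5 : ∑ x, J x = ∑ h, d h := by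
    rw [Fintype.sum_prod_type]
    exact Finset.sum_congr rfl fun h _ => hP J hJ h
  rw [h5, mul_comm]
  have h6 : f (coeff J P) ≤ absZ (coeff J P) := hf.le_abs _
  simp only [Pi.one_apply, one_pow, Finset.prod_const_one, mul_one]
  have := entrySum_nonneg A
  exact mul_le_mul_of_nonneg_left h6 (by positivity)

theorem point_bound (v : AbsoluteValue ℤ ℝ) (A : Matrix (Fin N) (Fin N) ℤ)
    (hLB : 1 ≤ v A.det * |(A.det : ℝ)|) {d : Fin m → ℕ}
    {P : MvPolynomial (Fin m × Fin N) ℤ} (hP : BH d P) (z : Fin m × Fin N → ℤ)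
    (ρ : Fin m × Fin N → ℝ) (hρ : ∀ x, 0 < ρ x) (r : Fin m → ℝ) (hr : ∀ h, 0 < r h)
    (hrρ : ∀ h i, r h ≤ ρ (h, i)) (K : ℝ) (hK : 0 ≤ K)
    (hz : ∀ h i, v (∑ l, A i l * z (h, l)) ≤ K * ρ (h, i)) (Φ : ℝ)
    (hΦ : ∀ J ∈ (blk A.adjugate P).support, ∏ x, ρ x ^ J x ≤ Φ) (I : Fin m × Fin N →₀ ℕ) :
    v (coeff I (shift z P)) * ∏ x, r x.1 ^ I x ≤
      (|(A.det : ℝ)| * (K + entrySum A) * (1 + entrySum A.adjugate)) ^ (∑ h, d h) *
        wnorm absZ 1 P * Φ := by
  classical
  have hf : IsNm v := isNm_abv v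
  set P' := blk A.adjugate P with hP'
  have hP'BH : BH d P' := hP.blk _
  have h1 : blk A P' = C (A.det ^ (∑ h, d h)) * P := by
    rw [hP', blk_blk, Matrix.adjugate_mul, blk_smul_one hP]
  -- the shifted polynomial
  have h2 : shift z (blk A P') = aeval (fun x => ∑ l, C (A x.2 l) *
      ((X (x.1, l) : MvPolynomial (Fin m × Fin N) ℤ) + C (z (x.1, l)))) P' := by
    have : ((shift z).comp (blk A) : MvPolynomial (Fin m × Fin N) ℤ →ₐ[ℤ] _) =
        aeval (fun x => ∑ l, C (A x.2 l) *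
      ((X (x.1, l) : MvPolynomial (Fin m × Fin N) ℤ) + C (z (x.1, l)))) := by
      apply MvPolynomial.algHom_ext
      intro x
      rw [AlgHom.comp_apply, blk_X, map_sum, aeval_X]
      refine Finset.sum_congr rfl fun l _ => ?_
      rw [map_mul, shift_C, shift_X]
    exact DFunLike.congr_fun this P'
  set rr : Fin m × Fin N → ℝ := fun x => r x.1 with hrr
  have hrr0 : ∀ x, 0 ≤ rr x := fun x => (hr x.1).le
  have h3 : ∀ x : Fin m × Fin N, wnorm v rr (∑ l, C (A x.2 l) *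
      ((X (x.1, l) : MvPolynomial (Fin m × Fin N) ℤ) + C (z (x.1, l)))) ≤
      (K + entrySum A) * ρ x := by
    intro x
    have e1 : (∑ l, C (A x.2 l) * ((X (x.1, l) : MvPolynomial (Fin m × Fin N) ℤ) +
        C (z (x.1, l)))) = C (∑ l, A x.2 l * z (x.1, l)) +
        ∑ l, C (A x.2 l) * (X (x.1, l) : MvPolynomial (Fin m × Fin N) ℤ) := by
      simp only [mul_add, Finset.sum_add_distrib, map_sum, map_mul]
      rw [add_comm]
    rw [e1]
    refine (wnorm_add_le hf hrr0 _ _).trans ?_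
    rw [wnorm_C hf]
    have e2 : wnorm v rr (∑ l, C (A x.2 l) * (X (x.1, l) : MvPolynomial (Fin m × Fin N) ℤ)) ≤
        entrySum A * ρ x := by
      refine (wnorm_sum_le hf hrr0 _ _).trans ?_
      calc ∑ l, wnorm v rr (C (A x.2 l) * (X (x.1, l) : MvPolynomial (Fin m × Fin N) ℤ))
          ≤ ∑ l, |(A x.2 l : ℝ)| * r x.1 := by
            refine Finset.sum_le_sum fun l _ => (wnorm_mul_le hf hrr0 _ _).trans ?_
            rw [wnorm_C hf, wnorm_X hf]
            exact mul_le_mul_of_nonneg_right (hf.le_abs _) (hr _).le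
        _ = (∑ l, |(A x.2 l : ℝ)|) * r x.1 := (Finset.sum_mul _ _ _).symm
        _ ≤ entrySum A * ρ x :=
            mul_le_mul (row_le_entrySum A x.2) (hrρ x.1 x.2) (hr _).le (entrySum_nonneg A)
    have := hz x.1 x.2
    calc _ ≤ K * ρ x + entrySum A * ρ x := add_le_add this e2
      _ = _ := by ring
  have hKA : 0 ≤ K + entrySum A := add_nonneg hK (entrySum_nonneg A)
  have hΦ0 : P'.support.Nonempty → 0 ≤ Φ := by
    rintro ⟨J, hJ⟩
    exact (Finset.prod_nonneg fun x _ => pow_nonneg (hρ x).le _).trans (hΦ J hJ)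
  have h4 : wnorm v rr (shift z (blk A P')) ≤
      (K + entrySum A) ^ (∑ h, d h) * wnorm v 1 P' * Φ := by
    rw [h2]
    refine (wnorm_aeval_le hf hrr0 _ _).trans ?_
    refine (wnorm_mono hf (r' := fun x => (K + entrySum A) * ρ x)
      (fun x => wnorm_nonneg hf hrr0 _) h3 P').trans ?_
    unfold wnorm
    rw [mul_assoc, Finset.sum_mul, Finset.mul_sum]
    refine Finset.sum_le_sum fun J hJ => ?_
    simp only [mul_pow, Finset.prod_mul_distrib, Finset.prod_pow_eq_pow_sum, Pi.one_apply,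
      one_pow, Finset.prod_const_one, mul_one]
    have h5 : ∑ x, J x = ∑ h, d h := by
      rw [Fintype.sum_prod_type]
      exact Finset.sum_congr rfl fun h _ => hP'BH J hJ h
    rw [h5]
    calc v (coeff J P') * ((K + entrySum A) ^ (∑ h, d h) * ∏ x, ρ x ^ J x)
        = (K + entrySum A) ^ (∑ h, d h) * (v (coeff J P') * ∏ x, ρ x ^ J x) := by ring
      _ ≤ (K + entrySum A) ^ (∑ h, d h) * (v (coeff J P') * Φ) := by
          refine mul_le_mul_of_nonneg_left ?_ (pow_nonneg hKA _)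
          exact mul_le_mul_of_nonneg_left (hΦ J hJ) (v.nonneg _)
  have h6 := coeff_le_wnorm hf hrr0 (shift z (blk A P')) I
  rw [h1, map_mul, shift_C, coeff_C_mul, v.map_mul, v.map_pow] at h6
  have h7 := wnorm_blk_le hf hP A.adjugate
  rw [← hP'] at h7
  have hdet0 : 0 ≤ |(A.det : ℝ)| := abs_nonneg _
  set s := ∑ h, d h with hs
  have h8 : 1 ≤ (v A.det) ^ s * |(A.det : ℝ)| ^ s := by
    rw [← mul_pow]
    exact one_le_pow₀ hLB
  have hprod0 : 0 ≤ ∏ x, rr x ^ I x := Finset.prod_nonneg fun x _ => pow_nonneg (hrr0 x) _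
  have hco0 : 0 ≤ v (coeff I (shift z P)) := v.nonneg _
  have hW0 : 0 ≤ wnorm absZ 1 P := wnorm_nonneg isNm_absZ (fun _ => zero_le_one) _
  rcases P'.support.eq_empty_or_nonempty with he | hne
  · -- then `P = 0`
    have hP'0 : P' = 0 := support_eq_empty.1 he
    have hdet : A.det ≠ 0 := by
      intro h0
      rw [h0] at hLB
      simp at hLB
      linarith
    have hP0 : P = 0 := by
      rw [hP'0, map_zero] at h1
      have := h1.symm
      rcases mul_eq_zero.1 this with h | h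
      · rw [MvPolynomial.C_eq_zero] at h
        exact absurd h (pow_ne_zero _ hdet)
      · exact h
    rw [hP0]
    simp [wnorm_zero']
  have hΦ1 := hΦ0 hne
  calc v (coeff I (shift z P)) * ∏ x, r x.1 ^ I x
      ≤ ((v A.det) ^ s * |(A.det : ℝ)| ^ s) * (v (coeff I (shift z P)) * ∏ x, rr x ^ I x) := by
        have : 0 ≤ v (coeff I (shift z P)) * ∏ x, rr x ^ I x := mul_nonneg hco0 hprod0
        nlinarith
    _ = |(A.det : ℝ)| ^ s * ((v A.det) ^ s * v (coeff I (shift z P)) * ∏ x, rr x ^ I x) := by ring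
    _ ≤ |(A.det : ℝ)| ^ s * wnorm v rr (shift z (blk A P')) := by
        refine mul_le_mul_of_nonneg_left ?_ (pow_nonneg hdet0 _)
        rw [h1, map_mul, shift_C]
        exact h6
    _ ≤ |(A.det : ℝ)| ^ s * ((K + entrySum A) ^ s * wnorm v 1 P' * Φ) :=
        mul_le_mul_of_nonneg_left h4 (pow_nonneg hdet0 _)
    _ ≤ |(A.det : ℝ)| ^ s * ((K + entrySum A) ^ s *
          ((1 + entrySum A.adjugate) ^ s * wnorm absZ 1 P) * Φ) := by
        refine mul_le_mul_of_nonneg_left ?_ (pow_nonneg hdet0 _)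
        refine mul_le_mul_of_nonneg_right ?_ hΦ1
        exact mul_le_mul_of_nonneg_left h7 (pow_nonneg hKA _)
    _ = _ := by
        rw [mul_pow, mul_pow]
        ring

end

end Pool.Agent.Lib.Subspace
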