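import Pool.Agent.Lib.Subspace.Hyper2

/-!
# Roth's lemma for hyperplanes: main statement
-/

namespace Pool.Agent.Lib.Subspace

open MvPolynomial

theorem exists_comb {k : ℕ} (a : Fin (k + 1) → ℚ) (ha : a ≠ 0)
    (y : Fin k → Fin (k + 1) → ℚ) (hy : LinearIndependent ℚ y)
    (hay : ∀ j, ∑ i, a i * y j i = 0) (u : Fin (k + 1) → ℚ) (hu : ∑ i, a i * u i = 0) :
    ∃ c : Fin k → ℚ, ∀ i, ∑ j, c j * y j i = u i := by
  classical
  set f : (Fin (k + 1) → ℚ) →ₗ[ℚ] ℚ := ∑ i, a i • LinearMap.proj i with hf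
  have hfa : ∀ v, f v = ∑ i, a i * v i := by
    intro v
    simp [hf, LinearMap.sum_apply]
  have hf0 : f ≠ 0 := by
    intro h
    apply ha
    funext i
    have := LinearMap.congr_fun h (Pi.single i 1)
    rw [hfa] at this
    simpa [Pi.single_apply] using this
  have h1 := Module.Dual.finrank_ker_add_one_of_ne_zero (K := ℚ) (f := f) hf0
  rw [Module.finrank_fin_fun] at h1
  have h2 : Submodule.span ℚ (Set.range y) ≤ LinearMap.ker f := by
    rw [Submodule.span_le]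
    rintro _ ⟨j, rfl⟩
    rw [SetLike.mem_coe, LinearMap.mem_ker, hfa]
    exact hay j
  have h3 : Submodule.span ℚ (Set.range y) = LinearMap.ker f := by
    apply Submodule.eq_of_le_of_finrank_eq h2
    rw [finrank_span_eq_card hy, Fintype.card_fin]
    omega
  have h4 : u ∈ Submodule.span ℚ (Set.range y) := by
    rw [h3, LinearMap.mem_ker, hfa]
    exact hu
  obtain ⟨c, hc⟩ := (Submodule.mem_span_range_iff_exists_fun ℚ).1 h4
  refine ⟨c, fun i => ?_⟩
  rw [← hc]
  simp [Finset.sum_apply]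

theorem theta_eq_map_gam {m k : ℕ} (e1 e2 : Fin m → Fin (k + 1)) (he : ∀ h, e1 h ≠ e2 h)
    (a : Fin m → Fin (k + 1) → ℤ) (ha : ∀ h, a h (e1 h) ≠ 0)
    (y : Fin m → Fin k → Fin (k + 1) → ℤ)
    (hy : ∀ h, LinearIndependent ℚ (fun j i => (y h j i : ℚ)))
    (hay : ∀ h j, ∑ i, a h i * y h j i = 0) (ξ : Fin m → ℚ)
    (hξ : ∀ h, (a h (e2 h) : ℚ) = -(ξ h * a h (e1 h))) :
    ∃ φ : MvPolynomial (Fin m × Fin k) ℚ →+* MvPolynomial (Fin m × Fin (k + 1)) ℚ,
      theta e1 e2 ξ (fun x => (a x.1 x.2 : ℚ) / a x.1 (e1 x.1)) = (map φ).comp (gam e1 y) := by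
  classical
  have haQ : ∀ h, (a h (e1 h) : ℚ) ≠ 0 := fun h => by exact_mod_cast ha h
  -- coordinates of the basic vectors
  have hex : ∀ h i, i ≠ e1 h → ∃ c : Fin k → ℚ, ∀ i', ∑ j, c j * (y h j i' : ℚ) =
      (if i' = i then 1 else 0) - (a h i : ℚ) / a h (e1 h) * (if i' = e1 h then 1 else 0) := by
    intro h i hi
    apply exists_comb (fun i => (a h i : ℚ)) (fun h0 => haQ h (congrFun h0 (e1 h))) _ (hy h)
    · intro j
      have := hay h j
      exact_mod_cast this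
    · simp only [mul_sub, Finset.sum_sub_distrib, mul_ite, mul_one, mul_zero,
        Finset.sum_ite_eq', Finset.mem_univ, if_true]
      field_simp [haQ h]
      ring
  choose! c hc using hex
  set T : Fin m × Fin k → MvPolynomial (Fin m × Fin (k + 1)) ℚ := fun x =>
    C (c x.1 (e2 x.1) x.2) +
      ∑ i, if i ≠ e1 x.1 ∧ i ≠ e2 x.1 then C (c x.1 i x.2) * X (x.1, i) else 0 with hT
  refine ⟨(aeval T : MvPolynomial (Fin m × Fin k) ℚ →ₐ[ℚ] _).toRingHom, ?_⟩
  apply evI_ext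
  intro x
  obtain ⟨h, i'⟩ := x
  have key : ∑ j, C ((y h j i' : ℤ) : ℚ) * T (h, j) =
      C (∑ j, c h (e2 h) j * (y h j i' : ℚ)) +
      ∑ i, if i ≠ e1 h ∧ i ≠ e2 h then C (∑ j, c h i j * (y h j i' : ℚ)) *
        (X (h, i) : MvPolynomial (Fin m × Fin (k + 1)) ℚ) else 0 := by
    rw [hT]
    simp only [mul_add, Finset.sum_add_distrib, Finset.mul_sum]
    congr 1
    · rw [map_sum]
      exact Finset.sum_congr rfl fun j _ => by rw [C_mul, mul_comm]
    · rw [Finset.sum_comm]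
      refine Finset.sum_congr rfl fun i _ => ?_
      split_ifs with h1
      · rw [map_sum, Finset.sum_mul]
        refine Finset.sum_congr rfl fun j _ => ?_
        rw [C_mul]
        ring
      · simp
  have key2 : ∑ j, C ((y h j i' : ℤ) : ℚ) * T (h, j) =
      if i' = e1 h then ell e1 e2 ξ (fun x => (a x.1 x.2 : ℚ) / a x.1 (e1 x.1)) h else
      if i' = e2 h then 1 else (X (h, i') : MvPolynomial (Fin m × Fin (k + 1)) ℚ) := by
    rw [key, hc h (e2 h) (he h).symm]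
    have h3 : ∀ i, (if i ≠ e1 h ∧ i ≠ e2 h then C (∑ j, c h i j * (y h j i' : ℚ)) *
        (X (h, i) : MvPolynomial (Fin m × Fin (k + 1)) ℚ) else 0) =
        if i ≠ e1 h ∧ i ≠ e2 h then C ((if i' = i then 1 else 0) -
          (a h i : ℚ) / a h (e1 h) * (if i' = e1 h then 1 else 0)) *
          (X (h, i) : MvPolynomial (Fin m × Fin (k + 1)) ℚ) else 0 := by
      intro i
      by_cases h1 : i ≠ e1 h ∧ i ≠ e2 h
      · rw [if_pos h1, if_pos h1, hc h i h1.1]
      · rw [if_neg h1, if_neg h1]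
    rw [Finset.sum_congr rfl fun i _ => h3 i]
    by_cases hi1 : i' = e1 h
    · subst hi1
      rw [if_pos rfl, if_neg (he h), if_pos rfl]
      unfold ell
      have h4 : (0 : ℚ) - (a h (e2 h) : ℚ) / a h (e1 h) * 1 = ξ h := by
        rw [hξ h]
        field_simp [haQ h]
        ring
      rw [h4]
      congr 1
      refine Finset.sum_congr rfl fun i _ => ?_
      split_ifs with h5 h6
      · exact absurd h6.symm h5.1
      · simp
      · rfl
    · rw [if_neg hi1, if_neg hi1]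
      by_cases hi2 : i' = e2 h
      · subst hi2
        rw [if_pos rfl, if_pos rfl, mul_zero, sub_zero, C_1]
        rw [Finset.sum_eq_zero, add_zero]
        intro i _
        split_ifs with h5 h6
        · exact absurd h6.symm h5.2
        · simp
        · rfl
      · rw [if_neg hi2, if_neg hi2, mul_zero, sub_zero, C_0, zero_add]
        rw [Finset.sum_eq_single i']
        · rw [if_pos ⟨hi1, hi2⟩, if_pos rfl, mul_zero, sub_zero, C_1, one_mul]
        · intro i _ hne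
          split_ifs with h5 h6
          · exact absurd h6.symm hne
          · simp
          · rfl
        · intro h6
          exact absurd (Finset.mem_univ _) h6
  rw [RingHom.comp_apply]
  unfold theta gam
  rw [evI_X, evI_X]
  simp only
  rw [map_add, map_C]
  have h5 : (aeval T : MvPolynomial (Fin m × Fin k) ℚ →ₐ[ℚ] _).toRingHom
      (∑ j, C ((y h j i' : ℤ) : ℚ) * X (h, j)) = ∑ j, C ((y h j i' : ℤ) : ℚ) * T (h, j) := by
    simp only [AlgHom.toRingHom_eq_coe, RingHom.coe_coe, map_sum, map_mul, aeval_X]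
    refine Finset.sum_congr rfl fun j _ => ?_
    rw [aeval_C]
    rfl
  rw [h5, key2]
  split_ifs with h6 h7
  · rw [map_X]
    exact add_comm _ _
  · rw [map_zero, C_1, add_zero]
  · rw [map_zero, add_zero]

/-- Roth's lemma for hyperplanes: there is a small grid point on the product of the hyperplanes at
which a derivative of small order does not vanish. -/
theorem roth_hyper (m k : ℕ) (hk : 1 ≤ k) (hm : 1 ≤ m) (θ : ℝ) (hθ : 0 < θ) (hθ1 : θ ≤ 1) :
    ∃ ω : ℝ, 0 < ω ∧ ω ≤ 1 ∧ ∃ B0 : ℕ,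
    ∀ (d : Fin m → ℕ) (D : ℕ) (P : MvPolynomial (Fin m × Fin (k + 1)) ℤ)
      (a : Fin m → Fin (k + 1) → ℤ) (y : Fin m → Fin k → Fin (k + 1) → ℤ) (M B : ℝ),
      (∀ h, 1 ≤ d h) → (∀ h, d h ≤ D) → (∀ h h', h < h' → (d h : ℝ) ≤ ω * d h') →
      P ≠ 0 → (∀ J ∈ P.support, ∀ h, ∑ i, J (h, i) = d h) →
      (∀ h, ∃ x : Fin (k + 1) → ℤ, ∑ i, x i * a h i = 1) →
      (∀ h, LinearIndependent ℚ (fun j i => (y h j i : ℚ))) →
      (∀ h j, ∑ i, a h i * y h j i = 0) →
      1 ≤ M → (∀ h, ∃ i, M ≤ |(a h i : ℝ)| ^ (d h)) →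
      wnorm absZ 1 P ≤ B → B * rothC m ^ D ≤ M ^ ω →
      ∃ t : Fin m × Fin k → ℕ, (∀ x, t x ≤ B0) ∧ ∃ I : Fin m × Fin (k + 1) →₀ ℕ,
        ∑ h, ((∑ i, I (h, i) : ℕ) : ℝ) / d h < θ ∧
        coeff I (shift (fun x => ∑ j, (t (x.1, j) : ℤ) * y x.1 j x.2) P) ≠ 0 := by
  classical
  obtain ⟨ω', hω', hω'1, H⟩ := roth m (θ / 2) (by linarith) (by linarith)
  have hk1 : (0 : ℝ) < (k + 1 : ℕ) := by positivity
  set ω : ℝ := ω' / (k + 1 : ℕ) with hω
  have hωpos : 0 < ω := div_pos hω' hk1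
  have hωle : ω ≤ ω' := by
    rw [hω, div_le_iff₀ hk1]
    have : (1 : ℝ) ≤ (k + 1 : ℕ) := by exact_mod_cast Nat.succ_pos k
    nlinarith
  set B0 : ℕ := ⌈2 * m * k / θ⌉₊ with hB0
  have hB0θ : (m : ℝ) * k / (B0 + 1) ≤ θ / 2 := by
    have h1 : 2 * m * k / θ ≤ B0 := Nat.le_ceil _
    have h2 : 2 * (m : ℝ) * k ≤ B0 * θ := by rwa [div_le_iff₀ hθ] at h1
    rw [div_le_iff₀ (by positivity)]
    nlinarith
  refine ⟨ω, hωpos, hωle.trans hω'1, B0, ?_⟩
  intro d D P a y M B hd1 hdD hord hP hhom hprim hy hay hM hMa hB hBM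
  have hrat := fun h => exists_ratio hk (a h) (hprim h)
  choose e1 e2 p q he ha hcop hq hpq hbig using hrat
  set ξ : Fin m → ℚ := fun h => (p h : ℚ) / q h with hξ
  set F := restr e1 e2 P with hF
  have hF0 : F ≠ 0 := restr_ne_zero hP hhom
  have hFs : F.support.Nonempty := Finset.nonempty_of_ne_empty (fun h => hF0 (support_eq_empty.1 h))
  obtain ⟨s, hs, hsmin⟩ := F.support.exists_minimal hFs
  set R := coeff s F with hR
  have hR0 : R ≠ 0 := mem_support_iff.1 hs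
  have hmin : ∀ s', s' < s → coeff s' F = 0 := by
    intro s' hs'
    by_contra hne
    have := hsmin (mem_support_iff.2 hne) hs'.le
    exact absurd hs' (not_lt_of_ge this)
  have hH1 : ∀ h, 1 ≤ max |(p h : ℝ)| |(q h : ℝ)| := fun h =>
    le_trans (by exact_mod_cast Int.one_le_abs (hq h)) (le_max_right _ _)
  set M' : ℝ := M ^ (1 / ((k + 1 : ℕ) : ℝ)) with hM'
  have hM'1 : 1 ≤ M' := Real.one_le_rpow hM (by positivity)
  have hM'd : ∀ h, M' ≤ (max |(p h : ℝ)| |(q h : ℝ)|) ^ (d h) := by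
    intro h
    obtain ⟨i, hi⟩ := hMa h
    have h1 : M ≤ ((max |(p h : ℝ)| |(q h : ℝ)|) ^ (d h)) ^ (k + 1) := by
      calc M ≤ |(a h i : ℝ)| ^ (d h) := hi
        _ ≤ ((max |(p h : ℝ)| |(q h : ℝ)|) ^ (k + 1)) ^ (d h) :=
            pow_le_pow_left₀ (abs_nonneg _) (hbig h i) _
        _ = _ := by rw [← pow_mul, ← pow_mul, mul_comm]
    rw [hM']
    calc M ^ (1 / ((k + 1 : ℕ) : ℝ))
        ≤ (((max |(p h : ℝ)| |(q h : ℝ)|) ^ (d h)) ^ (k + 1)) ^ (1 / ((k + 1 : ℕ) : ℝ)) :=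
          Real.rpow_le_rpow (by linarith) h1 (by positivity)
      _ = _ := by
          rw [← Real.rpow_natCast _ (k + 1), ← Real.rpow_mul (by
            exact pow_nonneg (by linarith [hH1 h]) _), mul_one_div_cancel hk1.ne', Real.rpow_one]
  have hM'ω : M' ^ ω' = M ^ ω := by
    rw [hM', ← Real.rpow_mul (by linarith), hω]
    congr 1
    ring
  have hnot := H d D R p q M' B hd1 hdD
    (fun h h' hlt => (hord h h' hlt).trans (by gcongr)) hR0
    (degLE_coeff_restr hhom s) hcop hq hM'1 hM'd ((wnorm_coeff_restr P s).trans hB)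
    (by rw [hM'ω]; exact hBM)
  rw [IdxGE] at hnot
  push Not at hnot
  obtain ⟨κ, hκ, hκlt⟩ := hnot
  -- nonvanishing of the coefficient of `gam`
  have h1 : coeff s (coeff κ (theta e1 e2 ξ (fun x => (a x.1 x.2 : ℚ) / a x.1 (e1 x.1)) P)) ≠ 0 := by
    rw [coeff_theta e1 e2 ξ _ P s hmin κ]
    exact mem_support_iff.1 hκ
  obtain ⟨φ, hφ⟩ := theta_eq_map_gam e1 e2 he a ha y hy hay ξ (fun h => by
    have := hpq h
    have hqQ : (q h : ℚ) ≠ 0 := by exact_mod_cast hq h
    have h2 : (a h (e2 h) : ℚ) * q h = -(p h * a h (e1 h)) := by exact_mod_cast this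
    rw [hξ]
    field_simp
    linarith)
  set g := coeff κ (gam e1 y P) with hg
  have hg0 : g ≠ 0 := by
    intro h0
    rw [hφ, RingHom.comp_apply, coeff_map, ← hg, h0, map_zero, coeff_zero] at h1
    exact h1 rfl
  have hBHN : BHN d (gam e1 y P) := by
    rw [P.as_sum, map_sum]
    refine BHN.sum fun J hJ => ?_
    have := bhn_gam_monomial e1 y J (coeff J P)
    have h2 : (fun h => ∑ i, J (h, i)) = d := funext fun h => hhom J hJ h
    rwa [h2] at this
  have hgdeg : DegLE (fun x => d x.1) g := by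
    intro e he' x
    have h2 := hBHN κ e (mem_support_iff.1 he') x.1
    have h3 : e x ≤ ∑ j, e (x.1, j) :=
      Finset.single_le_sum (f := fun j => e (x.1, j)) (fun _ _ => Nat.zero_le _)
        (Finset.mem_univ x.2)
    simp only
    omega
  obtain ⟨t, ht, e, he', hne⟩ := grid_fintype B0 _ g hg0 hgdeg
  refine ⟨t, ht, ?_⟩
  set S := shift (fun x : Fin m × Fin (k + 1) => ∑ j, (t (x.1, j) : ℤ) * y x.1 j x.2) P with hS
  have h2 : coeff e (coeff κ (gam e1 y S)) ≠ 0 := by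
    rw [hS, gam_shift, coeff_map]
    exact hne
  have h3 : gam e1 y S = ∑ I ∈ S.support, gam e1 y (monomial I (coeff I S)) := by
    conv_lhs => rw [S.as_sum, map_sum]
  rw [h3, coeff_sum, coeff_sum] at h2
  obtain ⟨I, hI, hIne⟩ := Finset.exists_ne_zero_of_sum_ne_zero h2
  refine ⟨I, ?_, mem_support_iff.1 hI⟩
  have h4 : ∀ h, κ h + ∑ j, e (h, j) = ∑ i, I (h, i) :=
    bhn_gam_monomial e1 y I (coeff I S) κ e hIne
  have h5 : ∀ h, ((∑ i, I (h, i) : ℕ) : ℝ) / d h ≤
      1 / (d h : ℝ) * κ h + k / (B0 + 1) := by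
    intro h
    have hdh : (0 : ℝ) < d h := by exact_mod_cast hd1 h
    rw [← h4 h]
    push_cast
    rw [add_div]
    have h6 : (∑ j, (e (h, j) : ℝ)) / d h ≤ k / (B0 + 1) := by
      rw [div_le_div_iff₀ hdh (by positivity), Finset.sum_mul]
      calc ∑ j, (e (h, j) : ℝ) * (B0 + 1) ≤ ∑ _j : Fin k, (d h : ℝ) := by
            refine Finset.sum_le_sum fun j _ => ?_
            exact_mod_cast he' (h, j)
        _ = k * d h := by simp
    have h7 : (κ h : ℝ) / d h = 1 / (d h : ℝ) * κ h := by ring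
    linarith
  calc ∑ h, ((∑ i, I (h, i) : ℕ) : ℝ) / d h
      ≤ ∑ h, (1 / (d h : ℝ) * κ h + k / (B0 + 1)) := Finset.sum_le_sum fun h _ => h5 h
    _ = ∑ h, 1 / (d h : ℝ) * κ h + m * (k / (B0 + 1)) := by
        rw [Finset.sum_add_distrib]
        simp
    _ < θ / 2 + θ / 2 := by
        have : (m : ℝ) * (k / (B0 + 1)) = m * k / (B0 + 1) := by ring
        rw [this]
        linarith
    _ = θ := by ring

end Pool.Agent.Lib.Subspace
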