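import Pool.Agent.Lib.Subspace.Roth
import Mathlib.NumberTheory.SiegelsLemma

/-!
# The auxiliary polynomial of the subspace theorem
-/

namespace Pool.Agent.Lib.Subspace

open MvPolynomial

section BH

variable {m N : ℕ} {R : Type*} [CommRing R]

/-- block-homogeneous of degree `d` -/
def BH (d : Fin m → ℕ) (P : MvPolynomial (Fin m × Fin N) R) : Prop :=
  ∀ J ∈ P.support, ∀ h, ∑ i, J (h, i) = d h

theorem BH.zero (d : Fin m → ℕ) : BH d (0 : MvPolynomial (Fin m × Fin N) R) := by
  intro J hJ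
  simp at hJ

theorem BH.add {d : Fin m → ℕ} {P Q : MvPolynomial (Fin m × Fin N) R} (hP : BH d P)
    (hQ : BH d Q) : BH d (P + Q) := by
  classical
  intro J hJ
  rcases Finset.mem_union.1 (support_add hJ) with h | h
  · exact hP J h
  · exact hQ J h

theorem BH.sum {ι : Type*} {s : Finset ι} {d : Fin m → ℕ}
    {f : ι → MvPolynomial (Fin m × Fin N) R} (h : ∀ i ∈ s, BH d (f i)) :
    BH d (∑ i ∈ s, f i) := by
  classical
  induction s using Finset.induction_on with
  | empty => simpa using BH.zero d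
  | insert a s ha ih =>
    rw [Finset.sum_insert ha]
    exact (h a (Finset.mem_insert_self _ _)).add
      (ih fun i hi => h i (Finset.mem_insert_of_mem hi))

theorem BH.mul {d e : Fin m → ℕ} {P Q : MvPolynomial (Fin m × Fin N) R} (hP : BH d P)
    (hQ : BH e Q) : BH (d + e) (P * Q) := by
  classical
  intro J hJ h
  obtain ⟨J1, hJ1, J2, hJ2, rfl⟩ := Finset.mem_add.1 (support_mul P Q hJ)
  simp only [Finsupp.add_apply, Finset.sum_add_distrib, Pi.add_apply, hP J1 hJ1 h, hQ J2 hJ2 h]

theorem BH.C (c : R) : BH (0 : Fin m → ℕ) (C c : MvPolynomial (Fin m × Fin N) R) := by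
  classical
  intro J hJ h
  rw [mem_support_iff, coeff_C] at hJ
  split_ifs at hJ with h0
  · simp [← h0]
  · exact absurd rfl hJ

theorem BH.prod {ι : Type*} {s : Finset ι} {d : ι → Fin m → ℕ}
    {f : ι → MvPolynomial (Fin m × Fin N) R} (h : ∀ i ∈ s, BH (d i) (f i)) :
    BH (∑ i ∈ s, d i) (∏ i ∈ s, f i) := by
  classical
  induction s using Finset.induction_on with
  | empty =>
    rw [Finset.sum_empty, Finset.prod_empty, ← C_1]
    exact BH.C 1
  | insert a s ha ih =>
    rw [Finset.sum_insert ha, Finset.prod_insert ha]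
    exact (h a (Finset.mem_insert_self _ _)).mul
      (ih fun i hi => h i (Finset.mem_insert_of_mem hi))

theorem BH.pow {d : Fin m → ℕ} {P : MvPolynomial (Fin m × Fin N) R} (hP : BH d P) (n : ℕ) :
    BH (n • d) (P ^ n) := by
  have := BH.prod (s := Finset.range n) (d := fun _ => d) (f := fun _ => P) (fun _ _ => hP)
  simpa using this

theorem BH.X (h : Fin m) (i : Fin N) :
    BH (Pi.single h 1) (X (h, i) : MvPolynomial (Fin m × Fin N) R) := by
  classical
  intro J hJ h'
  by_cases hR : Nontrivial R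
  · rw [support_X, Finset.mem_singleton] at hJ
    subst hJ
    simp only [Finsupp.single_apply, Pi.single_apply, Prod.mk.injEq]
    by_cases hh : h = h'
    · subst hh
      simp
    · simp [hh, Ne.symm hh]
  · rw [not_nontrivial_iff_subsingleton] at hR
    rw [mem_support_iff] at hJ
    exact absurd (Subsingleton.elim _ _) hJ

/-- substitution of a matrix in every block -/
noncomputable def blk (A : Matrix (Fin N) (Fin N) R) :
    MvPolynomial (Fin m × Fin N) R →ₐ[R] MvPolynomial (Fin m × Fin N) R :=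
  aeval (fun x => ∑ l, C (A x.2 l) * X (x.1, l))

theorem blk_X (A : Matrix (Fin N) (Fin N) R) (x : Fin m × Fin N) :
    blk A (X x : MvPolynomial (Fin m × Fin N) R) = ∑ l, C (A x.2 l) * X (x.1, l) := by
  simp [blk]

theorem blk_C (A : Matrix (Fin N) (Fin N) R) (c : R) :
    blk A (C c : MvPolynomial (Fin m × Fin N) R) = C c := by
  simp [blk]

theorem BH.blk {d : Fin m → ℕ} {P : MvPolynomial (Fin m × Fin N) R} (hP : BH d P)
    (A : Matrix (Fin N) (Fin N) R) : BH d (blk A P) := by
  classical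
  have h1 : Subspace.blk A P = ∑ J ∈ P.support, MvPolynomial.C (coeff J P) *
      ∏ x, (∑ l, MvPolynomial.C (A x.2 l) * MvPolynomial.X (x.1, l)) ^ J x := by
    conv_lhs => rw [P.as_sum, map_sum]
    refine Finset.sum_congr rfl fun J _ => ?_
    unfold Subspace.blk
    rw [aeval_monomial, Finsupp.prod_fintype _ _ (by simp), algebraMap_eq]
  rw [h1]
  refine BH.sum fun J hJ => ?_
  have h2 : ∀ x ∈ (Finset.univ : Finset (Fin m × Fin N)),
      BH (J x • Pi.single x.1 1 : Fin m → ℕ)
      ((∑ l, MvPolynomial.C (A x.2 l) * (MvPolynomial.X (x.1, l) :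
        MvPolynomial (Fin m × Fin N) R)) ^ J x) := by
    intro x _
    refine BH.pow (BH.sum fun l _ => ?_) _
    have := (BH.C (N := N) (m := m) (A x.2 l)).mul (BH.X (R := R) x.1 l)
    rwa [zero_add] at this
  have h3 := (BH.C (N := N) (m := m) (coeff J P)).mul (BH.prod h2)
  rw [zero_add] at h3
  have h4 : ∑ x : Fin m × Fin N, (J x • Pi.single x.1 1 : Fin m → ℕ) = d := by
    funext h
    rw [← hP J hJ h, Finset.sum_apply, Fintype.sum_prod_type, Finset.sum_eq_single h]
    · simp
    · intro h' _ hne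
      simp [Ne.symm hne]
    · simp
  rwa [h4] at h3

theorem blk_blk (A B : Matrix (Fin N) (Fin N) R) (P : MvPolynomial (Fin m × Fin N) R) :
    blk A (blk B P) = blk (B * A) P := by
  have : ((blk A).comp (blk B) : MvPolynomial (Fin m × Fin N) R →ₐ[R] _) = blk (B * A) := by
    apply MvPolynomial.algHom_ext
    intro x
    rw [AlgHom.comp_apply, blk_X, blk_X, map_sum]
    simp only [map_mul, blk_C, blk_X, Matrix.mul_apply, map_sum, Finset.mul_sum, Finset.sum_mul]
    rw [Finset.sum_comm]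
    refine Finset.sum_congr rfl fun l _ => Finset.sum_congr rfl fun l' _ => ?_
    ring
  exact DFunLike.congr_fun this P

theorem blk_smul_one {d : Fin m → ℕ} {P : MvPolynomial (Fin m × Fin N) R} (hP : BH d P) (c : R) :
    blk (c • (1 : Matrix (Fin N) (Fin N) R)) P = C (c ^ (∑ h, d h)) * P := by
  classical
  conv_lhs => rw [P.as_sum, map_sum]
  conv_rhs => rw [P.as_sum, Finset.mul_sum]
  refine Finset.sum_congr rfl fun J hJ => ?_
  unfold blk
  rw [aeval_monomial, Finsupp.prod_fintype _ _ (by simp), algebraMap_eq]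
  have h1 : ∀ x : Fin m × Fin N, ∑ l, C ((c • (1 : Matrix (Fin N) (Fin N) R)) x.2 l) *
      (X (x.1, l) : MvPolynomial (Fin m × Fin N) R) = C c * X x := by
    intro x
    rw [Finset.sum_eq_single x.2]
    · simp
    · intro l _ hl
      simp [Matrix.one_apply_ne hl.symm]
    · simp
  simp_rw [h1, mul_pow]
  rw [Finset.prod_mul_distrib, Finset.prod_pow_eq_pow_sum]
  have h2 : ∑ x, J x = ∑ h, d h := by
    rw [Fintype.sum_prod_type]
    exact Finset.sum_congr rfl fun h _ => hP J hJ h
  rw [h2, monomial_eq, Finsupp.prod_fintype _ _ (by simp), C_pow]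
  ring

end BH

section Count

variable {N : ℕ}

/-- tuples of sum `n` -/
def tup (N n : ℕ) : Finset (Fin N → ℕ) := Finset.piAntidiag Finset.univ n

theorem mem_tup {n : ℕ} {j : Fin N → ℕ} : j ∈ tup N n ↔ ∑ i, j i = n := by
  simp [tup]

theorem card_tup_le (n : ℕ) : (tup N n).card ≤ 2 ^ (n * N) := by
  classical
  have h1 : tup N n ⊆ Fintype.piFinset (fun _ : Fin N => Finset.range (n + 1)) := by
    intro j hj
    rw [mem_tup] at hj
    rw [Fintype.mem_piFinset]
    intro i
    rw [Finset.mem_range, Nat.lt_succ_iff, ← hj]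
    exact Finset.single_le_sum (f := j) (fun _ _ => Nat.zero_le _) (Finset.mem_univ i)
  refine (Finset.card_le_card h1).trans ?_
  rw [Fintype.card_piFinset]
  simp only [Finset.card_range, Finset.prod_const, Finset.card_univ, Fintype.card_fin]
  rw [pow_mul]
  exact Nat.pow_le_pow_left (Nat.lt_two_pow_self) _

theorem tup_nonempty (hN : 0 < N) (n : ℕ) : (tup N n).Nonempty := by
  refine ⟨Pi.single ⟨0, hN⟩ n, ?_⟩
  rw [mem_tup]
  simp

theorem sum_tup_eq {n : ℕ} (i i' : Fin N) :
    ∑ j ∈ tup N n, (j i : ℝ) = ∑ j ∈ tup N n, (j i' : ℝ) := by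
  classical
  refine Finset.sum_nbij' (fun j => j ∘ Equiv.swap i i') (fun j => j ∘ Equiv.swap i i')
    ?_ ?_ ?_ ?_ ?_
  · intro j hj
    rw [mem_tup] at hj ⊢
    rw [← hj]
    exact Equiv.sum_comp (Equiv.swap i i') j
  · intro j hj
    rw [mem_tup] at hj ⊢
    rw [← hj]
    exact Equiv.sum_comp (Equiv.swap i i') j
  · intro j _
    funext l
    simp
  · intro j _
    funext l
    simp
  · intro j _
    simp

theorem sum_tup_dev {n : ℕ} (hN : 0 < N) (hn : 0 < n) (i : Fin N) :
    ∑ j ∈ tup N n, ((j i : ℝ) / n - 1 / N) = 0 := by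
  have h1 : (N : ℝ) * ∑ j ∈ tup N n, (j i : ℝ) = n * (tup N n).card := by
    calc (N : ℝ) * ∑ j ∈ tup N n, (j i : ℝ) = ∑ _i' : Fin N, ∑ j ∈ tup N n, (j i : ℝ) := by simp
      _ = ∑ i' : Fin N, ∑ j ∈ tup N n, (j i' : ℝ) :=
          Finset.sum_congr rfl fun i' _ => sum_tup_eq i i'
      _ = ∑ j ∈ tup N n, ∑ i' : Fin N, (j i' : ℝ) := Finset.sum_comm
      _ = ∑ j ∈ tup N n, (n : ℝ) := by
          refine Finset.sum_congr rfl fun j hj => ?_
          rw [mem_tup] at hj
          exact_mod_cast hj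
      _ = _ := by rw [Finset.sum_const, nsmul_eq_mul, mul_comm]
  have hN' : (N : ℝ) ≠ 0 := by positivity
  have hn' : (n : ℝ) ≠ 0 := by positivity
  rw [Finset.sum_sub_distrib, ← Finset.sum_div, Finset.sum_const, nsmul_eq_mul]
  field_simp
  linarith

theorem abs_dev_le {n : ℕ} (hN : 0 < N) (hn : 0 < n) (i : Fin N) {j : Fin N → ℕ}
    (hj : j ∈ tup N n) : |(j i : ℝ) / n - 1 / N| ≤ 1 := by
  rw [mem_tup] at hj
  have h1 : j i ≤ n := by
    rw [← hj]
    exact Finset.single_le_sum (f := j) (fun _ _ => Nat.zero_le _) (Finset.mem_univ i)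
  have hn' : (0 : ℝ) < n := by exact_mod_cast hn
  have hN' : (1 : ℝ) ≤ N := by exact_mod_cast hN
  have h2 : (j i : ℝ) / n ≤ 1 := by
    rw [div_le_one hn']
    exact_mod_cast h1
  have h3 : (0 : ℝ) ≤ (j i : ℝ) / n := by positivity
  have h4 : (1 : ℝ) / N ≤ 1 := by
    rw [div_le_one (by linarith)]
    exact hN'
  have h5 : (0 : ℝ) ≤ 1 / N := by positivity
  rw [abs_le]
  constructor <;> linarith

/-- second moment of a sum of independent centred variables -/
theorem second_moment {m : ℕ} {α : Type*} [DecidableEq α] (S : Fin m → Finset α)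
    (g : Fin m → α → ℝ) (h0 : ∀ h, ∑ j ∈ S h, g h j = 0) (h1 : ∀ h, ∀ j ∈ S h, |g h j| ≤ 1) :
    ∑ J ∈ Fintype.piFinset S, (∑ h, g h (J h)) ^ 2 ≤ m * (Fintype.piFinset S).card := by
  classical
  have hcross : ∀ h h', h ≠ h' → ∑ J ∈ Fintype.piFinset S, g h (J h) * g h' (J h') = 0 := by
    intro h h' hne
    set F : Fin m → α → ℝ := fun l j => if l = h then g h j else if l = h' then g h' j else 1
      with hF
    have e1 : ∀ J : Fin m → α, ∏ l, F l (J l) = g h (J h) * g h' (J h') := by
      intro J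
      rw [← Finset.mul_prod_erase _ _ (Finset.mem_univ h),
        ← Finset.mul_prod_erase _ _ (Finset.mem_erase.2 ⟨hne.symm, Finset.mem_univ h'⟩),
        Finset.prod_eq_one]
      · simp [hF, hne.symm]
      · intro l hl
        simp only [Finset.mem_erase, Finset.mem_univ, and_true] at hl
        simp [hF, hl.1, hl.2]
    calc ∑ J ∈ Fintype.piFinset S, g h (J h) * g h' (J h')
        = ∑ J ∈ Fintype.piFinset S, ∏ l, F l (J l) :=
          Finset.sum_congr rfl fun J _ => (e1 J).symm
      _ = ∏ l, ∑ j ∈ S l, F l j := (Finset.prod_univ_sum _ _).symm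
      _ = 0 := by
          apply Finset.prod_eq_zero (Finset.mem_univ h)
          simp only [hF, if_true]
          exact h0 h
  calc ∑ J ∈ Fintype.piFinset S, (∑ h, g h (J h)) ^ 2
      = ∑ J ∈ Fintype.piFinset S, ∑ h, ∑ h', g h (J h) * g h' (J h') := by
        refine Finset.sum_congr rfl fun J _ => ?_
        rw [sq, Finset.sum_mul_sum]
    _ = ∑ h, ∑ h', ∑ J ∈ Fintype.piFinset S, g h (J h) * g h' (J h') := by
        rw [Finset.sum_comm]
        exact Finset.sum_congr rfl fun h _ => Finset.sum_comm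
    _ = ∑ h, ∑ J ∈ Fintype.piFinset S, g h (J h) * g h (J h) := by
        refine Finset.sum_congr rfl fun h _ => ?_
        rw [Finset.sum_eq_single h]
        · intro h' _ hne
          exact hcross h h' hne.symm
        · simp
    _ ≤ ∑ _h : Fin m, ∑ _J ∈ Fintype.piFinset S, (1 : ℝ) := by
        refine Finset.sum_le_sum fun h _ => Finset.sum_le_sum fun J hJ => ?_
        have := h1 h (J h) (Fintype.mem_piFinset.1 hJ h)
        rw [abs_le] at this
        nlinarith
    _ = _ := by simp

/-- number of unbalanced multi-indices -/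
theorem card_bad {m : ℕ} (hN : 0 < N) (d : Fin m → ℕ) (hd : ∀ h, 1 ≤ d h) {η : ℝ} (hη : 0 < η)
    (i : Fin N) :
    ((((Fintype.piFinset fun h => tup N (d h)).filter fun J =>
      m * η < |∑ h, (J h i : ℝ) / d h - m / N|).card : ℕ) : ℝ) * (m * η ^ 2) ≤
      (Fintype.piFinset fun h => tup N (d h)).card := by
  classical
  rcases Nat.eq_zero_or_pos m with rfl | hm
  · simp
  have hm' : (0 : ℝ) < m := by exact_mod_cast hm
  set All := Fintype.piFinset fun h => tup N (d h) with hAll
  set Bad := All.filter fun J => m * η < |∑ h, (J h i : ℝ) / d h - m / N| with hBad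
  have h1 := second_moment (fun h => tup N (d h)) (fun h j => (j i : ℝ) / d h - 1 / N)
    (fun h => sum_tup_dev hN (hd h) i) (fun h j hj => abs_dev_le hN (hd h) i hj)
  have h2 : ∀ J : Fin m → Fin N → ℕ, ∑ h, ((J h i : ℝ) / d h - 1 / N) =
      ∑ h, (J h i : ℝ) / d h - m / N := by
    intro J
    rw [Finset.sum_sub_distrib]
    simp [div_eq_mul_inv]
  simp only [h2] at h1
  have h3 : (Bad.card : ℝ) * (m * η) ^ 2 ≤ ∑ J ∈ All, (∑ h, (J h i : ℝ) / d h - m / N) ^ 2 := by
    calc (Bad.card : ℝ) * (m * η) ^ 2 = ∑ _J ∈ Bad, (m * η) ^ 2 := by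
          rw [Finset.sum_const, nsmul_eq_mul]
      _ ≤ ∑ J ∈ Bad, (∑ h, (J h i : ℝ) / d h - m / N) ^ 2 := by
          refine Finset.sum_le_sum fun J hJ => ?_
          have h4 := (Finset.mem_filter.1 hJ).2
          rw [← sq_abs (∑ h, (J h i : ℝ) / d h - m / N)]
          exact pow_le_pow_left₀ (by positivity) h4.le 2
      _ ≤ _ := Finset.sum_le_sum_of_subset_of_nonneg (Finset.filter_subset _ _)
          fun _ _ _ => sq_nonneg _
  have h5 := h3.trans h1
  have h6 : (Bad.card : ℝ) * (m * η) ^ 2 = m * (Bad.card * (m * η ^ 2)) := by ring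
  rw [h6] at h5
  exact le_of_mul_le_mul_left h5 hm'

end Count

section Main

attribute [local instance] Matrix.seminormedAddCommGroup

/-- multi-index of a block tuple -/
noncomputable def toF {m N : ℕ} (J : Fin m → Fin N → ℕ) : Fin m × Fin N →₀ ℕ :=
  Finsupp.equivFunOnFinite.symm fun x => J x.1 x.2

@[simp] theorem toF_apply {m N : ℕ} (J : Fin m → Fin N → ℕ) (x : Fin m × Fin N) :
    toF J x = J x.1 x.2 := rfl

theorem toF_injective {m N : ℕ} : Function.Injective (toF : (Fin m → Fin N → ℕ) → _) := by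
  intro J J' h
  funext a b
  have := DFunLike.congr_fun h (a, b)
  simpa using this

theorem aux_poly {V : Type*} [Fintype V] (m N : ℕ) (hN : 0 < N) (hm : 0 < m)
    (A : V → Matrix (Fin N) (Fin N) ℤ) (η : ℝ) (hη : 0 < η)
    (hmη : 2 * N * Fintype.card V ≤ m * η ^ 2) :
    ∃ C : ℝ, 1 ≤ C ∧ ∀ (d : Fin m → ℕ) (D : ℕ), (∀ h, 1 ≤ d h) → (∀ h, d h ≤ D) →
      ∃ P : MvPolynomial (Fin m × Fin N) ℤ, P ≠ 0 ∧ BH d P ∧ wnorm absZ 1 P ≤ C ^ D ∧
        ∀ v, ∀ J ∈ (blk (A v) P).support, ∀ i, |∑ h, (J (h, i) : ℝ) / d h - m / N| ≤ m * η := by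
  classical
  set C0 : ℝ := 1 + ∑ v, ∑ i, ∑ l, |(A v i l : ℝ)| with hC0
  have hC0row : ∀ v i, ∑ l, |(A v i l : ℝ)| ≤ C0 := by
    intro v i
    have h1 : ∑ l, |(A v i l : ℝ)| ≤ ∑ i, ∑ l, |(A v i l : ℝ)| :=
      Finset.single_le_sum (f := fun i => ∑ l, |(A v i l : ℝ)|)
        (fun _ _ => Finset.sum_nonneg fun _ _ => abs_nonneg _) (Finset.mem_univ i)
    have h2 : ∑ i, ∑ l, |(A v i l : ℝ)| ≤ ∑ v, ∑ i, ∑ l, |(A v i l : ℝ)| :=
      Finset.single_le_sum (f := fun v => ∑ i, ∑ l, |(A v i l : ℝ)|)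
        (fun _ _ => Finset.sum_nonneg fun _ _ => Finset.sum_nonneg fun _ _ => abs_nonneg _)
        (Finset.mem_univ v)
    linarith
  have hC01 : 1 ≤ C0 := by
    have : 0 ≤ ∑ v, ∑ i, ∑ l, |(A v i l : ℝ)| :=
      Finset.sum_nonneg fun _ _ => Finset.sum_nonneg fun _ _ =>
        Finset.sum_nonneg fun _ _ => abs_nonneg _
    linarith
  refine ⟨2 ^ (2 * N * m) * C0 ^ m, ?_, ?_⟩
  · exact one_le_mul_of_one_le_of_one_le (one_le_pow₀ (by norm_num)) (one_le_pow₀ hC01)
  intro d D hd hD
  set All := Fintype.piFinset fun h => tup N (d h) with hAll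
  set Bad := All.filter fun J => ∃ i, m * η < |∑ h, (J h i : ℝ) / d h - m / N| with hBad
  have hAllne : All.Nonempty := Fintype.piFinset_nonempty.2 fun h => tup_nonempty hN (d h)
  have hsum : ∑ h, d h ≤ m * D := by
    calc ∑ h, d h ≤ ∑ _h : Fin m, D := Finset.sum_le_sum fun h _ => hD h
      _ = m * D := by simp
  have hAllcard : (All.card : ℝ) ≤ 2 ^ (N * m * D) := by
    have h1 : All.card ≤ 2 ^ (N * m * D) := by
      rw [hAll, Fintype.card_piFinset]
      calc ∏ h, (tup N (d h)).card ≤ ∏ h, 2 ^ (d h * N) :=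
            Finset.prod_le_prod' fun h _ => card_tup_le _
        _ = 2 ^ (∑ h, d h * N) := Finset.prod_pow_eq_pow_sum _ _ _
        _ ≤ _ := by
            apply Nat.pow_le_pow_right (by norm_num)
            rw [← Finset.sum_mul]
            nlinarith
    exact_mod_cast h1
  have hAllpos : (0 : ℝ) < All.card := by exact_mod_cast hAllne.card_pos
  -- the number of conditions
  have hmη' : 0 < m * η ^ 2 := by positivity
  have hcond : 2 * ((Fintype.card V : ℝ) * Bad.card) ≤ All.card := by
    have h1 : Bad ⊆ Finset.univ.biUnion fun i : Fin N => All.filter fun J =>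
        m * η < |∑ h, (J h i : ℝ) / d h - m / N| := by
      intro J hJ
      obtain ⟨hJ1, i, hJ2⟩ := Finset.mem_filter.1 hJ
      exact Finset.mem_biUnion.2 ⟨i, Finset.mem_univ _, Finset.mem_filter.2 ⟨hJ1, hJ2⟩⟩
    have h2 : (Bad.card : ℝ) ≤ ∑ i : Fin N, ((All.filter fun J =>
        m * η < |∑ h, (J h i : ℝ) / d h - m / N|).card : ℝ) := by
      exact_mod_cast (Finset.card_le_card h1).trans Finset.card_biUnion_le
    have h3 : (Bad.card : ℝ) * (m * η ^ 2) ≤ N * All.card := by
      calc (Bad.card : ℝ) * (m * η ^ 2) ≤ (∑ i : Fin N, ((All.filter fun J =>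
              m * η < |∑ h, (J h i : ℝ) / d h - m / N|).card : ℝ)) * (m * η ^ 2) :=
            mul_le_mul_of_nonneg_right h2 hmη'.le
        _ = ∑ i : Fin N, ((All.filter fun J =>
              m * η < |∑ h, (J h i : ℝ) / d h - m / N|).card : ℝ) * (m * η ^ 2) :=
            Finset.sum_mul _ _ _
        _ ≤ ∑ _i : Fin N, (All.card : ℝ) := Finset.sum_le_sum fun i _ => card_bad hN d hd hη i
        _ = _ := by simp
    have h4 : (2 * ((Fintype.card V : ℝ) * Bad.card)) * (m * η ^ 2) ≤ All.card * (m * η ^ 2) := by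
      calc (2 * ((Fintype.card V : ℝ) * Bad.card)) * (m * η ^ 2)
          = 2 * (Fintype.card V : ℝ) * (Bad.card * (m * η ^ 2)) := by ring
        _ ≤ 2 * (Fintype.card V : ℝ) * (N * All.card) := by
            apply mul_le_mul_of_nonneg_left h3
            positivity
        _ = (2 * N * (Fintype.card V : ℝ)) * All.card := by ring
        _ ≤ (m * η ^ 2) * All.card := mul_le_mul_of_nonneg_right hmη hAllpos.le
        _ = _ := by ring
    exact le_of_mul_le_mul_right h4 hmη'
  -- the matrix of conditions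
  set M : Matrix (V × Bad) All ℤ := fun r J =>
    coeff (toF (r.2 : Fin m → Fin N → ℕ)) (blk (A r.1) (monomial (toF (J : Fin m → Fin N → ℕ)) 1))
    with hM
  have hMle : ‖M‖ ≤ C0 ^ (m * D) := by
    rw [Matrix.norm_le_iff (by positivity)]
    intro r J
    rw [Int.norm_eq_abs]
    have hr : ∀ x : Fin m × Fin N, (0 : ℝ) ≤ (1 : Fin m × Fin N → ℝ) x := fun _ => zero_le_one
    have h1 := coeff_le_wnorm_one isNm_absZ
      (blk (A r.1) (monomial (toF (J : Fin m → Fin N → ℕ)) (1 : ℤ)))
      (toF (r.2 : Fin m → Fin N → ℕ))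
    have h2 := wnorm_aeval_le isNm_absZ (r := (1 : Fin m × Fin N → ℝ)) hr
      (fun x => ∑ l, C (A r.1 x.2 l) * (X (x.1, l) : MvPolynomial (Fin m × Fin N) ℤ))
      (monomial (toF (J : Fin m → Fin N → ℕ)) (1 : ℤ))
    have h3 : ∀ x : Fin m × Fin N, wnorm absZ 1
        (∑ l, C (A r.1 x.2 l) * (X (x.1, l) : MvPolynomial (Fin m × Fin N) ℤ)) ≤ C0 := by
      intro x
      refine (wnorm_sum_le isNm_absZ hr _ _).trans (le_trans ?_ (hC0row r.1 x.2))
      refine Finset.sum_le_sum fun l _ => (wnorm_mul_le isNm_absZ hr _ _).trans ?_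
      rw [wnorm_C isNm_absZ, wnorm_X isNm_absZ]
      simp [absZ]
    have h4 := wnorm_mono isNm_absZ (r' := fun _ => C0)
      (fun x => wnorm_nonneg isNm_absZ hr _) h3 (monomial (toF (J : Fin m → Fin N → ℕ)) (1 : ℤ))
    rw [wnorm_monomial isNm_absZ (fun _ => C0), isNm_absZ.one, one_mul,
      Finset.prod_pow_eq_pow_sum] at h4
    have h5 : ∑ x, toF (J : Fin m → Fin N → ℕ) x = ∑ h, d h := by
      rw [Fintype.sum_prod_type]
      refine Finset.sum_congr rfl fun h _ => ?_
      have := mem_tup.1 (Fintype.mem_piFinset.1 J.2 h)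
      simpa using this
    rw [h5] at h4
    calc |((M r J : ℤ) : ℝ)| ≤ _ := h1
      _ ≤ _ := h2
      _ ≤ C0 ^ (∑ h, d h) := h4
      _ ≤ C0 ^ (m * D) := pow_le_pow_right₀ hC01 hsum
  -- Siegel's lemma
  have hcardV : Fintype.card (V × Bad) = Fintype.card V * Bad.card := by
    rw [Fintype.card_prod, Fintype.card_coe]
  have hcardA : Fintype.card All = All.card := Fintype.card_coe _
  obtain ⟨t, ht0, htM, htn⟩ : ∃ t : All → ℤ, t ≠ 0 ∧ M.mulVec t = 0 ∧
      ‖t‖ ≤ 2 ^ (N * m * D) * C0 ^ (m * D) := by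
    rcases Nat.eq_zero_or_pos (Fintype.card (V × Bad)) with h0 | hpos
    · obtain ⟨J0, hJ0⟩ := hAllne
      refine ⟨Pi.single ⟨J0, hJ0⟩ 1, ?_, ?_, ?_⟩
      · intro h
        have := congrFun h ⟨J0, hJ0⟩
        simp at this
      · funext r
        exact (Fintype.card_eq_zero_iff.1 h0).elim r
      · have h1 : (1 : ℝ) ≤ 2 ^ (N * m * D) * C0 ^ (m * D) :=
          one_le_mul_of_one_le_of_one_le (one_le_pow₀ (by norm_num)) (one_le_pow₀ hC01)
        refine le_trans ?_ h1
        rw [pi_norm_le_iff_of_nonneg zero_le_one]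
        intro J
        by_cases hJ : J = ⟨J0, hJ0⟩
        · rw [hJ]
          simp
        · rw [Pi.single_eq_of_ne hJ]
          simp
    · have hlt : Fintype.card (V × Bad) < Fintype.card All := by
        rw [hcardA]
        have h1 : (2 : ℝ) * (Fintype.card (V × Bad)) ≤ All.card := by
          rw [hcardV]
          push_cast
          exact hcond
        have h2 : 2 * Fintype.card (V × Bad) ≤ All.card := by exact_mod_cast h1
        omega
      obtain ⟨t, ht0, htM, htn⟩ := Int.Matrix.exists_ne_zero_int_vec_norm_le M hlt hpos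
      refine ⟨t, ht0, htM, htn.trans ?_⟩
      have hbase : (Fintype.card All : ℝ) * max 1 ‖M‖ ≤ 2 ^ (N * m * D) * C0 ^ (m * D) := by
        rw [hcardA]
        exact mul_le_mul hAllcard (max_le (one_le_pow₀ hC01) hMle)
          (le_max_of_le_left zero_le_one) (by positivity)
      have hb1 : 1 ≤ (Fintype.card All : ℝ) * max 1 ‖M‖ := by
        rw [hcardA]
        exact one_le_mul_of_one_le_of_one_le (by exact_mod_cast hAllne.card_pos)
          (le_max_left _ _)
      refine le_trans ?_ hbase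
      have hexp : (Fintype.card (V × Bad) : ℝ) / (Fintype.card All - Fintype.card (V × Bad)) ≤ 1 := by
        have h1 : (2 : ℝ) * (Fintype.card (V × Bad)) ≤ Fintype.card All := by
          rw [hcardV, hcardA]
          push_cast
          exact hcond
        have h2 : (0 : ℝ) < Fintype.card (V × Bad) := by exact_mod_cast hpos
        rw [div_le_one (by linarith)]
        linarith
      calc _ ≤ ((Fintype.card All : ℝ) * max 1 ‖M‖) ^ (1 : ℝ) :=
            Real.rpow_le_rpow_of_exponent_le hb1 hexp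
        _ = _ := Real.rpow_one _
  -- the polynomial
  set P : MvPolynomial (Fin m × Fin N) ℤ :=
    ∑ J : All, monomial (toF (J : Fin m → Fin N → ℕ)) (t J) with hP
  have hcoeff : ∀ J : All, coeff (toF (J : Fin m → Fin N → ℕ)) P = t J := by
    intro J
    rw [hP, coeff_sum, Finset.sum_eq_single J]
    · simp
    · intro J' _ hne
      rw [coeff_monomial, if_neg]
      intro h
      exact hne (Subtype.ext (toF_injective h))
    · simp
  have hPBH : BH d P := by
    refine BH.sum fun J _ => ?_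
    intro K hK h
    have h1 : K = toF (J : Fin m → Fin N → ℕ) := by
      have := support_monomial_subset hK
      simpa using this
    rw [h1]
    have := mem_tup.1 (Fintype.mem_piFinset.1 J.2 h)
    simpa using this
  refine ⟨P, ?_, hPBH, ?_, ?_⟩
  · intro h0
    apply ht0
    funext J
    rw [← hcoeff J, h0]
    simp
  · have hr : ∀ x : Fin m × Fin N, (0 : ℝ) ≤ (1 : Fin m × Fin N → ℝ) x := fun _ => zero_le_one
    calc wnorm absZ 1 P ≤ ∑ J : All, wnorm absZ 1 (monomial (toF (J : Fin m → Fin N → ℕ)) (t J)) :=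
          wnorm_sum_le isNm_absZ hr _ _
      _ ≤ ∑ _J : All, (2 ^ (N * m * D) * C0 ^ (m * D) : ℝ) := by
          refine Finset.sum_le_sum fun J _ => ?_
          rw [wnorm_monomial isNm_absZ]
          simp only [Pi.one_apply, one_pow, Finset.prod_const_one, mul_one]
          have := (norm_le_pi_norm t J).trans htn
          rwa [Int.norm_eq_abs] at this
      _ = All.card * (2 ^ (N * m * D) * C0 ^ (m * D) : ℝ) := by
          rw [Finset.sum_const, Finset.card_univ, hcardA, nsmul_eq_mul]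
      _ ≤ 2 ^ (N * m * D) * (2 ^ (N * m * D) * C0 ^ (m * D) : ℝ) := by
          apply mul_le_mul_of_nonneg_right hAllcard
          positivity
      _ = _ := by
          rw [mul_pow, ← pow_mul, ← pow_mul, ← mul_assoc, ← pow_add]
          congr 2
          ring
  · intro v K hK i
    by_contra hlt
    push Not at hlt
    have hBHv : BH d (blk (A v) P) := hPBH.blk (A v)
    set J' : Fin m → Fin N → ℕ := fun h i => K (h, i) with hJ'
    have hKJ : toF J' = K := by
      ext x
      rfl
    have hJ'Bad : J' ∈ Bad := by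
      rw [hBad, Finset.mem_filter]
      refine ⟨?_, i, hlt⟩
      rw [hAll, Fintype.mem_piFinset]
      intro h
      rw [mem_tup]
      exact hBHv K hK h
    have h1 := congrFun htM (v, ⟨J', hJ'Bad⟩)
    rw [Matrix.mulVec, dotProduct] at h1
    simp only [Pi.zero_apply] at h1
    apply mem_support_iff.1 hK
    rw [← h1, hP, map_sum, coeff_sum]
    refine Finset.sum_congr rfl fun J _ => ?_
    have h2 : (monomial (toF (J : Fin m → Fin N → ℕ)) (t J) : MvPolynomial (Fin m × Fin N) ℤ) =
        C (t J) * monomial (toF (J : Fin m → Fin N → ℕ)) 1 := by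
      rw [C_mul_monomial, mul_one]
    rw [h2, map_mul, blk_C, coeff_C_mul, hM]
    simp only [hKJ]
    ring

end Main

end Pool.Agent.Lib.Subspace
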