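import Pool.Agent.Lib.Subspace.Cross

/-!
# Compound matrices
-/

namespace Pool.Agent.Lib.Subspace

open Matrix Set.powersetCard

/-- `p`-subsets of `Fin n` -/
abbrev PC (n p : ℕ) : Type := ↥(Set.powersetCard (Fin n) p)

/-- increasing enumeration of a `p`-subset -/
noncomputable abbrev emb {n p : ℕ} (S : PC n p) : Fin p ↪o Fin n := ofFinEmbEquiv.symm S

section

variable {n : ℕ} {R : Type*} [CommRing R]

/-- compound matrix -/
noncomputable def comp (p : ℕ) (A : Matrix (Fin n) (Fin n) R) : Matrix (PC n p) (PC n p) R :=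
  Matrix.of fun S T => (A.submatrix (emb S) (emb T)).det

theorem comp_apply (p : ℕ) (A : Matrix (Fin n) (Fin n) R) (S T : PC n p) :
    comp p A S T = (A.submatrix (emb S) (emb T)).det := rfl

theorem comp_eq (p : ℕ) (A : Matrix (Fin n) (Fin n) R) :
    comp p A = LinearMap.toMatrix ((Pi.basisFun R (Fin n)).exteriorPower p)
      ((Pi.basisFun R (Fin n)).exteriorPower p) (exteriorPower.map p (Matrix.toLin' A)) := by
  ext S T
  rw [LinearMap.toMatrix_apply, exteriorPower.basis_apply, exteriorPower.map_apply_ιMulti_family,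
    exteriorPower.basis_repr_apply, exteriorPower.ιMulti_family,
    exteriorPower.ιMultiDual_apply_ιMulti, comp_apply, ← Matrix.det_transpose]
  congr 1
  ext i j
  simp [Matrix.mulVec_single]

theorem comp_mul (p : ℕ) (A B : Matrix (Fin n) (Fin n) R) :
    comp p (A * B) = comp p A * comp p B := by
  classical
  rw [comp_eq, comp_eq, comp_eq, ← LinearMap.toMatrix_comp, Matrix.toLin'_mul,
    exteriorPower.map_comp]

theorem comp_one (p : ℕ) : comp p (1 : Matrix (Fin n) (Fin n) R) = 1 := by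
  classical
  rw [comp_eq, Matrix.toLin'_one, exteriorPower.map_id, LinearMap.toMatrix_id]

theorem comp_transpose (p : ℕ) (A : Matrix (Fin n) (Fin n) R) :
    comp p Aᵀ = (comp p A)ᵀ := by
  ext S T
  rw [comp_apply, Matrix.transpose_apply, comp_apply, ← Matrix.det_transpose]
  rfl

theorem comp_smul (p : ℕ) (c : R) (A : Matrix (Fin n) (Fin n) R) :
    comp p (c • A) = c ^ p • comp p A := by
  ext S T
  rw [comp_apply, Matrix.smul_apply, comp_apply, smul_eq_mul]
  have : (c • A).submatrix (emb S) (emb T) = c • A.submatrix (emb S) (emb T) := rfl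
  rw [this, Matrix.det_smul, Fintype.card_fin]

theorem comp_det_ne_zero [IsDomain R] (p : ℕ) {A : Matrix (Fin n) (Fin n) R} (hA : A.det ≠ 0) :
    (comp p A).det ≠ 0 := by
  classical
  have h1 : comp p A * comp p A.adjugate = (A.det ^ p) • (1 : Matrix (PC n p) (PC n p) R) := by
    rw [← comp_mul, Matrix.mul_adjugate, comp_smul, comp_one]
  have h2 := congrArg Matrix.det h1
  rw [Matrix.det_mul, Matrix.det_smul, Matrix.det_one, mul_one] at h2
  intro h0
  rw [h0, zero_mul] at h2
  exact pow_ne_zero _ (pow_ne_zero _ hA) h2.symm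

/-- compound of the matrix applied to the `J`-th wedge of the rows of `b` -/
theorem comp_mulVec (p : ℕ) (A b : Matrix (Fin n) (Fin n) R) (J I : PC n p) :
    (comp p A).mulVec (fun I' => comp p b J I') I =
      (Matrix.of fun (s t : Fin p) => A.mulVec (b (emb J t)) (emb I s)).det := by
  classical
  have h1 : (comp p A).mulVec (fun I' => comp p b J I') I = (comp p A * (comp p b)ᵀ) I J := by
    rw [Matrix.mul_apply]
    rfl
  rw [h1, ← comp_transpose, ← comp_mul, comp_apply]
  congr 1

theorem det_dvd {p : ℕ} (M : Matrix (Fin p) (Fin p) R) (u : Fin p → R) (h : ∀ s t, u s ∣ M s t) :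
    ∏ s, u s ∣ M.det := by
  classical
  rw [Matrix.det_apply]
  refine Finset.dvd_sum fun σ _ => ?_
  have h1 : ∏ s, u s ∣ ∏ i, M (σ i) i := by
    rw [← Equiv.prod_comp σ u]
    exact Finset.prod_dvd_prod_of_dvd _ _ fun i _ => h _ _
  rcases Int.units_eq_one_or (Equiv.Perm.sign σ) with hs | hs
  · rw [hs, one_smul]
    exact h1
  · rw [hs, Units.neg_smul, one_smul]
    exact h1.neg_right

theorem IsNm.det_le₂ {f : R → ℝ} (hf : IsNm f) {p : ℕ} (M : Matrix (Fin p) (Fin p) R)
    (u w : Fin p → ℝ) (hb : ∀ r c, f (M r c) ≤ u r * w c) :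
    f M.det ≤ p.factorial * ((∏ r, u r) * ∏ c, w c) := by
  rw [Matrix.det_apply]
  refine (hf.sum_le _ _).trans ?_
  have h2 : ∀ π ∈ (Finset.univ : Finset (Equiv.Perm (Fin p))),
      f (Equiv.Perm.sign π • ∏ i, M (π i) i) ≤ (∏ r, u r) * ∏ c, w c := by
    intro π _
    have hsign : f (Equiv.Perm.sign π • ∏ i, M (π i) i) = f (∏ i, M (π i) i) := by
      rcases Int.units_eq_one_or (Equiv.Perm.sign π) with h | h
      · rw [h, one_smul]
      · rw [h, Units.neg_smul, one_smul, hf.neg]
    rw [hsign, ← Equiv.prod_comp π u, ← Finset.prod_mul_distrib]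
    exact (hf.prod_le _ _).trans (Finset.prod_le_prod (fun _ _ => hf.nonneg _) fun i _ => hb _ _)
  calc ∑ π, f (Equiv.Perm.sign π • ∏ i, M (π i) i)
      ≤ ∑ _π : Equiv.Perm (Fin p), (∏ r, u r) * ∏ c, w c := Finset.sum_le_sum h2
    _ = _ := by
        rw [Finset.sum_const, Finset.card_univ, Fintype.card_perm, Fintype.card_fin, nsmul_eq_mul]

end

section Count

variable {n p : ℕ}

theorem prod_emb {M : Type*} [CommMonoid M] (a : Fin n → M) (J : PC n p) :
    ∏ t, a (emb J t) = ∏ j ∈ J.val, a j := by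
  classical
  have h : J.val = Finset.univ.map (emb J).toEmbedding := by
    have := val_ofFinEmb p (Fin n) (emb J).toEmbedding
    rw [← this]
    have h2 : ofFinEmbEquiv (emb J) = J := Equiv.apply_symm_apply _ _
    rw [ofFinEmbEquiv_apply] at h2
    rw [h2]
  conv_rhs => rw [h]
  rw [Finset.prod_map]
  rfl

theorem sum_emb {M : Type*} [AddCommMonoid M] (a : Fin n → M) (J : PC n p) :
    ∑ t, a (emb J t) = ∑ j ∈ J.val, a j := by
  classical
  have h : J.val = Finset.univ.map (emb J).toEmbedding := by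
    have := val_ofFinEmb p (Fin n) (emb J).toEmbedding
    rw [← this]
    have h2 : ofFinEmbEquiv (emb J) = J := Equiv.apply_symm_apply _ _
    rw [ofFinEmbEquiv_apply] at h2
    rw [h2]
  conv_rhs => rw [h]
  rw [Finset.sum_map]
  rfl

/-- number of `p`-subsets containing a given element -/
noncomputable def qq (p : ℕ) (j : Fin n) : ℕ := by
  classical
  exact (Finset.univ.filter fun J : PC n p => j ∈ J.val).card

theorem qq_eq (j j' : Fin n) : qq p j = qq p j' := by
  classical
  unfold qq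
  set σ : Fin n ≃ Fin n := Equiv.swap j j' with hσ
  refine Finset.card_bij' (fun J _ => Set.powersetCard.map p σ.toEmbedding J)
    (fun J _ => Set.powersetCard.map p σ.toEmbedding J) ?_ ?_ ?_ ?_
  · intro J hJ
    rw [Finset.mem_filter] at hJ ⊢
    refine ⟨Finset.mem_univ _, ?_⟩
    rw [val_map, Finset.mem_map]
    exact ⟨j, hJ.2, by simp [hσ]⟩
  · intro J hJ
    rw [Finset.mem_filter] at hJ ⊢
    refine ⟨Finset.mem_univ _, ?_⟩
    rw [val_map, Finset.mem_map]
    exact ⟨j', hJ.2, by simp [hσ]⟩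
  · intro J _
    apply Subtype.ext
    rw [val_map, val_map, Finset.map_map]
    have : σ.toEmbedding.trans σ.toEmbedding = Function.Embedding.refl _ := by
      ext x
      simp [hσ]
    rw [this, Finset.map_refl]
  · intro J _
    apply Subtype.ext
    rw [val_map, val_map, Finset.map_map]
    have : σ.toEmbedding.trans σ.toEmbedding = Function.Embedding.refl _ := by
      ext x
      simp [hσ]
    rw [this, Finset.map_refl]

theorem prod_prod_emb {M : Type*} [CommMonoid M] (a : Fin n → M) (j0 : Fin n) :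
    ∏ J : PC n p, ∏ t, a (emb J t) = (∏ j, a j) ^ qq p j0 := by
  classical
  calc ∏ J : PC n p, ∏ t, a (emb J t) = ∏ J : PC n p, ∏ j, if j ∈ J.val then a j else 1 := by
        refine Finset.prod_congr rfl fun J _ => ?_
        rw [prod_emb, Finset.prod_ite_mem]
        simp
    _ = ∏ j, ∏ J : PC n p, if j ∈ J.val then a j else 1 := Finset.prod_comm
    _ = ∏ j, a j ^ qq p j0 := by
        refine Finset.prod_congr rfl fun j _ => ?_
        rw [Finset.prod_ite, Finset.prod_const, Finset.prod_const_one, mul_one, qq_eq j0 j]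
        unfold qq
        congr 1
    _ = _ := Finset.prod_pow _ _ _

theorem sum_sum_emb (a : Fin n → ℕ) (j0 : Fin n) :
    ∑ J : PC n p, ∑ t, a (emb J t) = qq p j0 * ∑ j, a j := by
  have h := prod_prod_emb (M := Multiplicative ℕ) (p := p) (fun j => Multiplicative.ofAdd (a j)) j0
  have h2 := congrArg Multiplicative.toAdd h
  simpa [toAdd_prod, toAdd_pow] using h2

theorem prod_lt_of_ne (l : Fin n → ℝ) (hpos : ∀ i, 0 < l i) (k : ℕ) (u w T : ℝ) (hu : 0 < u)
    (hT : 1 ≤ T) (hTu : T * u ≤ w) (h1 : ∀ i : Fin n, (i : ℕ) < k → l i ≤ u)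
    (h2 : ∀ i : Fin n, k ≤ (i : ℕ) → w ≤ l i) (J0 J : PC n p)
    (hJ0 : ∀ i, i ∈ J0.val ↔ k ≤ (i : ℕ)) (hne : J ≠ J0) :
    T * ∏ j ∈ J.val, l j ≤ ∏ j ∈ J0.val, l j := by
  classical
  set s := (J.val \ J0.val).card with hs
  have hcard : (J0.val \ J.val).card = s := by
    have e1 := Finset.card_sdiff_add_card_inter J.val J0.val
    have e2 := Finset.card_sdiff_add_card_inter J0.val J.val
    have e3 := J.prop
    have e4 := J0.prop
    rw [Set.powersetCard.mem_iff] at e3 e4
    rw [Finset.inter_comm] at e2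
    omega
  have hs1 : 1 ≤ s := by
    rw [Nat.one_le_iff_ne_zero]
    intro h0
    rw [hs, Finset.card_eq_zero, Finset.sdiff_eq_empty_iff_subset] at h0
    exact hne (Set.powersetCard.eq_iff_subset.2 h0)
  have a1 : ∏ j ∈ J.val \ J0.val, l j ≤ u ^ s := by
    rw [hs, ← Finset.prod_const]
    refine Finset.prod_le_prod (fun j _ => (hpos j).le) fun j hj => ?_
    apply h1
    by_contra hcon
    push Not at hcon
    exact (Finset.mem_sdiff.1 hj).2 ((hJ0 j).2 hcon)
  have a2 : w ^ s ≤ ∏ j ∈ J0.val \ J.val, l j := by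
    rw [← hcard, ← Finset.prod_const]
    have hw : 0 < w := lt_of_lt_of_le (mul_pos (by linarith) hu) hTu
    refine Finset.prod_le_prod (fun j _ => hw.le) fun j hj => ?_
    apply h2
    exact (hJ0 j).1 (Finset.mem_sdiff.1 hj).1
  have a3 : T * u ^ s ≤ w ^ s := by
    calc T * u ^ s ≤ T ^ s * u ^ s := by
          apply mul_le_mul_of_nonneg_right _ (by positivity)
          exact le_self_pow₀ hT (by omega)
      _ = (T * u) ^ s := (mul_pow _ _ _).symm
      _ ≤ w ^ s := pow_le_pow_left₀ (by positivity) hTu _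
  have b1 : ∏ j ∈ J.val, l j = (∏ j ∈ J.val \ J0.val, l j) * ∏ j ∈ J.val ∩ J0.val, l j := by
    rw [← Finset.prod_union (Finset.disjoint_sdiff_inter _ _), Finset.sdiff_union_inter]
  have b2 : ∏ j ∈ J0.val, l j = (∏ j ∈ J0.val \ J.val, l j) * ∏ j ∈ J.val ∩ J0.val, l j := by
    rw [Finset.inter_comm, ← Finset.prod_union (Finset.disjoint_sdiff_inter _ _),
      Finset.sdiff_union_inter]
  have hint : 0 ≤ ∏ j ∈ J.val ∩ J0.val, l j := Finset.prod_nonneg fun j _ => (hpos j).le
  rw [b1, b2, ← mul_assoc]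
  apply mul_le_mul_of_nonneg_right _ hint
  calc T * ∏ j ∈ J.val \ J0.val, l j ≤ T * u ^ s := mul_le_mul_of_nonneg_left a1 (by linarith)
    _ ≤ w ^ s := a3
    _ ≤ _ := a2

end Count

end Pool.Agent.Lib.Subspace
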