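import Mathlib

/-!
# Gap lemma
-/

namespace Pool.Agent.Lib.Subspace

theorem exists_gap {n : ℕ} (hn : 0 < n) (l : Fin n → ℝ) (hpos : ∀ i, 0 < l i)
    (h0 : l ⟨0, hn⟩ ≤ 1) (T : ℝ) (hT : 1 ≤ T) (hprod : T ^ (n * n) < ∏ i, l i) :
    ∃ (k : ℕ) (hk : k < n), 1 ≤ k ∧ 1 < l ⟨k, hk⟩ ∧
      T * l ⟨k - 1, lt_of_le_of_lt (Nat.sub_le k 1) hk⟩ ≤ l ⟨k, hk⟩ := by
  by_contra hcon
  push Not at hcon
  have key : ∀ k (hk : k < n), l ⟨k, hk⟩ ≤ T ^ k := by
    intro k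
    induction k with
    | zero => intro hk; simpa using h0
    | succ k ih =>
      intro hk
      have ih' := ih (by omega)
      rcases le_or_gt (l ⟨k + 1, hk⟩) 1 with h | h
      · exact h.trans (one_le_pow₀ hT)
      · have h1 := hcon (k + 1) hk (by omega) h
        have h2 : l ⟨k + 1, hk⟩ ≤ T * l ⟨k, by omega⟩ := h1.le
        calc l ⟨k + 1, hk⟩ ≤ T * l ⟨k, by omega⟩ := h2
          _ ≤ T * T ^ k := mul_le_mul_of_nonneg_left ih' (by linarith)
          _ = T ^ (k + 1) := by rw [pow_succ]; ring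
  have h3 : ∏ i, l i ≤ T ^ (n * n) := by
    calc ∏ i, l i ≤ ∏ _i : Fin n, T ^ n := by
          refine Finset.prod_le_prod (fun i _ => (hpos i).le) fun i _ => ?_
          exact (key i i.isLt).trans (pow_le_pow_right₀ hT i.isLt.le)
      _ = T ^ (n * n) := by simp [← pow_mul]
  linarith

theorem exists_equiv_last {ι : Type*} [Fintype ι] [DecidableEq ι] {k : ℕ}
    (hk : Fintype.card ι = k + 1) (j0 : ι) : ∃ e : ι ≃ Fin (k + 1), e j0 = Fin.last k := by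
  set e0 : ι ≃ Fin (k + 1) := Fintype.equivFinOfCardEq hk with he0
  refine ⟨e0.trans (Equiv.swap (e0 j0) (Fin.last k)), ?_⟩
  simp

end Pool.Agent.Lib.Subspace
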