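import Pool.Agent.Lib.Subspace.Roth

/-!
# Small grid points: a nonzero polynomial has a nonvanishing derivative of small order at some
point of a small grid.
-/

namespace Pool.Agent.Lib.Subspace

open MvPolynomial

theorem grid_univariate {A : Type*} [CommRing A] [IsDomain A] [CharZero A] (g : Polynomial A)
    (hg : g ≠ 0) (B0 D : ℕ) (hD : g.natDegree ≤ D) :
    ∃ t : ℕ, t ≤ B0 ∧ ∃ e : ℕ, e * (B0 + 1) ≤ D ∧
      (Polynomial.taylor (t : A) g).coeff e ≠ 0 := by
  classical
  by_contra hcon
  push Not at hcon
  set r := D / (B0 + 1) with hr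
  -- every grid point is a root of multiplicity `> r`
  have hroot : ∀ t : ℕ, t ≤ B0 → r + 1 ≤ g.rootMultiplicity (t : A) := by
    intro t ht
    rw [Polynomial.le_rootMultiplicity_iff hg]
    have h1 : (Polynomial.X : Polynomial A) ^ (r + 1) ∣ Polynomial.taylor (t : A) g := by
      rw [Polynomial.X_pow_dvd_iff]
      intro e he
      apply hcon t ht e
      calc e * (B0 + 1) ≤ r * (B0 + 1) := Nat.mul_le_mul_right _ (Nat.lt_succ_iff.1 he)
        _ ≤ D := Nat.div_mul_le_self _ _
    obtain ⟨S, hS⟩ := h1
    refine ⟨Polynomial.taylor (-(t : A)) S, ?_⟩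
    have h3 : Polynomial.taylor (-(t : A)) (Polynomial.taylor (t : A) g) = g := by
      rw [Polynomial.taylor_taylor, neg_add_cancel, Polynomial.taylor_zero]
    conv_lhs => rw [← h3]
    rw [hS, Polynomial.taylor_mul, Polynomial.taylor_X_pow, Polynomial.C_neg, sub_eq_add_neg]
  have hinj : Function.Injective (fun t : ℕ => (t : A)) := Nat.cast_injective
  set T : Finset A := (Finset.range (B0 + 1)).image (fun t : ℕ => (t : A)) with hT
  have hTcard : T.card = B0 + 1 := by
    rw [hT, Finset.card_image_of_injective _ hinj, Finset.card_range]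
  have h1 : ∑ x ∈ T, g.roots.count x ≤ Multiset.card g.roots := by
    calc ∑ x ∈ T, g.roots.count x ≤ ∑ x ∈ (T ∪ g.roots.toFinset), g.roots.count x :=
          Finset.sum_le_sum_of_subset Finset.subset_union_left
      _ = Multiset.card g.roots := by
          rw [Multiset.sum_count_eq_card]
          intro x hx
          exact Finset.mem_union_right _ (Multiset.mem_toFinset.2 hx)
  have h2 : (B0 + 1) * (r + 1) ≤ ∑ x ∈ T, g.roots.count x := by
    rw [← hTcard, ← smul_eq_mul, ← Finset.sum_const]
    apply Finset.sum_le_sum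
    intro x hx
    rw [hT, Finset.mem_image] at hx
    obtain ⟨t, ht, rfl⟩ := hx
    rw [Polynomial.count_roots]
    exact hroot t (Nat.lt_succ_iff.1 (Finset.mem_range.1 ht))
  have h3 := Polynomial.card_roots' g
  have h4 : D < (B0 + 1) * (r + 1) := Nat.lt_mul_div_succ D (Nat.succ_pos B0)
  omega

theorem finSuccEquiv_shift {K : Type*} [CommRing K] {n : ℕ} (ξ : Fin (n + 1) → K)
    (P : MvPolynomial (Fin (n + 1)) K) :
    finSuccEquiv K n (shift ξ P) =
      Polynomial.taylor (C (ξ 0)) ((finSuccEquiv K n P).map
        (shift (fun k => ξ k.succ) : MvPolynomial (Fin n) K →ₐ[K] _).toRingHom) := by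
  have key : ((finSuccEquiv K n : MvPolynomial (Fin (n + 1)) K →+* _)).comp
      (shift ξ : MvPolynomial (Fin (n + 1)) K →ₐ[K] _).toRingHom =
      ((Polynomial.taylorAlgHom (C (ξ 0) : MvPolynomial (Fin n) K)).toRingHom.comp
        (Polynomial.mapRingHom (shift (fun k => ξ k.succ) :
          MvPolynomial (Fin n) K →ₐ[K] _).toRingHom)).comp
        (finSuccEquiv K n : MvPolynomial (Fin (n + 1)) K →+* _) := by
    apply MvPolynomial.ringHom_ext
    · intro a
      simp only [AlgHom.toRingHom_eq_coe, RingHom.coe_comp, RingHom.coe_coe, Function.comp_apply,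
        shift_C, finSuccEquiv_apply, eval₂Hom_C, Polynomial.coe_mapRingHom, Polynomial.map_C]
      exact (Polynomial.taylor_C _ _).symm
    · intro k
      refine Fin.cases ?_ (fun j => ?_) k
      · simp only [AlgHom.toRingHom_eq_coe, RingHom.coe_comp, RingHom.coe_coe, Function.comp_apply,
          shift_X, map_add, finSuccEquiv_X_zero, Polynomial.coe_mapRingHom, Polynomial.map_X]
        rw [show (Polynomial.taylorAlgHom (C (ξ 0) : MvPolynomial (Fin n) K)) Polynomial.X =
          Polynomial.X + Polynomial.C (C (ξ 0)) from Polynomial.taylor_X _]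
        congr 1
        simp [finSuccEquiv_apply]
      · simp only [AlgHom.toRingHom_eq_coe, RingHom.coe_comp, RingHom.coe_coe, Function.comp_apply,
          shift_X, map_add, finSuccEquiv_X_succ, Polynomial.coe_mapRingHom, Polynomial.map_C]
        rw [show (Polynomial.taylorAlgHom (C (ξ 0) : MvPolynomial (Fin n) K))
          (Polynomial.C (X j)) = _ from Polynomial.taylor_C _ _,
          show (Polynomial.taylorAlgHom (C (ξ 0) : MvPolynomial (Fin n) K))
          (Polynomial.C (C (ξ j.succ))) = _ from Polynomial.taylor_C _ _]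
        congr 1
        simp [finSuccEquiv_apply]
  exact DFunLike.congr_fun key P

theorem grid_multivariate {K : Type*} [Field K] [CharZero K] (B0 : ℕ) :
    ∀ (n : ℕ) (D : Fin n → ℕ) (g : MvPolynomial (Fin n) K), g ≠ 0 → DegLE D g →
    ∃ t : Fin n → ℕ, (∀ k, t k ≤ B0) ∧ ∃ e : Fin n →₀ ℕ, (∀ k, e k * (B0 + 1) ≤ D k) ∧
      coeff e (shift (fun k => (t k : K)) g) ≠ 0 := by
  classical
  intro n
  induction n with
  | zero =>
    intro D g hg _
    refine ⟨fun k => 0, fun k => k.elim0, 0, fun k => k.elim0, ?_⟩
    intro h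
    apply hg
    apply shift_injective (fun k : Fin 0 => ((0 : ℕ) : K))
    rw [map_zero]
    ext m
    rw [Subsingleton.elim m 0, h, coeff_zero]
  | succ n ih =>
    intro D g hg hdeg
    have hg' : finSuccEquiv K n g ≠ 0 := by
      intro h
      exact hg ((finSuccEquiv K n).injective (by rw [h, map_zero]))
    have hnat : (finSuccEquiv K n g).natDegree ≤ D 0 := by
      rw [Polynomial.natDegree_le_iff_coeff_eq_zero]
      intro N hN
      ext m
      rw [finSuccEquiv_coeff_coeff, coeff_zero]
      by_contra hne
      have := hdeg _ (mem_support_iff.2 hne) 0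
      rw [Finsupp.cons_zero] at this
      omega
    obtain ⟨t0, ht0, e0, he0, hne⟩ := grid_univariate (finSuccEquiv K n g) hg' B0 (D 0) hnat
    set c := (Polynomial.taylor ((t0 : ℕ) : MvPolynomial (Fin n) K)
      (finSuccEquiv K n g)).coeff e0 with hc
    have hcdeg : DegLE (fun k => D k.succ) c := by
      have h1 : c = ∑ j ∈ (finSuccEquiv K n g).support,
          C ((j.choose e0 : K) * (t0 : K) ^ (j - e0)) * (finSuccEquiv K n g).coeff j := by
        rw [hc, Polynomial.taylor_coeff, Polynomial.hasseDeriv_apply, Polynomial.sum_def,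
          Polynomial.eval_finsetSum]
        refine Finset.sum_congr rfl fun j _ => ?_
        rw [Polynomial.eval_monomial, C_mul, C_pow]
        simp only [map_natCast]
        ring
      rw [h1]
      refine DegLE.sum fun j _ => ?_
      intro J hJ k
      have h2 : J ∈ ((finSuccEquiv K n g).coeff j).support := by
        rw [mem_support_iff, coeff_C_mul] at hJ
        exact mem_support_iff.2 (right_ne_zero_of_mul hJ)
      rw [mem_support_iff, finSuccEquiv_coeff_coeff] at h2
      have := hdeg _ (mem_support_iff.2 h2) k.succ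
      simpa using this
    obtain ⟨t, ht, e, he, hne2⟩ := ih (fun k => D k.succ) c hne hcdeg
    refine ⟨Fin.cons t0 t, ?_, e.cons e0, ?_, ?_⟩
    · intro k
      refine Fin.cases ?_ (fun j => ?_) k
      · simpa using ht0
      · simpa using ht j
    · intro k
      refine Fin.cases ?_ (fun j => ?_) k
      · simpa using he0
      · simpa using he j
    · rw [← finSuccEquiv_coeff_coeff, finSuccEquiv_shift]
      have h2 : (Polynomial.taylor (C ((fun k => (((Fin.cons t0 t : Fin (n + 1) → ℕ) k : ℕ) : K)) 0))
          ((finSuccEquiv K n g).map (shift (fun k : Fin n =>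
            (fun k => (((Fin.cons t0 t : Fin (n + 1) → ℕ) k : ℕ) : K)) k.succ) :
            MvPolynomial (Fin n) K →ₐ[K] _).toRingHom)).coeff e0 =
          shift (fun k => (t k : K)) c := by
        have h3 : (fun k : Fin n => (fun k => (((Fin.cons t0 t : Fin (n + 1) → ℕ) k : ℕ) : K))
            k.succ) = fun k => (t k : K) := by
          funext k
          simp
        have h4 : C ((fun k => (((Fin.cons t0 t : Fin (n + 1) → ℕ) k : ℕ) : K)) 0) =
            (shift (fun k => (t k : K)) : MvPolynomial (Fin n) K →ₐ[K] _).toRingHom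
              ((t0 : ℕ) : MvPolynomial (Fin n) K) := by
          simp
        rw [h3, h4, ← Polynomial.map_taylor, Polynomial.coeff_map]
        rfl
      rw [h2]
      exact hne2

/-- version for an arbitrary finite index type -/
theorem grid_fintype {K : Type*} [Field K] [CharZero K] {σ : Type*} [Fintype σ] (B0 : ℕ)
    (D : σ → ℕ) (g : MvPolynomial σ K) (hg : g ≠ 0) (hdeg : DegLE D g) :
    ∃ t : σ → ℕ, (∀ k, t k ≤ B0) ∧ ∃ e : σ →₀ ℕ, (∀ k, e k * (B0 + 1) ≤ D k) ∧
      coeff e (shift (fun k => (t k : K)) g) ≠ 0 := by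
  classical
  set f := Fintype.equivFin σ with hf
  have h1 : rename f g ≠ 0 := by
    intro h
    apply hg
    apply rename_injective f f.injective
    rw [h, map_zero]
  have h2 : DegLE (fun k => D (f.symm k)) (rename f g) := by
    intro J hJ k
    rw [support_rename_of_injective f.injective, Finset.mem_image] at hJ
    obtain ⟨J', hJ', rfl⟩ := hJ
    have h3 : Finsupp.mapDomain f J' k = J' (f.symm k) := by
      conv_lhs => rw [← f.apply_symm_apply k]
      exact Finsupp.mapDomain_apply f.injective _ _
    rw [h3]
    exact hdeg J' hJ' _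
  obtain ⟨t, ht, e, he, hne⟩ := grid_multivariate (K := K) B0 _ _ _ h1 h2
  refine ⟨fun k => t (f k), fun k => ht _, Finsupp.mapDomain f.symm e, ?_, ?_⟩
  · intro k
    have h3 : Finsupp.mapDomain f.symm e k = e (f k) := by
      conv_lhs => rw [← f.symm_apply_apply k]
      exact Finsupp.mapDomain_apply f.symm.injective _ _
    rw [h3]
    have := he (f k)
    rwa [f.symm_apply_apply] at this
  · have h4 : shift (fun k => (t k : K)) (rename f g) = rename f (shift (fun k => (t (f k) : K)) g) := by
      have : (shift (fun k => (t k : K)) : MvPolynomial (Fin (Fintype.card σ)) K →ₐ[K] _).comp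
          (rename f) = (rename f).comp (shift (fun k => (t (f k) : K))) := by
        apply MvPolynomial.algHom_ext
        intro k
        simp
      exact DFunLike.congr_fun this g
    rw [h4] at hne
    have h5 : e = Finsupp.mapDomain f (Finsupp.mapDomain f.symm e) := by
      rw [← Finsupp.mapDomain_comp]
      simp
    rw [h5, coeff_rename_mapDomain f f.injective] at hne
    exact hne

end Pool.Agent.Lib.Subspace
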