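import Mathlib

/-!
# Hasse derivatives of polynomials in several variables

`taylorT f` is `f (x + t)`, `hd i f` its coefficient at `t ^ i`, `shift ξ f` is `f (ξ + x)`.
-/

namespace Pool.Agent.Lib.Subspace

open MvPolynomial

section HD

variable {σ : Type*} [Fintype σ] {R : Type*} [CommRing R]

/-- multi-index binomial coefficient -/
def mch (J i : σ →₀ ℕ) : ℕ := ∏ k, (J k).choose (i k)

/-- `f (x + t)` as a polynomial in `t` -/
noncomputable def taylorT : MvPolynomial σ R →ₐ[R] MvPolynomial σ (MvPolynomial σ R) :=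
  aeval (fun k => X k + C (X k))

/-- Hasse derivative -/
noncomputable def hd (i : σ →₀ ℕ) (f : MvPolynomial σ R) : MvPolynomial σ R :=
  coeff i (taylorT f)

omit [Fintype σ] in
theorem hd_add (i : σ →₀ ℕ) (f g : MvPolynomial σ R) : hd i (f + g) = hd i f + hd i g := by
  simp [hd]

omit [Fintype σ] in
theorem hd_zero (i : σ →₀ ℕ) : hd i (0 : MvPolynomial σ R) = 0 := by
  simp [hd]

omit [Fintype σ] in
theorem hd_sum {ι : Type*} (s : Finset ι) (i : σ →₀ ℕ) (f : ι → MvPolynomial σ R) :
    hd i (∑ j ∈ s, f j) = ∑ j ∈ s, hd i (f j) := by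
  simp [hd, coeff_sum]

omit [Fintype σ] in
theorem hd_smul (i : σ →₀ ℕ) (c : R) (f : MvPolynomial σ R) : hd i (c • f) = c • hd i f := by
  simp only [hd, map_smul]
  rfl

theorem hd_monomial (i J : σ →₀ ℕ) (c : R) :
    hd i (monomial J c) = monomial (J - i) ((mch J i : R) * c) := by
  classical
  unfold hd taylorT
  rw [aeval_monomial, Finsupp.prod_fintype _ _ (by simp)]
  simp_rw [add_pow]
  rw [Finset.prod_univ_sum]
  have hterm : ∀ p : σ → ℕ, ∏ k, ((X k : MvPolynomial σ (MvPolynomial σ R)) ^ (p k) *
      C (X k) ^ (J k - p k) * ((J k).choose (p k) : MvPolynomial σ (MvPolynomial σ R))) =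
      monomial (Finsupp.equivFunOnFinite.symm p)
        (∏ k, (X k : MvPolynomial σ R) ^ (J k - p k) * ((J k).choose (p k) : MvPolynomial σ R)) := by
    intro p
    rw [monomial_eq, Finsupp.prod_fintype _ _ (by simp)]
    simp only [Finsupp.equivFunOnFinite_symm_apply_apply, map_prod, map_mul, map_pow, map_natCast]
    rw [← Finset.prod_mul_distrib]
    refine Finset.prod_congr rfl fun k _ => ?_
    ring
  simp_rw [hterm]
  rw [MvPolynomial.algebraMap_apply, algebraMap_eq, coeff_C_mul, coeff_sum]
  simp_rw [coeff_monomial]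
  by_cases hi : ∀ k, i k ≤ J k
  · rw [Finset.sum_eq_single (fun k => i k)]
    · rw [if_pos (by ext k; simp)]
      rw [monomial_eq, Finsupp.prod_fintype _ _ (by simp), mch]
      simp only [Finsupp.coe_tsub, Pi.sub_apply, map_mul, Finset.prod_mul_distrib,
        Nat.cast_prod, map_prod, map_natCast]
      ring
    · intro p _ hp
      rw [if_neg]
      intro h
      apply hp
      funext k
      have := DFunLike.congr_fun h k
      simpa using this
    · intro h
      exact absurd (Fintype.mem_piFinset.2 fun k => Finset.mem_range.2 (Nat.lt_succ_of_le (hi k))) h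
  · push Not at hi
    obtain ⟨k, hk⟩ := hi
    rw [Finset.sum_eq_zero]
    · have : mch J i = 0 := Finset.prod_eq_zero (Finset.mem_univ k) (Nat.choose_eq_zero_of_lt hk)
      simp [this]
    · intro p hp
      rw [if_neg]
      intro h
      have h1 := DFunLike.congr_fun h k
      have h2 := Fintype.mem_piFinset.1 hp k
      rw [Finset.mem_range] at h2
      simp at h1
      omega

theorem hd_eq_sum (i : σ →₀ ℕ) (f : MvPolynomial σ R) :
    hd i f = ∑ J ∈ f.support, monomial (J - i) ((mch J i : R) * coeff J f) := by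
  conv_lhs => rw [f.as_sum]
  rw [hd_sum]
  exact Finset.sum_congr rfl fun J _ => hd_monomial i J _

theorem mch_eq_zero {J i : σ →₀ ℕ} (h : ¬ i ≤ J) : mch J i = 0 := by
  have : ∃ k, J k < i k := by
    by_contra hc
    push Not at hc
    exact h hc
  obtain ⟨k, hk⟩ := this
  exact Finset.prod_eq_zero (Finset.mem_univ k) (Nat.choose_eq_zero_of_lt hk)

theorem add_mem_support_of_mem_hd {i a : σ →₀ ℕ} {f : MvPolynomial σ R}
    (h : a ∈ (hd i f).support) : a + i ∈ f.support := by
  classical
  rw [hd_eq_sum] at h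
  rw [mem_support_iff, coeff_sum] at h
  obtain ⟨J, hJ, hne⟩ := Finset.exists_ne_zero_of_sum_ne_zero h
  rw [coeff_monomial] at hne
  split_ifs at hne with heq
  · have hle : i ≤ J := by
      by_contra hc
      rw [mch_eq_zero hc] at hne
      simp at hne
    rw [← heq, tsub_add_cancel_of_le hle]
    exact hJ
  · exact absurd rfl hne

/-- translation: `f (ξ + x)` -/
noncomputable def shift (ξ : σ → R) : MvPolynomial σ R →ₐ[R] MvPolynomial σ R :=
  aeval (fun k => X k + C (ξ k))

omit [Fintype σ] in
@[simp] theorem shift_X (ξ : σ → R) (k : σ) : shift ξ (X k : MvPolynomial σ R) = X k + C (ξ k) := by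
  simp [shift]

omit [Fintype σ] in
@[simp] theorem shift_C (ξ : σ → R) (a : R) : shift ξ (C a : MvPolynomial σ R) = C a := by
  simp [shift]

omit [Fintype σ] in
theorem taylorT_X (k : σ) : (taylorT (X k : MvPolynomial σ R)) = X k + C (X k) := by
  simp [taylorT]

omit [Fintype σ] in
theorem taylorT_C (a : R) : (taylorT (C a : MvPolynomial σ R)) = C (C a) := by
  unfold taylorT
  rw [aeval_C, MvPolynomial.algebraMap_apply, algebraMap_eq]

omit [Fintype σ] in
theorem taylorT_shift (ξ : σ → R) (f : MvPolynomial σ R) :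
    (taylorT (shift ξ f) : MvPolynomial σ (MvPolynomial σ R)) =
      map (shift ξ : MvPolynomial σ R →ₐ[R] MvPolynomial σ R).toRingHom (taylorT f) := by
  have key : (taylorT : MvPolynomial σ R →ₐ[R] MvPolynomial σ (MvPolynomial σ R)).toRingHom.comp
      (shift ξ : MvPolynomial σ R →ₐ[R] MvPolynomial σ R).toRingHom =
      (map (shift ξ : MvPolynomial σ R →ₐ[R] MvPolynomial σ R).toRingHom).comp
        (taylorT : MvPolynomial σ R →ₐ[R] MvPolynomial σ (MvPolynomial σ R)).toRingHom := by
    apply MvPolynomial.ringHom_ext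
    · intro a
      simp only [AlgHom.toRingHom_eq_coe, RingHom.coe_comp, RingHom.coe_coe, Function.comp_apply,
        shift_C, taylorT_C, map_C]
    · intro k
      simp only [AlgHom.toRingHom_eq_coe, RingHom.coe_comp, RingHom.coe_coe, Function.comp_apply,
        shift_X, taylorT_X, map_add, taylorT_C, map_X, map_C]
      rw [add_assoc]
  exact DFunLike.congr_fun key f

omit [Fintype σ] in
theorem hd_shift (ξ : σ → R) (i : σ →₀ ℕ) (f : MvPolynomial σ R) :
    hd i (shift ξ f) = shift ξ (hd i f) := by
  unfold hd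
  rw [taylorT_shift, coeff_map]
  rfl

omit [Fintype σ] in
/-- the value of the Hasse derivative at `ξ` is the Taylor coefficient -/
theorem coeff_shift (ξ : σ → R) (i : σ →₀ ℕ) (f : MvPolynomial σ R) :
    coeff i (shift ξ f) = eval ξ (hd i f) := by
  have key : (shift ξ : MvPolynomial σ R →ₐ[R] MvPolynomial σ R).toRingHom =
      (map (eval ξ : MvPolynomial σ R →+* R)).comp
        (taylorT : MvPolynomial σ R →ₐ[R] MvPolynomial σ (MvPolynomial σ R)).toRingHom := by
    apply MvPolynomial.ringHom_ext
    · intro a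
      simp only [AlgHom.toRingHom_eq_coe, RingHom.coe_comp, RingHom.coe_coe, Function.comp_apply,
        shift_C, taylorT_C, map_C, eval_C]
    · intro k
      simp only [AlgHom.toRingHom_eq_coe, RingHom.coe_comp, RingHom.coe_coe, Function.comp_apply,
        shift_X, taylorT_X, map_add, map_X, map_C, eval_X]
  have h2 : shift ξ f = map (eval ξ : MvPolynomial σ R →+* R) (taylorT f) :=
    DFunLike.congr_fun key f
  unfold hd
  rw [h2, coeff_map]

omit [Fintype σ] in
theorem shift_shift (ξ η : σ → R) (f : MvPolynomial σ R) :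
    shift ξ (shift η f) = shift (ξ + η) f := by
  have : ((shift ξ).comp (shift η) : MvPolynomial σ R →ₐ[R] MvPolynomial σ R) =
      shift (ξ + η) := by
    apply MvPolynomial.algHom_ext
    intro k
    rw [AlgHom.comp_apply, shift_X, shift_X, map_add, shift_X, shift_C, Pi.add_apply, C_add,
      add_assoc]
  exact DFunLike.congr_fun this f

omit [Fintype σ] in
theorem shift_zero' (f : MvPolynomial σ R) : shift (0 : σ → R) f = f := by
  have : (shift (0 : σ → R) : MvPolynomial σ R →ₐ[R] MvPolynomial σ R) = AlgHom.id R _ := by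
    apply MvPolynomial.algHom_ext
    intro k
    simp
  rw [this]; rfl

omit [Fintype σ] in
theorem shift_injective (ξ : σ → R) :
    Function.Injective (shift ξ : MvPolynomial σ R → MvPolynomial σ R) := by
  intro f g h
  have h2 := congrArg (shift (-ξ)) h
  simpa [shift_shift, shift_zero'] using h2

end HD

end Pool.Agent.Lib.Subspace
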