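import Pool.Agent.Lib.Subspace.Grid

/-!
# Roth's lemma for hyperplanes
-/

namespace Pool.Agent.Lib.Subspace

open MvPolynomial

section evI

variable {σ A : Type*} [CommRing A]

/-- evaluation of integer polynomials in a ring -/
noncomputable def evI (g : σ → A) : MvPolynomial σ ℤ →+* A :=
  eval₂Hom (Int.castRingHom A) g

theorem evI_X (g : σ → A) (x : σ) : evI g (X x) = g x := by
  simp [evI]

theorem evI_C (g : σ → A) (c : ℤ) : evI g (C c) = (c : A) := by
  simp [evI]

theorem evI_ext {f g : MvPolynomial σ ℤ →+* A} (h : ∀ x, f (X x) = g (X x)) : f = g :=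
  MvPolynomial.ringHom_ext' (RingHom.ext_int _ _) h

theorem evI_monomial [Fintype σ] (g : σ → A) (J : σ →₀ ℕ) (c : ℤ) :
    evI g (monomial J c) = (c : A) * ∏ x, g x ^ J x := by
  unfold evI
  rw [coe_eval₂Hom, eval₂_monomial, Finsupp.prod_fintype _ _ (by simp)]
  rfl

end evI

section height

/-- ratio of two coordinates with large height -/
theorem exists_ratio {k : ℕ} (hk : 1 ≤ k) (a : Fin (k + 1) → ℤ)
    (hprim : ∃ x : Fin (k + 1) → ℤ, ∑ i, x i * a i = 1) :
    ∃ (i i' : Fin (k + 1)) (p q : ℤ), i ≠ i' ∧ a i ≠ 0 ∧ IsCoprime p q ∧ q ≠ 0 ∧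
      a i' * q = -(p * a i) ∧ ∀ j, |(a j : ℝ)| ≤ (max |(p : ℝ)| |(q : ℝ)|) ^ (k + 1) := by
  classical
  obtain ⟨x, hx⟩ := hprim
  obtain ⟨i, hi⟩ : ∃ i, a i ≠ 0 := by
    by_contra hcon
    push Not at hcon
    simp [hcon] at hx
  -- reduced fractions
  have hfrac : ∀ j, ∃ p q : ℤ, IsCoprime p q ∧ q ≠ 0 ∧ a j * q = -(p * a i) := by
    intro j
    have hg : Int.gcd (-(a j)) (a i) ≠ 0 := fun h => hi (Int.gcd_eq_zero_iff.1 h).2
    obtain ⟨p, hp⟩ := Int.gcd_dvd_left (-(a j)) (a i)
    obtain ⟨q, hq⟩ := Int.gcd_dvd_right (-(a j)) (a i)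
    set g : ℤ := (Int.gcd (-(a j)) (a i) : ℤ) with hgdef
    have hg0 : g ≠ 0 := by rw [hgdef]; exact_mod_cast hg
    refine ⟨p, q, ?_, ?_, ?_⟩
    · rw [Int.isCoprime_iff_gcd_eq_one]
      have h1 : Int.gcd (-(a j)) (a i) = Int.natAbs g * Int.gcd p q := by
        conv_lhs => rw [hp, hq]
        rw [Int.gcd_mul_left]
      have h2 : Int.natAbs g = Int.gcd (-(a j)) (a i) := by rw [hgdef]; rfl
      rw [h2] at h1
      have h3 : Int.gcd (-(a j)) (a i) * 1 = Int.gcd (-(a j)) (a i) * Int.gcd p q := by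
        rw [mul_one]; exact h1
      exact (Nat.eq_of_mul_eq_mul_left (Nat.pos_of_ne_zero hg) h3).symm
    · rintro rfl
      exact hi (by rw [hq, mul_zero])
    · have h1 : a j = -(g * p) := by rw [← hp]; ring
      rw [h1, hq]
      ring
  choose p q hcop hq hpq using hfrac
  set S : Finset (Fin (k + 1)) := Finset.univ.erase i with hS
  have hSne : S.Nonempty := by
    rw [← Finset.card_pos, hS, Finset.card_erase_of_mem (Finset.mem_univ _), Finset.card_univ,
      Fintype.card_fin]
    omega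
  obtain ⟨i', hi', hmax⟩ := Finset.exists_max_image S (fun j => max |(p j : ℝ)| |(q j : ℝ)|) hSne
  set H : ℝ := max |(p i' : ℝ)| |(q i' : ℝ)| with hH
  have hq1 : ∀ j, (1 : ℝ) ≤ |(q j : ℝ)| := fun j => by exact_mod_cast Int.one_le_abs (hq j)
  have hH1 : 1 ≤ H := (hq1 i').trans (le_max_right _ _)
  -- `a i` divides the product of the denominators
  set t : ℤ := ∏ j ∈ S, q j with ht
  have hdvd : ∀ j, a i ∣ t * a j := by
    intro j
    by_cases hj : j = i
    · rw [hj]; exact dvd_mul_left _ _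
    · have hjS : j ∈ S := by rw [hS]; exact Finset.mem_erase.2 ⟨hj, Finset.mem_univ _⟩
      rw [ht, ← Finset.mul_prod_erase S q hjS]
      refine ⟨-(p j) * ∏ x ∈ S.erase j, q x, ?_⟩
      have := hpq j
      calc q j * (∏ x ∈ S.erase j, q x) * a j = (a j * q j) * ∏ x ∈ S.erase j, q x := by ring
        _ = a i * (-(p j) * ∏ x ∈ S.erase j, q x) := by rw [this]; ring
  have hdvd2 : a i ∣ t := by
    have h1 : t = ∑ j, x j * (t * a j) := by
      have : ∑ j, x j * (t * a j) = t * ∑ j, x j * a j := by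
        rw [Finset.mul_sum]
        exact Finset.sum_congr rfl fun j _ => by ring
      rw [this, hx, mul_one]
    rw [h1]
    exact Finset.dvd_sum fun j _ => dvd_mul_of_dvd_right (hdvd j) _
  have ht0 : t ≠ 0 := by
    rw [ht]; exact Finset.prod_ne_zero_iff.2 fun j _ => hq j
  have hai : |(a i : ℝ)| ≤ H ^ k := by
    have h1 : |(a i : ℝ)| ≤ |(t : ℝ)| := by
      obtain ⟨c, hc⟩ := hdvd2
      have hc0 : c ≠ 0 := by
        rintro rfl
        exact ht0 (by rw [hc, mul_zero])
      have h2 : (1 : ℝ) ≤ |(c : ℝ)| := by exact_mod_cast Int.one_le_abs hc0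
      rw [hc]
      push_cast
      rw [abs_mul]
      nlinarith [abs_nonneg (a i : ℝ)]
    have h2 : |(t : ℝ)| ≤ H ^ k := by
      rw [ht]
      push_cast
      rw [Finset.abs_prod]
      calc ∏ j ∈ S, |(q j : ℝ)| ≤ ∏ _j ∈ S, H :=
            Finset.prod_le_prod (fun j _ => abs_nonneg _) fun j hj =>
              (le_max_right _ _).trans (hmax j hj)
        _ = H ^ k := by
            rw [Finset.prod_const, hS, Finset.card_erase_of_mem (Finset.mem_univ _),
              Finset.card_univ, Fintype.card_fin, Nat.add_sub_cancel]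
    exact h1.trans h2
  refine ⟨i, i', p i', q i', ?_, hi, hcop i', hq i', hpq i', ?_⟩
  · rw [hS, Finset.mem_erase] at hi'
    exact hi'.1.symm
  · intro j
    by_cases hj : j = i
    · rw [hj]
      calc |(a i : ℝ)| ≤ H ^ k := hai
        _ ≤ H ^ (k + 1) := pow_le_pow_right₀ hH1 (Nat.le_succ k)
    · have hjS : j ∈ S := by rw [hS]; exact Finset.mem_erase.2 ⟨hj, Finset.mem_univ _⟩
      have h1 : |(a j : ℝ)| * |(q j : ℝ)| = |(p j : ℝ)| * |(a i : ℝ)| := by
        rw [← abs_mul, ← abs_mul]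
        have : ((a j * q j : ℤ) : ℝ) = ((-(p j * a i) : ℤ) : ℝ) := by rw [hpq j]
        push_cast at this
        rw [this, abs_neg]
      have h2 : |(p j : ℝ)| ≤ H := (le_max_left _ _).trans (hmax j hjS)
      calc |(a j : ℝ)| ≤ |(a j : ℝ)| * |(q j : ℝ)| := by nlinarith [abs_nonneg (a j : ℝ), hq1 j]
        _ = |(p j : ℝ)| * |(a i : ℝ)| := h1
        _ ≤ H * H ^ k := mul_le_mul h2 hai (abs_nonneg _) (by linarith)
        _ = H ^ (k + 1) := by ring

end height

section restrict

variable {m N : ℕ} (e1 e2 : Fin m → Fin N)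

/-- the part of an exponent outside the two distinguished coordinates of each block -/
noncomputable def resid (J : Fin m × Fin N →₀ ℕ) : Fin m × Fin N →₀ ℕ :=
  J.filter (fun x => x.2 ≠ e1 x.1 ∧ x.2 ≠ e2 x.1)

/-- the exponents of the first distinguished coordinates -/
noncomputable def mainE (J : Fin m × Fin N →₀ ℕ) : Fin m →₀ ℕ :=
  Finsupp.equivFunOnFinite.symm (fun h => J (h, e1 h))

/-- set the second distinguished coordinate of each block equal to `1` and regard the first as the
variable of the inner polynomial ring -/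
noncomputable def restr : MvPolynomial (Fin m × Fin N) ℤ →+*
    MvPolynomial (Fin m × Fin N) (MvPolynomial (Fin m) ℤ) :=
  evI (fun x => if x.2 = e1 x.1 then C (X x.1) else if x.2 = e2 x.1 then 1 else X x)

theorem restr_monomial (J : Fin m × Fin N →₀ ℕ) (c : ℤ) :
    restr e1 e2 (monomial J c) = monomial (resid e1 e2 J) (monomial (mainE e1 J) c) := by
  classical
  unfold restr
  rw [evI_monomial]
  have h1 : ∏ x : Fin m × Fin N, (if x.2 = e1 x.1 then
      (C (X x.1) : MvPolynomial (Fin m × Fin N) (MvPolynomial (Fin m) ℤ))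
      else if x.2 = e2 x.1 then 1 else X x) ^ J x =
      (∏ x : Fin m × Fin N, (if x.2 = e1 x.1 then
        (C (X x.1) : MvPolynomial (Fin m × Fin N) (MvPolynomial (Fin m) ℤ)) ^ J x else 1)) *
      ∏ x : Fin m × Fin N, (X x : MvPolynomial (Fin m × Fin N) (MvPolynomial (Fin m) ℤ)) ^
        (resid e1 e2 J x) := by
    rw [← Finset.prod_mul_distrib]
    refine Finset.prod_congr rfl fun x _ => ?_
    unfold resid
    rw [Finsupp.filter_apply]
    by_cases hx1 : x.2 = e1 x.1
    · simp [hx1]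
    · by_cases hx2 : x.2 = e2 x.1
      · simp [hx2]
      · simp [hx1, hx2]
  have h2 : ∏ x : Fin m × Fin N, (if x.2 = e1 x.1 then
        (C (X x.1) : MvPolynomial (Fin m × Fin N) (MvPolynomial (Fin m) ℤ)) ^ J x else 1) =
      C (∏ h, X h ^ (mainE e1 J h)) := by
    rw [Fintype.prod_prod_type, map_prod]
    refine Finset.prod_congr rfl fun h _ => ?_
    simp only
    rw [Finset.prod_ite_eq' Finset.univ (e1 h)]
    simp [mainE]
  rw [h1, h2, monomial_eq (s := resid e1 e2 J), Finsupp.prod_fintype _ _ (by simp),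
    monomial_eq (s := mainE e1 J), Finsupp.prod_fintype _ _ (by simp), C_mul, ← mul_assoc]
  congr 2

variable {e1 e2}

theorem resid_main_inj {J J' : Fin m × Fin N →₀ ℕ} (h1 : resid e1 e2 J = resid e1 e2 J')
    (h2 : mainE e1 J = mainE e1 J') (h3 : ∀ h, ∑ i, J (h, i) = ∑ i, J' (h, i)) : J = J' := by
  classical
  have h4 : ∀ h i, i ≠ e2 h → J (h, i) = J' (h, i) := by
    intro h i hi
    by_cases hi1 : i = e1 h
    · have := DFunLike.congr_fun h2 h
      simp only [mainE, Finsupp.equivFunOnFinite_symm_apply_apply] at this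
      rw [hi1]
      exact this
    · have := DFunLike.congr_fun h1 (h, i)
      unfold resid at this
      rw [Finsupp.filter_apply, Finsupp.filter_apply] at this
      simpa [hi1, hi] using this
  ext x
  obtain ⟨h, i⟩ := x
  by_cases hi : i = e2 h
  · have h5 := h3 h
    rw [← Finset.add_sum_erase _ _ (Finset.mem_univ i),
      ← Finset.add_sum_erase (a := i) _ _ (Finset.mem_univ i)] at h5
    have h6 : ∑ x ∈ Finset.univ.erase i, J (h, x) = ∑ x ∈ Finset.univ.erase i, J' (h, x) := by
      refine Finset.sum_congr rfl fun x hx => h4 h x ?_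
      rw [← hi]
      exact (Finset.mem_erase.1 hx).1
    omega
  · exact h4 h i hi

theorem restr_eq_sum (P : MvPolynomial (Fin m × Fin N) ℤ) :
    restr e1 e2 P = ∑ J ∈ P.support, monomial (resid e1 e2 J) (monomial (mainE e1 J) (coeff J P)) := by
  conv_lhs => rw [P.as_sum, map_sum]
  exact Finset.sum_congr rfl fun J _ => restr_monomial e1 e2 J _

theorem coeff_restr (P : MvPolynomial (Fin m × Fin N) ℤ)
    (s : Fin m × Fin N →₀ ℕ) :
    coeff s (restr e1 e2 P) = ∑ J ∈ P.support.filter (fun J => resid e1 e2 J = s),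
      monomial (mainE e1 J) (coeff J P) := by
  classical
  rw [restr_eq_sum, coeff_sum, Finset.sum_filter]
  refine Finset.sum_congr rfl fun J _ => ?_
  rw [coeff_monomial]

theorem restr_ne_zero {P : MvPolynomial (Fin m × Fin N) ℤ} (hP : P ≠ 0)
    {d : Fin m → ℕ} (hhom : ∀ J ∈ P.support, ∀ h, ∑ i, J (h, i) = d h) :
    restr e1 e2 P ≠ 0 := by
  classical
  obtain ⟨J0, hJ0⟩ := Finset.nonempty_of_ne_empty (fun h => hP (support_eq_empty.1 h))
  intro h0
  have h1 : coeff (mainE e1 J0) (coeff (resid e1 e2 J0) (restr e1 e2 P)) = coeff J0 P := by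
    rw [coeff_restr, coeff_sum]
    rw [Finset.sum_eq_single J0]
    · rw [coeff_monomial, if_pos rfl]
    · intro J hJ hne
      rw [Finset.mem_filter] at hJ
      rw [coeff_monomial, if_neg]
      intro hmain
      exact hne (resid_main_inj hJ.2 hmain fun h => by rw [hhom J hJ.1 h, hhom J0 hJ0 h])
    · intro hn
      exact (hn (Finset.mem_filter.2 ⟨hJ0, rfl⟩)).elim
  rw [h0, coeff_zero, coeff_zero] at h1
  exact (mem_support_iff.1 hJ0) h1.symm

theorem wnorm_coeff_restr (P : MvPolynomial (Fin m × Fin N) ℤ)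
    (s : Fin m × Fin N →₀ ℕ) : wnorm absZ 1 (coeff s (restr e1 e2 P)) ≤ wnorm absZ 1 P := by
  classical
  rw [coeff_restr]
  refine (wnorm_sum_le isNm_absZ (fun _ => zero_le_one) _ _).trans ?_
  have h0 : wnorm absZ 1 P = ∑ J ∈ P.support, absZ (coeff J P) := by
    unfold wnorm
    simp
  rw [h0]
  calc ∑ J ∈ P.support.filter (fun J => resid e1 e2 J = s),
        wnorm absZ 1 (monomial (mainE e1 J) (coeff J P))
      = ∑ J ∈ P.support.filter (fun J => resid e1 e2 J = s), absZ (coeff J P) := by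
        refine Finset.sum_congr rfl fun J _ => ?_
        rw [wnorm_monomial isNm_absZ]
        simp
    _ ≤ _ := Finset.sum_le_sum_of_subset_of_nonneg (Finset.filter_subset _ _)
        fun J _ _ => abs_nonneg _

theorem degLE_coeff_restr {P : MvPolynomial (Fin m × Fin N) ℤ}
    {d : Fin m → ℕ} (hhom : ∀ J ∈ P.support, ∀ h, ∑ i, J (h, i) = d h)
    (s : Fin m × Fin N →₀ ℕ) : DegLE d (coeff s (restr e1 e2 P)) := by
  classical
  rw [coeff_restr]
  refine DegLE.sum fun J hJ => ?_
  intro K hK h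
  have h1 := support_monomial_subset hK
  rw [Finset.mem_singleton] at h1
  rw [h1]
  simp only [mainE, Finsupp.equivFunOnFinite_symm_apply_apply]
  rw [← hhom J (Finset.mem_filter.1 hJ).1 h]
  exact Finset.single_le_sum (f := fun i => J (h, i)) (fun _ _ => Nat.zero_le _)
    (Finset.mem_univ (e1 h))

end restrict

end Pool.Agent.Lib.Subspace
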