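import Pool.Agent.Lib.Subspace.Hyper

/-!
# Roth's lemma for hyperplanes, second part
-/

namespace Pool.Agent.Lib.Subspace

open MvPolynomial

section

variable {m N : ℕ}

/-- the linear form giving the first distinguished coordinate on the hyperplane -/
noncomputable def ell (e1 e2 : Fin m → Fin N) (ξ : Fin m → ℚ) (ρ : Fin m × Fin N → ℚ)
    (h : Fin m) : MvPolynomial (Fin m × Fin N) ℚ :=
  C (ξ h) + ∑ i, if i ≠ e1 h ∧ i ≠ e2 h then C (-ρ (h, i)) * X (h, i) else 0

theorem constantCoeff_ell (e1 e2 : Fin m → Fin N) (ξ : Fin m → ℚ) (ρ : Fin m × Fin N → ℚ)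
    (h : Fin m) : constantCoeff (ell e1 e2 ξ ρ h) = ξ h := by
  unfold ell
  rw [map_add, constantCoeff_C, map_sum, Finset.sum_eq_zero, add_zero]
  intro i _
  split_ifs <;> simp

/-- substitution into the inner variables -/
noncomputable def theta1 (e1 e2 : Fin m → Fin N) (ξ : Fin m → ℚ) (ρ : Fin m × Fin N → ℚ) :
    MvPolynomial (Fin m) ℤ →+* MvPolynomial (Fin m) (MvPolynomial (Fin m × Fin N) ℚ) :=
  evI (fun h => X h + C (ell e1 e2 ξ ρ h))

/-- the full substitution -/
noncomputable def theta (e1 e2 : Fin m → Fin N) (ξ : Fin m → ℚ) (ρ : Fin m × Fin N → ℚ) :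
    MvPolynomial (Fin m × Fin N) ℤ →+* MvPolynomial (Fin m) (MvPolynomial (Fin m × Fin N) ℚ) :=
  evI (fun x => if x.2 = e1 x.1 then X x.1 + C (ell e1 e2 ξ ρ x.1) else
    if x.2 = e2 x.1 then 1 else C (X x))

theorem theta_eq (e1 e2 : Fin m → Fin N) (ξ : Fin m → ℚ) (ρ : Fin m × Fin N → ℚ) :
    theta e1 e2 ξ ρ =
      (eval₂Hom (theta1 e1 e2 ξ ρ) (fun x => C (X x))).comp (restr e1 e2) := by
  apply evI_ext
  intro x
  rw [RingHom.comp_apply]
  unfold theta restr
  rw [evI_X, evI_X]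
  split_ifs with h1 h2
  · rw [coe_eval₂Hom, eval₂_C]
    unfold theta1
    rw [evI_X]
  · rw [map_one]
  · rw [coe_eval₂Hom, eval₂_X]

theorem map_constantCoeff_theta1 (e1 e2 : Fin m → Fin N) (ξ : Fin m → ℚ)
    (ρ : Fin m × Fin N → ℚ) (R : MvPolynomial (Fin m) ℤ) :
    map constantCoeff (theta1 e1 e2 ξ ρ R) = shift ξ (map (Int.castRingHom ℚ) R) := by
  have key : (map constantCoeff).comp (theta1 e1 e2 ξ ρ) =
      (shift ξ : MvPolynomial (Fin m) ℚ →ₐ[ℚ] _).toRingHom.comp (map (Int.castRingHom ℚ)) := by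
    apply evI_ext
    intro h
    rw [RingHom.comp_apply, RingHom.comp_apply]
    unfold theta1
    rw [evI_X, map_add, map_X, map_C, map_X, constantCoeff_ell]
    simp
  exact DFunLike.congr_fun key R

theorem coeff_theta (e1 e2 : Fin m → Fin N) (ξ : Fin m → ℚ) (ρ : Fin m × Fin N → ℚ)
    (P : MvPolynomial (Fin m × Fin N) ℤ) (s : Fin m × Fin N →₀ ℕ)
    (hs : ∀ s', s' < s → coeff s' (restr e1 e2 P) = 0) (κ : Fin m →₀ ℕ) :
    coeff s (coeff κ (theta e1 e2 ξ ρ P)) =
      coeff κ (shift ξ (map (Int.castRingHom ℚ) (coeff s (restr e1 e2 P)))) := by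
  classical
  rw [theta_eq, RingHom.comp_apply]
  set F := restr e1 e2 P with hF
  rw [coe_eval₂Hom, eval₂_eq', coeff_sum, coeff_sum]
  have h1 : ∀ s' : Fin m × Fin N →₀ ℕ, ∏ x, (C (X x) : MvPolynomial (Fin m)
      (MvPolynomial (Fin m × Fin N) ℚ)) ^ (s' x) = C (monomial s' 1) := by
    intro s'
    rw [monomial_eq, Finsupp.prod_fintype _ _ (by simp), C_1, one_mul, map_prod]
    simp
  have h2 : ∀ s' ∈ F.support, coeff s (coeff κ (theta1 e1 e2 ξ ρ (coeff s' F) *
      ∏ x, (C (X x) : MvPolynomial (Fin m) (MvPolynomial (Fin m × Fin N) ℚ)) ^ (s' x))) =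
      if s' = s then constantCoeff (coeff κ (theta1 e1 e2 ξ ρ (coeff s F))) else 0 := by
    intro s' hs'
    rw [h1, mul_comm, coeff_C_mul, mul_comm, coeff_mul_monomial']
    split_ifs with h3 h4 h4
    · rw [h4, tsub_self, mul_one]
      rfl
    · exact absurd (hs s' (lt_of_le_of_ne h3 h4)) (mem_support_iff.1 hs')
    · rw [h4] at h3
      exact absurd (le_refl s) h3
    · rfl
  rw [Finset.sum_congr rfl h2, Finset.sum_ite_eq']
  have h3 : constantCoeff (coeff κ (theta1 e1 e2 ξ ρ (coeff s F))) =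
      coeff κ (shift ξ (map (Int.castRingHom ℚ) (coeff s F))) := by
    rw [← map_constantCoeff_theta1 e1 e2 ξ ρ, coeff_map]
  split_ifs with h4
  · exact h3
  · rw [notMem_support_iff.1 h4]
    simp

end

section gamma

variable {m k : ℕ}

/-- parametrization by combinations of `y` and the first distinguished coordinate vector -/
noncomputable def gam (e1 : Fin m → Fin (k + 1)) (y : Fin m → Fin k → Fin (k + 1) → ℤ) :
    MvPolynomial (Fin m × Fin (k + 1)) ℤ →+* MvPolynomial (Fin m) (MvPolynomial (Fin m × Fin k) ℚ) :=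
  evI (fun x => C (∑ j, C ((y x.1 j x.2 : ℤ) : ℚ) * X (x.1, j)) +
    if x.2 = e1 x.1 then X x.1 else 0)

/-- block homogeneity of nested polynomials -/
def BHN (b : Fin m → ℕ) (F : MvPolynomial (Fin m) (MvPolynomial (Fin m × Fin k) ℚ)) : Prop :=
  ∀ κ e, coeff e (coeff κ F) ≠ 0 → ∀ h, κ h + ∑ j, e (h, j) = b h

theorem BHN.add {b : Fin m → ℕ} {F G : MvPolynomial (Fin m) (MvPolynomial (Fin m × Fin k) ℚ)}
    (hF : BHN b F) (hG : BHN b G) : BHN b (F + G) := by
  intro κ e hne
  rw [coeff_add, coeff_add] at hne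
  by_cases h : coeff e (coeff κ F) = 0
  · rw [h, zero_add] at hne
    exact hG κ e hne
  · exact hF κ e h

theorem bhn_zero (b : Fin m → ℕ) :
    BHN b (0 : MvPolynomial (Fin m) (MvPolynomial (Fin m × Fin k) ℚ)) := by
  intro κ e hne
  simp at hne

theorem BHN.sum {ι : Type*} {s : Finset ι} {b : Fin m → ℕ}
    {F : ι → MvPolynomial (Fin m) (MvPolynomial (Fin m × Fin k) ℚ)}
    (hF : ∀ i ∈ s, BHN b (F i)) : BHN b (∑ i ∈ s, F i) := by
  classical
  induction s using Finset.induction_on with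
  | empty => simpa using bhn_zero b
  | insert a s ha ih =>
    rw [Finset.sum_insert ha]
    exact (hF a (Finset.mem_insert_self a s)).add
      (ih fun i hi => hF i (Finset.mem_insert_of_mem hi))

theorem BHN.mul {b b' : Fin m → ℕ} {F G : MvPolynomial (Fin m) (MvPolynomial (Fin m × Fin k) ℚ)}
    (hF : BHN b F) (hG : BHN b' G) : BHN (b + b') (F * G) := by
  classical
  intro κ e hne h
  rw [coeff_mul, coeff_sum] at hne
  obtain ⟨x, hx, hne1⟩ := Finset.exists_ne_zero_of_sum_ne_zero hne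
  rw [coeff_mul] at hne1
  obtain ⟨z, hz, hne2⟩ := Finset.exists_ne_zero_of_sum_ne_zero hne1
  have h1 := hF _ _ (left_ne_zero_of_mul hne2) h
  have h2 := hG _ _ (right_ne_zero_of_mul hne2) h
  rw [Finset.HasAntidiagonal.mem_antidiagonal] at hx hz
  rw [← hx, ← hz, Pi.add_apply, ← h1, ← h2]
  simp only [Finsupp.add_apply, Finset.sum_add_distrib]
  ring

theorem bhn_C (c : ℚ) : BHN (0 : Fin m → ℕ)
    (C (C c) : MvPolynomial (Fin m) (MvPolynomial (Fin m × Fin k) ℚ)) := by
  classical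
  intro κ e hne h
  rw [coeff_C] at hne
  split_ifs at hne with h1
  · rw [coeff_C] at hne
    split_ifs at hne with h2
    · rw [← h1, ← h2]
      simp
    · exact absurd rfl hne
  · exact absurd (coeff_zero _) hne

theorem bhn_X (h : Fin m) : BHN (Pi.single h 1 : Fin m → ℕ)
    (X h : MvPolynomial (Fin m) (MvPolynomial (Fin m × Fin k) ℚ)) := by
  classical
  intro κ e hne h'
  rw [coeff_X] at hne
  split_ifs at hne with h1
  · rw [← C_1, coeff_C] at hne
    split_ifs at hne with h2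
    · rw [← h1, ← h2]
      simp [Finsupp.single_apply, Pi.single_apply, eq_comm]
    · exact absurd rfl hne
  · exact absurd (coeff_zero _) hne

theorem bhn_CX (x : Fin m × Fin k) : BHN (Pi.single x.1 1 : Fin m → ℕ)
    (C (X x) : MvPolynomial (Fin m) (MvPolynomial (Fin m × Fin k) ℚ)) := by
  classical
  intro κ e hne h'
  rw [coeff_C] at hne
  split_ifs at hne with h1
  · rw [coeff_X] at hne
    split_ifs at hne with h2
    · rw [← h1, ← h2]
      simp only [Finsupp.coe_zero, Pi.zero_apply, zero_add]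
      by_cases hh : h' = x.1
      · subst hh
        rw [Finset.sum_eq_single x.2]
        · simp
        · intro j _ hj
          rw [Finsupp.single_apply, if_neg]
          intro h3
          exact hj (by rw [h3])
        · simp
      · rw [Pi.single_eq_of_ne hh]
        apply Finset.sum_eq_zero
        intro j _
        rw [Finsupp.single_apply, if_neg]
        intro h3
        exact hh (by rw [h3])
    · exact absurd rfl hne
  · exact absurd (coeff_zero _) hne

theorem bhn_one : BHN (0 : Fin m → ℕ)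
    (1 : MvPolynomial (Fin m) (MvPolynomial (Fin m × Fin k) ℚ)) := by
  have := bhn_C (m := m) (k := k) 1
  rwa [C_1, C_1] at this

theorem BHN.prod {ι : Type*} {s : Finset ι} {b : ι → Fin m → ℕ}
    {F : ι → MvPolynomial (Fin m) (MvPolynomial (Fin m × Fin k) ℚ)}
    (hF : ∀ i ∈ s, BHN (b i) (F i)) : BHN (∑ i ∈ s, b i) (∏ i ∈ s, F i) := by
  classical
  induction s using Finset.induction_on with
  | empty => simpa using bhn_one
  | insert a s ha ih =>
    rw [Finset.prod_insert ha, Finset.sum_insert ha]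
    exact (hF a (Finset.mem_insert_self a s)).mul
      (ih fun i hi => hF i (Finset.mem_insert_of_mem hi))

theorem BHN.pow {b : Fin m → ℕ} {F : MvPolynomial (Fin m) (MvPolynomial (Fin m × Fin k) ℚ)}
    (hF : BHN b F) (n : ℕ) : BHN (n • b) (F ^ n) := by
  induction n with
  | zero => simpa using bhn_one
  | succ n ih =>
    rw [pow_succ, succ_nsmul]
    exact ih.mul hF

theorem bhn_gen (e1 : Fin m → Fin (k + 1)) (y : Fin m → Fin k → Fin (k + 1) → ℤ)
    (x : Fin m × Fin (k + 1)) : BHN (Pi.single x.1 1 : Fin m → ℕ)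
    ((C (∑ j, C ((y x.1 j x.2 : ℤ) : ℚ) * X (x.1, j)) +
    if x.2 = e1 x.1 then X x.1 else 0) :
      MvPolynomial (Fin m) (MvPolynomial (Fin m × Fin k) ℚ)) := by
  apply BHN.add
  · rw [map_sum]
    refine BHN.sum fun j _ => ?_
    rw [C_mul]
    have := (bhn_C (m := m) (k := k) ((y x.1 j x.2 : ℤ) : ℚ)).mul (bhn_CX (x.1, j))
    rwa [zero_add] at this
  · split_ifs
    · exact bhn_X _
    · exact bhn_zero _

theorem bhn_gam_monomial (e1 : Fin m → Fin (k + 1)) (y : Fin m → Fin k → Fin (k + 1) → ℤ)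
    (J : Fin m × Fin (k + 1) →₀ ℕ) (c : ℤ) :
    BHN (fun h => ∑ i, J (h, i)) (gam e1 y (monomial J c)) := by
  classical
  unfold gam
  rw [evI_monomial]
  have h1 : (fun h => ∑ i, J (h, i)) =
      (0 : Fin m → ℕ) + ∑ x : Fin m × Fin (k + 1), J x • (Pi.single x.1 1 : Fin m → ℕ) := by
    funext h
    rw [zero_add, Finset.sum_apply, Fintype.sum_prod_type, Finset.sum_eq_single h]
    · simp
    · intro h' _ hne
      apply Finset.sum_eq_zero
      intro i _
      rw [Pi.smul_apply, Pi.single_eq_of_ne hne.symm, smul_zero]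
    · simp
  rw [h1]
  refine BHN.mul ?_ (BHN.prod fun x _ => (bhn_gen e1 y x).pow _)
  have := bhn_C (m := m) (k := k) (c : ℚ)
  simpa using this

/-- translation by an integer combination -/
theorem gam_shift (e1 : Fin m → Fin (k + 1)) (y : Fin m → Fin k → Fin (k + 1) → ℤ)
    (t : Fin m × Fin k → ℕ) (P : MvPolynomial (Fin m × Fin (k + 1)) ℤ) :
    gam e1 y (shift (fun x => ∑ j, (t (x.1, j) : ℤ) * y x.1 j x.2) P) =
      map (shift (fun x => (t x : ℚ)) : MvPolynomial (Fin m × Fin k) ℚ →ₐ[ℚ] _).toRingHom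
        (gam e1 y P) := by
  have key : (gam e1 y).comp (shift (fun x => ∑ j, (t (x.1, j) : ℤ) * y x.1 j x.2) :
      MvPolynomial (Fin m × Fin (k + 1)) ℤ →ₐ[ℤ] _).toRingHom =
      (map (shift (fun x => (t x : ℚ)) : MvPolynomial (Fin m × Fin k) ℚ →ₐ[ℚ] _).toRingHom).comp
        (gam e1 y) := by
    apply evI_ext
    intro x
    rw [RingHom.comp_apply, RingHom.comp_apply]
    simp only [AlgHom.toRingHom_eq_coe, RingHom.coe_coe, shift_X, map_add]
    unfold gam
    rw [evI_X, evI_C, map_add, map_C]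
    have h1 : (map (shift (fun x => (t x : ℚ)) : MvPolynomial (Fin m × Fin k) ℚ →ₐ[ℚ] _).toRingHom
        (if x.2 = e1 x.1 then (X x.1 : MvPolynomial (Fin m) (MvPolynomial (Fin m × Fin k) ℚ))
          else 0)) = if x.2 = e1 x.1 then X x.1 else 0 := by
      split_ifs
      · rw [map_X]
      · rw [map_zero]
    have h2 : (shift (fun x => (t x : ℚ)) : MvPolynomial (Fin m × Fin k) ℚ →ₐ[ℚ] _)
        (∑ j, C ((y x.1 j x.2 : ℤ) : ℚ) * X (x.1, j)) =
        ∑ j, C ((y x.1 j x.2 : ℤ) : ℚ) * X (x.1, j) +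
        C (((∑ j, (t (x.1, j) : ℤ) * y x.1 j x.2 : ℤ)) : ℚ) := by
      push_cast
      rw [map_sum, map_sum, ← Finset.sum_add_distrib]
      refine Finset.sum_congr rfl fun j _ => ?_
      rw [map_mul, shift_C, shift_X, mul_add, C_mul]
      congr 1
      rw [mul_comm]
    simp only [AlgHom.toRingHom_eq_coe, RingHom.coe_coe] at h1 ⊢
    rw [h1, h2, C_add]
    have h4 : (((∑ j, (t (x.1, j) : ℤ) * y x.1 j x.2 : ℤ)) :
        MvPolynomial (Fin m) (MvPolynomial (Fin m × Fin k) ℚ)) =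
        C (C (((∑ j, (t (x.1, j) : ℤ) * y x.1 j x.2 : ℤ)) : ℚ)) := by
      simp
    rw [h4]
    ring
  exact DFunLike.congr_fun key P

end gamma

end Pool.Agent.Lib.Subspace
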