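import Pool.Agent.Lib.Subspace.Norms

/-!
# Index conditions
-/

namespace Pool.Agent.Lib.Subspace

open MvPolynomial

section

variable {σ τ : Type*} [Fintype σ] [Fintype τ] {R : Type*} [CommRing R]

/-- all monomials of `P` have weight at least `θ` -/
def IdxGE (w : σ → ℝ) (θ : ℝ) (P : MvPolynomial σ R) : Prop :=
  ∀ J ∈ P.support, θ ≤ ∑ k, w k * J k

theorem IdxGE.mono {w : σ → ℝ} {θ θ' : ℝ} {P : MvPolynomial σ R} (h : IdxGE w θ P)
    (hθ : θ' ≤ θ) : IdxGE w θ' P := fun J hJ => hθ.trans (h J hJ)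

theorem idxGE_zero (w : σ → ℝ) (θ : ℝ) : IdxGE w θ (0 : MvPolynomial σ R) := by
  intro J hJ
  simp at hJ

theorem idxGE_nonpos {w : σ → ℝ} (hw : ∀ k, 0 ≤ w k) {θ : ℝ} (hθ : θ ≤ 0)
    (P : MvPolynomial σ R) : IdxGE w θ P := fun J _ =>
  hθ.trans (Finset.sum_nonneg fun k _ => mul_nonneg (hw k) (Nat.cast_nonneg _))

theorem IdxGE.add {w : σ → ℝ} {θ : ℝ} {P Q : MvPolynomial σ R} (hP : IdxGE w θ P)
    (hQ : IdxGE w θ Q) : IdxGE w θ (P + Q) := by
  classical
  intro J hJ
  rcases Finset.mem_union.1 (support_add hJ) with h | h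
  · exact hP J h
  · exact hQ J h

theorem IdxGE.sum {ι : Type*} {s : Finset ι} {w : σ → ℝ} {θ : ℝ} {g : ι → MvPolynomial σ R}
    (h : ∀ i ∈ s, IdxGE w θ (g i)) : IdxGE w θ (∑ i ∈ s, g i) := by
  classical
  induction s using Finset.induction_on with
  | empty => simpa using idxGE_zero w θ
  | insert a s ha ih =>
    rw [Finset.sum_insert ha]
    exact (h a (Finset.mem_insert_self a s)).add
      (ih fun i hi => h i (Finset.mem_insert_of_mem hi))

theorem IdxGE.neg {w : σ → ℝ} {θ : ℝ} {P : MvPolynomial σ R} (hP : IdxGE w θ P) :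
    IdxGE w θ (-P) := by
  intro J hJ
  rw [support_neg] at hJ
  exact hP J hJ

theorem IdxGE.mul {w : σ → ℝ} {θ θ' : ℝ} {P Q : MvPolynomial σ R} (hP : IdxGE w θ P)
    (hQ : IdxGE w θ' Q) : IdxGE w (θ + θ') (P * Q) := by
  classical
  intro J hJ
  have h := support_mul P Q hJ
  rw [Finset.mem_add] at h
  obtain ⟨a, ha, b, hb, rfl⟩ := h
  have h1 := hP a ha
  have h2 := hQ b hb
  have : ∑ k, w k * ((a + b) k : ℕ) = ∑ k, w k * a k + ∑ k, w k * b k := by
    rw [← Finset.sum_add_distrib]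
    refine Finset.sum_congr rfl fun k _ => ?_
    rw [Finsupp.add_apply]
    push_cast
    ring
  rw [this]
  linarith

theorem idxGE_one (w : σ → ℝ) : IdxGE w 0 (1 : MvPolynomial σ R) := by
  classical
  intro J hJ
  rw [← C_1] at hJ
  have := support_monomial_subset (s := (0 : σ →₀ ℕ)) (a := (1 : R)) hJ
  rw [Finset.mem_singleton] at this
  simp [this]

theorem IdxGE.prod {ι : Type*} {s : Finset ι} {w : σ → ℝ} {θ : ι → ℝ}
    {g : ι → MvPolynomial σ R} (h : ∀ i ∈ s, IdxGE w (θ i) (g i)) :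
    IdxGE w (∑ i ∈ s, θ i) (∏ i ∈ s, g i) := by
  classical
  induction s using Finset.induction_on with
  | empty => simpa using idxGE_one w
  | insert a s ha ih =>
    rw [Finset.prod_insert ha, Finset.sum_insert ha]
    exact (h a (Finset.mem_insert_self a s)).mul
      (ih fun i hi => h i (Finset.mem_insert_of_mem hi))

theorem IdxGE.hd {w : σ → ℝ} {θ : ℝ} {P : MvPolynomial σ R} (hP : IdxGE w θ P)
    (i : σ →₀ ℕ) : IdxGE w (θ - ∑ k, w k * i k) (hd i P) := by
  intro a ha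
  have h := hP _ (add_mem_support_of_mem_hd ha)
  have : ∑ k, w k * ((a + i) k : ℕ) = ∑ k, w k * a k + ∑ k, w k * i k := by
    rw [← Finset.sum_add_distrib]
    refine Finset.sum_congr rfl fun k _ => ?_
    rw [Finsupp.add_apply]
    push_cast
    ring
  rw [this] at h
  linarith

theorem IdxGE.det {s : ℕ} {w : σ → ℝ} {θ : Fin s → ℝ}
    {E : Matrix (Fin s) (Fin s) (MvPolynomial σ R)} (hE : ∀ i j, IdxGE w (θ j) (E i j)) :
    IdxGE w (∑ j, θ j) E.det := by
  classical
  rw [Matrix.det_apply]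
  refine IdxGE.sum fun π _ => ?_
  have h1 : IdxGE w (∑ j, θ j) (∏ j, E (π j) j) := IdxGE.prod fun j _ => hE _ _
  rcases Int.units_eq_one_or (Equiv.Perm.sign π) with h | h
  · rw [h, one_smul]
    exact h1
  · rw [h, Units.neg_smul, one_smul]
    exact h1.neg

end

end Pool.Agent.Lib.Subspace
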