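import Pool.Agent.Lib.Subspace.PointBound
import Pool.Agent.Lib.Subspace.Hyper3

/-!
# The last minimum: the case of large heights
-/

namespace Pool.Agent.Lib.Subspace

open MvPolynomial Filter

theorem exists_sparse (K Lmin : ℝ) (hK : 0 ≤ K) (L : ℕ → ℝ) (hL : Tendsto L atTop atTop)
    (E : ℕ → Prop) (hE : ∀ᶠ s in atTop, E s) (m : ℕ) :
    ∃ s : Fin m → ℕ, (∀ h, Lmin ≤ L (s h) ∧ 0 ≤ L (s h) ∧ E (s h)) ∧
      ∀ h h', h < h' → K * L (s h') ≤ L (s h) := by
  induction m with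
  | zero => exact ⟨Fin.elim0, fun h => h.elim0, fun h => h.elim0⟩
  | succ m ih =>
    obtain ⟨s, hs1, hs2⟩ := ih
    have h1 : ∀ᶠ x in atTop, Lmin ≤ L x := hL.eventually_ge_atTop _
    have h2 : ∀ᶠ x in atTop, ∑ h, K * L (s h) ≤ L x := hL.eventually_ge_atTop _
    have h3 : ∀ᶠ x in atTop, 0 ≤ L x := hL.eventually_ge_atTop _
    obtain ⟨x, hx1, hx2, hx3, hx4⟩ := (h1.and (h2.and (h3.and hE))).exists
    refine ⟨Fin.cons x s, ?_, ?_⟩
    · intro h
      refine Fin.cases ?_ (fun h => ?_) h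
      · simpa using ⟨hx1, hx3, hx4⟩
      · simpa using hs1 h
    · intro h h' hlt
      obtain ⟨h', rfl⟩ : ∃ g : Fin m, h' = g.succ := by
        refine ⟨h'.pred ?_, (Fin.succ_pred _ _).symm⟩
        intro h0
        rw [h0] at hlt
        exact absurd hlt (Fin.not_lt_zero h)
      obtain rfl | ⟨g, rfl⟩ := Fin.eq_zero_or_eq_succ h
      · simp only [Fin.cons_succ, Fin.cons_zero]
        refine le_trans ?_ hx2
        exact Finset.single_le_sum (f := fun h => K * L (s h))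
          (fun i _ => mul_nonneg hK (hs1 i).2.1) (Finset.mem_univ h')
      · simp only [Fin.cons_succ]
        exact hs2 g h' (by simpa using hlt)

/-- bound of the main monomials -/
theorem main_monomial {m N : ℕ} (c : Fin N → ℝ) (κ : ℝ) (hc : ∀ i, |c i| ≤ κ)
    (L : Fin m → ℝ) (d : Fin m → ℕ) (D : ℝ) (hD : 0 ≤ D)
    (hd1 : ∀ h, 1 ≤ d h)
    (hdl : ∀ h, D ≤ d h * L h) (hdu : ∀ h, d h * L h ≤ D + L h) (η : ℝ)
    (J : Fin m × Fin N →₀ ℕ) (hJ : ∀ h, ∑ i, J (h, i) = d h)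
    (hb : ∀ i, |∑ h, (J (h, i) : ℝ) / d h - m / N| ≤ m * η) :
    ∑ x : Fin m × Fin N, c x.2 * L x.1 * J x ≤
      (∑ i, c i) * (D * (m / N)) + κ * N * (D * m * η + ∑ h, L h) := by
  have h1 : ∀ i, |∑ h, L h * J (h, i) - D * (m / N)| ≤ D * m * η + ∑ h, L h := by
    intro i
    have e1 : ∑ h, L h * J (h, i) - D * (m / N) =
        D * (∑ h, (J (h, i) : ℝ) / d h - m / N) +
        ∑ h, (J (h, i) : ℝ) / d h * (d h * L h - D) := by
      rw [mul_sub, Finset.mul_sum]
      have : ∀ h, L h * (J (h, i) : ℝ) = D * ((J (h, i) : ℝ) / d h) +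
          (J (h, i) : ℝ) / d h * (d h * L h - D) := by
        intro h
        have : (d h : ℝ) ≠ 0 := by
          have := hd1 h
          positivity
        field_simp
        ring
      rw [Finset.sum_congr rfl fun h _ => this h, Finset.sum_add_distrib]
      ring
    rw [e1]
    refine (abs_add_le _ _).trans (add_le_add ?_ ?_)
    · rw [abs_mul, abs_of_nonneg hD, mul_assoc]
      exact mul_le_mul_of_nonneg_left (hb i) hD
    · refine (Finset.abs_sum_le_sum_abs _ _).trans (Finset.sum_le_sum fun h _ => ?_)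
      have hdpos : (0 : ℝ) < d h := by exact_mod_cast hd1 h
      have h2 : (J (h, i) : ℝ) / d h ≤ 1 := by
        rw [div_le_one hdpos]
        have : J (h, i) ≤ d h := by
          rw [← hJ h]
          exact Finset.single_le_sum (f := fun i => J (h, i)) (fun _ _ => Nat.zero_le _)
            (Finset.mem_univ i)
        exact_mod_cast this
      have h3 : (0 : ℝ) ≤ (J (h, i) : ℝ) / d h := by positivity
      rw [abs_mul, abs_of_nonneg h3, abs_of_nonneg (by linarith [hdl h])]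
      have h4 : (d h : ℝ) * L h - D ≤ L h := by linarith [hdu h]
      calc (J (h, i) : ℝ) / d h * (d h * L h - D) ≤ 1 * L h :=
            mul_le_mul h2 h4 (by linarith [hdl h]) zero_le_one
        _ = L h := one_mul _
  have e2 : ∑ x : Fin m × Fin N, c x.2 * L x.1 * J x =
      ∑ i, c i * (∑ h, L h * J (h, i)) := by
    rw [Fintype.sum_prod_type_right]
    refine Finset.sum_congr rfl fun i _ => ?_
    rw [Finset.mul_sum]
    exact Finset.sum_congr rfl fun h _ => by ring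
  rw [e2]
  have e3 : ∑ i, c i * (∑ h, L h * J (h, i)) = (∑ i, c i) * (D * (m / N)) +
      ∑ i, c i * (∑ h, L h * J (h, i) - D * (m / N)) := by
    rw [Finset.sum_mul, ← Finset.sum_add_distrib]
    exact Finset.sum_congr rfl fun i _ => by ring
  rw [e3]
  have h5 : ∑ i, c i * (∑ h, L h * J (h, i) - D * (m / N)) ≤
      ∑ _i : Fin N, κ * (D * m * η + ∑ h, L h) := by
    refine Finset.sum_le_sum fun i _ => ?_
    refine (le_abs_self _).trans ?_
    rw [abs_mul]
    exact mul_le_mul (hc i) (h1 i) (abs_nonneg _) ((abs_nonneg _).trans (hc i))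
  rw [Finset.sum_const, Finset.card_univ, Fintype.card_fin, nsmul_eq_mul] at h5
  linarith

theorem index_bound {m N : ℕ} (L : Fin m → ℝ) (hL : ∀ h, 0 ≤ L h) (d : Fin m → ℕ) (D : ℝ)
    (hD : 0 ≤ D) (hd1 : ∀ h, 1 ≤ d h) (hdu : ∀ h, d h * L h ≤ D + L h) (θ : ℝ)
    (I : Fin m × Fin N →₀ ℕ) (hI : ∑ h, ((∑ i, I (h, i) : ℕ) : ℝ) / d h < θ) :
    ∑ x : Fin m × Fin N, L x.1 * I x ≤ θ * (D + ∑ h, L h) := by
  have e1 : ∑ x : Fin m × Fin N, L x.1 * I x = ∑ h, L h * ((∑ i, I (h, i) : ℕ) : ℝ) := by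
    rw [Fintype.sum_prod_type]
    refine Finset.sum_congr rfl fun h _ => ?_
    push_cast
    rw [Finset.mul_sum]
  rw [e1]
  have hΛ : 0 ≤ ∑ h, L h := Finset.sum_nonneg fun h _ => hL h
  calc ∑ h, L h * ((∑ i, I (h, i) : ℕ) : ℝ)
      ≤ ∑ h, ((∑ i, I (h, i) : ℕ) : ℝ) / d h * (D + ∑ h, L h) := by
        refine Finset.sum_le_sum fun h _ => ?_
        have hdpos : (0 : ℝ) < d h := by exact_mod_cast hd1 h
        have h1 : L h * ((∑ i, I (h, i) : ℕ) : ℝ) =
            ((∑ i, I (h, i) : ℕ) : ℝ) / d h * (d h * L h) := by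
          field_simp
        rw [h1]
        refine mul_le_mul_of_nonneg_left ?_ (by positivity)
        have := Finset.single_le_sum (f := L) (fun h _ => hL h) (Finset.mem_univ h)
        linarith [hdu h]
    _ = (∑ h, ((∑ i, I (h, i) : ℕ) : ℝ) / d h) * (D + ∑ h, L h) := (Finset.sum_mul _ _ _).symm
    _ ≤ _ := mul_le_mul_of_nonneg_right hI.le (by linarith)

theorem last_min_A2 {V : Type*} [Fintype V] (av : V → AbsoluteValue ℤ ℝ)
    (PF : ∀ c : ℤ, c ≠ 0 → 1 ≤ ∏ v, av v c)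
    (LB : ∀ v, ∀ c : ℤ, c ≠ 0 → 1 ≤ av v c * |(c : ℝ)|)
    {k : ℕ} (hk : 1 ≤ k) (A : V → Matrix (Fin (k + 1)) (Fin (k + 1)) ℤ)
    (hA : ∀ v, (A v).det ≠ 0) (c : V → Fin (k + 1) → ℝ) (hc : ∑ v, ∑ i, c v i < 0)
    (L : ℕ → ℝ) (hL : Tendsto L atTop atTop)
    (y : ℕ → Fin k → Fin (k + 1) → ℤ)
    (hy : ∀ s, LinearIndependent ℚ (fun j i => (y s j i : ℚ)))
    (hyb : ∀ s v j i, av v ((A v).mulVec (y s j) i) ≤ Real.exp (c v i * L s))
    (a : ℕ → Fin (k + 1) → ℤ) (hprim : ∀ s, ∃ x : Fin (k + 1) → ℤ, ∑ i, x i * a s i = 1)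
    (hay : ∀ s j, ∑ i, a s i * y s j i = 0)
    (c' : ℝ) (hc' : 0 < c') (hH : ∀ᶠ s in atTop, ∃ i, Real.exp (c' * L s) ≤ |(a s i : ℝ)|) :
    False := by
  classical
  -- constants
  have hVne : Nonempty V := by
    by_contra h
    rw [not_nonempty_iff] at h
    simp at hc
  set nV : ℝ := (Fintype.card V : ℝ) with hnV
  have hnV1 : 1 ≤ nV := by
    rw [hnV]
    exact_mod_cast Fintype.card_pos
  set Nr : ℝ := ((k + 1 : ℕ) : ℝ) with hNr
  have hNr1 : 1 ≤ Nr := by
    rw [hNr]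
    exact_mod_cast Nat.succ_pos k
  set Δ : ℝ := -∑ v, ∑ i, c v i with hΔ
  have hΔpos : 0 < Δ := by linarith
  set κ : ℝ := 1 + ∑ v, ∑ i, |c v i| with hκ
  have hκc : ∀ v i, |c v i| ≤ κ := by
    intro v i
    have h1 : |c v i| ≤ ∑ i, |c v i| :=
      Finset.single_le_sum (f := fun i => |c v i|) (fun _ _ => abs_nonneg _) (Finset.mem_univ i)
    have h2 : ∑ i, |c v i| ≤ ∑ v, ∑ i, |c v i| :=
      Finset.single_le_sum (f := fun v => ∑ i, |c v i|)
        (fun _ _ => Finset.sum_nonneg fun _ _ => abs_nonneg _) (Finset.mem_univ v)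
    linarith
  have hκ1 : 1 ≤ κ := by
    have : 0 ≤ ∑ v, ∑ i, |c v i| :=
      Finset.sum_nonneg fun _ _ => Finset.sum_nonneg fun _ _ => abs_nonneg _
    linarith
  set η : ℝ := Δ / (4 * Nr ^ 2 * nV * κ) with hη
  have hηpos : 0 < η := by positivity
  obtain ⟨m, hm⟩ : ∃ m : ℕ, 1 + 2 * Nr * nV / η ^ 2 ≤ m := exists_nat_ge _
  have hm1 : (1 : ℝ) ≤ m := by
    have : 0 ≤ 2 * Nr * nV / η ^ 2 := by positivity
    linarith
  have hmpos : 0 < m := by exact_mod_cast (lt_of_lt_of_le one_pos hm1)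
  have hmη : 2 * Nr * nV ≤ m * η ^ 2 := by
    have h1 : 2 * Nr * nV / η ^ 2 ≤ m := by linarith
    rwa [div_le_iff₀ (by positivity)] at h1
  set θ : ℝ := min 1 (Δ / (4 * Nr * nV * κ)) with hθ
  have hθpos : 0 < θ := lt_min one_pos (by positivity)
  obtain ⟨C, hC1, haux⟩ := aux_poly m (k + 1) (Nat.succ_pos k) hmpos
    (fun v => (A v).adjugate) η hηpos hmη
  obtain ⟨ω, hω, hω1, B0, hroth⟩ := roth_hyper m k hk hmpos θ hθpos (min_le_left _ _)
  set K : ℝ := k * B0 with hK
  have hK0 : 0 ≤ K := by positivity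
  set G : V → ℝ := fun v => |((A v).det : ℝ)| * (K + entrySum (A v)) *
    (1 + entrySum (A v).adjugate) with hG
  have hG0 : ∀ v, 0 ≤ G v := fun v =>
    mul_nonneg (mul_nonneg (abs_nonneg _) (add_nonneg hK0 (entrySum_nonneg _)))
      (add_nonneg zero_le_one (entrySum_nonneg _))
  set C1 : ℝ := 1 + ∑ v, G v with hC1'
  have hC11 : 1 ≤ C1 := by
    have : 0 ≤ ∑ v, G v := Finset.sum_nonneg fun v _ => hG0 v
    linarith
  have hGC : ∀ v, G v ≤ C1 := by
    intro v
    have := Finset.single_le_sum (f := G) (fun v _ => hG0 v) (Finset.mem_univ v)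
    linarith
  set Cc : ℝ := C1 ^ m * C with hCc
  have hCc1 : 1 ≤ Cc := one_le_mul_of_one_le_of_one_le (one_le_pow₀ hC11) hC1
  have hlogCc : 0 ≤ Real.log Cc := Real.log_nonneg hCc1
  have hrC : 2 ≤ rothC m := two_le_rothC m
  have hCr1 : 1 ≤ C * rothC m := by nlinarith
  have hlogCr : 0 ≤ Real.log (C * rothC m) := Real.log_nonneg hCr1
  set Lmin : ℝ := 1 + 2 * Real.log (C * rothC m) / (c' * ω) + 8 * nV * Nr * Real.log Cc / Δ
    with hLmin
  have ht1 : 0 ≤ 2 * Real.log (C * rothC m) / (c' * ω) := by positivity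
  have ht2 : 0 ≤ 8 * nV * Nr * Real.log Cc / Δ := by positivity
  have hLmin1 : 1 ≤ Lmin := by linarith
  have hLminA : 2 * Real.log (C * rothC m) ≤ Lmin * (c' * ω) := by
    have : 2 * Real.log (C * rothC m) / (c' * ω) ≤ Lmin := by linarith
    rwa [div_le_iff₀ (by positivity)] at this
  have hLminB : 8 * nV * Nr * Real.log Cc ≤ Lmin * Δ := by
    have : 8 * nV * Nr * Real.log Cc / Δ ≤ Lmin := by linarith
    rwa [div_le_iff₀ hΔpos] at this
  obtain ⟨s, hs1, hs2⟩ := exists_sparse (2 / ω) Lmin (by positivity) L hL _ hH m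
  set Ls : Fin m → ℝ := fun h => L (s h) with hLs
  have hLs1 : ∀ h, Lmin ≤ Ls h := fun h => (hs1 h).1
  have hLspos : ∀ h, 0 < Ls h := fun h => by linarith [hLs1 h]
  set Λ : ℝ := ∑ h, Ls h with hΛ
  have hΛ0 : 0 ≤ Λ := Finset.sum_nonneg fun h _ => (hLspos h).le
  have hLsΛ : ∀ h, Ls h ≤ Λ := fun h =>
    Finset.single_le_sum (f := Ls) (fun h _ => (hLspos h).le) (Finset.mem_univ h)
  -- choose `D`
  set cst : ℝ := nV * κ * Nr * Λ + nV * κ * θ * Λ with hcst
  obtain ⟨D, hD⟩ : ∃ D : ℕ, 1 + Λ + 4 * Nr * cst / Δ ≤ D := exists_nat_ge _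
  have hcst0 : 0 ≤ cst := by positivity
  have hcst' : 0 ≤ 4 * Nr * cst / Δ := by positivity
  have hDΛ : Λ ≤ D := by linarith
  have hD1 : (1 : ℝ) ≤ D := by linarith
  have hDcst : 4 * Nr * cst < D * Δ := by
    have : 4 * Nr * cst / Δ < D := by linarith
    rwa [div_lt_iff₀ hΔpos] at this
  set d : Fin m → ℕ := fun h => ⌈(D : ℝ) / Ls h⌉₊ with hd
  have hdl : ∀ h, (D : ℝ) ≤ d h * Ls h := by
    intro h
    have := Nat.le_ceil ((D : ℝ) / Ls h)
    rwa [div_le_iff₀ (hLspos h)] at this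
  have hdu : ∀ h, (d h : ℝ) * Ls h ≤ D + Ls h := by
    intro h
    have h1 : (d h : ℝ) < D / Ls h + 1 :=
      Nat.ceil_lt_add_one (by have := hLspos h; positivity)
    have h2 : (d h : ℝ) * Ls h ≤ (D / Ls h + 1) * Ls h :=
      mul_le_mul_of_nonneg_right h1.le (hLspos h).le
    have h3 : ((D : ℝ) / Ls h + 1) * Ls h = D + Ls h := by
      have := (hLspos h).ne'
      field_simp
    linarith
  have hd2 : ∀ h, (d h : ℝ) * Ls h ≤ 2 * D := by
    intro h
    linarith [hdu h, hLsΛ h]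
  have hd1 : ∀ h, 1 ≤ d h := by
    intro h
    rw [Nat.one_le_iff_ne_zero]
    intro h0
    have := hdl h
    rw [h0, Nat.cast_zero, zero_mul] at this
    linarith
  set D1 : ℕ := ⌊2 * (D : ℝ) / Lmin⌋₊ with hD1'
  have hdD1 : ∀ h, d h ≤ D1 := by
    intro h
    apply Nat.le_floor
    rw [le_div_iff₀ (by linarith)]
    calc (d h : ℝ) * Lmin ≤ d h * Ls h := mul_le_mul_of_nonneg_left (hLs1 h) (Nat.cast_nonneg _)
      _ ≤ 2 * D := hd2 h
  have hD1L : (D1 : ℝ) * Lmin ≤ 2 * D := by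
    have h1 : (D1 : ℝ) ≤ 2 * D / Lmin := Nat.floor_le (by positivity)
    rwa [le_div_iff₀ (by linarith)] at h1
  have hord : ∀ h h', h < h' → (d h : ℝ) ≤ ω * d h' := by
    intro h h' hlt
    have h1 := hs2 h h' hlt
    have h2 : 2 * Ls h' ≤ ω * Ls h := by
      have h3 : 2 / ω * Ls h' ≤ Ls h := h1
      have h4 : ω * (2 / ω * Ls h') ≤ ω * Ls h := mul_le_mul_of_nonneg_left h3 hω.le
      have h5 : ω * (2 / ω * Ls h') = 2 * Ls h' := by field_simp
      linarith
    have h3 : (d h : ℝ) * Ls h ≤ (ω * d h') * Ls h := by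
      calc (d h : ℝ) * Ls h ≤ 2 * D := hd2 h
        _ ≤ 2 * (d h' * Ls h') := by linarith [hdl h']
        _ = d h' * (2 * Ls h') := by ring
        _ ≤ d h' * (ω * Ls h) := mul_le_mul_of_nonneg_left h2 (Nat.cast_nonneg _)
        _ = _ := by ring
    exact le_of_mul_le_mul_right h3 (hLspos h)
  obtain ⟨P, hP0, hPBH, hPw, hPs⟩ := haux d D1 hd1 hdD1
  have hMone : (1 : ℝ) ≤ Real.exp (c' * D) := Real.one_le_exp (by positivity)
  have hMa : ∀ h, ∃ i, Real.exp (c' * D) ≤ |(a (s h) i : ℝ)| ^ (d h) := by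
    intro h
    obtain ⟨i, hi⟩ := (hs1 h).2.2
    refine ⟨i, ?_⟩
    calc Real.exp (c' * D) ≤ Real.exp (d h * (c' * L (s h))) := by
          rw [Real.exp_le_exp]
          have := hdl h
          calc c' * D ≤ c' * (d h * Ls h) := mul_le_mul_of_nonneg_left this hc'.le
            _ = _ := by ring
      _ = Real.exp (c' * L (s h)) ^ (d h) := Real.exp_nat_mul _ _
      _ ≤ _ := pow_le_pow_left₀ (Real.exp_pos _).le hi _
  have hBM : C ^ D1 * rothC m ^ D1 ≤ Real.exp (c' * D) ^ ω := by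
    rw [← mul_pow, ← Real.exp_mul]
    have h1 : (C * rothC m) ^ D1 = Real.exp (D1 * Real.log (C * rothC m)) := by
      rw [Real.exp_nat_mul, Real.exp_log (by linarith)]
    rw [h1, Real.exp_le_exp]
    have h2 : (D1 : ℝ) * (2 * Real.log (C * rothC m)) ≤ 2 * D * (c' * ω) := by
      calc (D1 : ℝ) * (2 * Real.log (C * rothC m)) ≤ D1 * (Lmin * (c' * ω)) :=
            mul_le_mul_of_nonneg_left hLminA (Nat.cast_nonneg _)
        _ = (D1 * Lmin) * (c' * ω) := by ring
        _ ≤ 2 * D * (c' * ω) := mul_le_mul_of_nonneg_right hD1L (by positivity)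
    linarith
  obtain ⟨t, ht, I, hI, hne⟩ := hroth d D1 P (fun h => a (s h)) (fun h => y (s h))
    (Real.exp (c' * D)) (C ^ D1) hd1 hdD1 hord hP0 hPBH (fun h => hprim _) (fun h => hy _)
    (fun h j => hay _ _) hMone hMa hPw hBM
  set z : Fin m × Fin (k + 1) → ℤ := fun x => ∑ j, (t (x.1, j) : ℤ) * y (s x.1) j x.2 with hz
  set E : ℤ := coeff I (shift z P) with hE
  have hPF := PF E hne
  have hsumd : ∑ h, d h ≤ m * D1 := by
    calc ∑ h, d h ≤ ∑ _h : Fin m, D1 := Finset.sum_le_sum fun h _ => hdD1 h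
      _ = m * D1 := by simp
  -- bound at each place
  have hbound : ∀ v, av v E ≤ Real.exp (κ * (θ * (D + Λ)) + D1 * Real.log Cc +
      ((∑ i, c v i) * (D * (m / Nr)) + κ * Nr * (D * m * η + Λ))) := by
    intro v
    have hp := point_bound (av v) (A v) (LB v _ (hA v)) hPBH z
      (fun x => Real.exp (c v x.2 * Ls x.1)) (fun x => Real.exp_pos _)
      (fun h => Real.exp (-κ * Ls h)) (fun h => Real.exp_pos _)
      (fun h i => by
        simp only
        rw [Real.exp_le_exp]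
        apply mul_le_mul_of_nonneg_right _ (hLspos h).le
        have := hκc v i
        rw [abs_le] at this
        linarith)
      K hK0
      (fun h i => by
        simp only
        have e1 : ∑ l, A v i l * z (h, l) =
            ∑ j, (t (h, j) : ℤ) * (A v).mulVec (y (s h) j) i := by
          simp only [hz, Matrix.mulVec, dotProduct, Finset.mul_sum]
          rw [Finset.sum_comm]
          refine Finset.sum_congr rfl fun j _ => Finset.sum_congr rfl fun l _ => ?_
          ring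
        rw [e1]
        refine ((isNm_abv (av v)).sum_le _ _).trans ?_
        calc ∑ j, av v ((t (h, j) : ℤ) * (A v).mulVec (y (s h) j) i)
            ≤ ∑ _j : Fin k, B0 * Real.exp (c v i * Ls h) := by
              refine Finset.sum_le_sum fun j _ => ?_
              rw [(av v).map_mul]
              refine mul_le_mul ?_ (hyb _ _ _ _) ((av v).nonneg _) (Nat.cast_nonneg _)
              refine ((isNm_abv (av v)).natCast_le _).trans ?_
              exact_mod_cast ht (h, j)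
          _ = K * Real.exp (c v i * Ls h) := by
              rw [Finset.sum_const, Finset.card_univ, Fintype.card_fin, nsmul_eq_mul, hK]
              ring)
      (Real.exp ((∑ i, c v i) * (D * (m / Nr)) + κ * Nr * (D * m * η + Λ)))
      (fun J hJ => by
        have h1 := main_monomial (c v) κ (hκc v) Ls d D
          (by linarith) hd1 hdl hdu η J ((hPBH.blk _) J hJ) (hPs v J hJ)
        have e1 : ∏ x, Real.exp (c v x.2 * Ls x.1) ^ J x =
            Real.exp (∑ x : Fin m × Fin (k + 1), c v x.2 * Ls x.1 * J x) := by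
          rw [Real.exp_sum]
          refine Finset.prod_congr rfl fun x _ => ?_
          rw [← Real.exp_nat_mul]
          congr 1
          ring
        rw [e1, Real.exp_le_exp]
        exact h1)
      I
    have e2 : ∏ x : Fin m × Fin (k + 1), Real.exp (-κ * Ls x.1) ^ I x =
        Real.exp (-(κ * ∑ x : Fin m × Fin (k + 1), Ls x.1 * I x)) := by
      rw [Finset.mul_sum, ← Finset.sum_neg_distrib, Real.exp_sum]
      refine Finset.prod_congr rfl fun x _ => ?_
      rw [← Real.exp_nat_mul]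
      congr 1
      ring
    rw [e2] at hp
    have h3 := index_bound Ls (fun h => (hLspos h).le) d D (by linarith) hd1 hdu θ I hI
    have h4 : Real.exp (-(κ * (θ * (D + Λ)))) ≤
        Real.exp (-(κ * ∑ x : Fin m × Fin (k + 1), Ls x.1 * I x)) := by
      rw [Real.exp_le_exp, neg_le_neg_iff]
      exact mul_le_mul_of_nonneg_left h3 (by linarith)
    have h5 : av v E * Real.exp (-(κ * (θ * (D + Λ)))) ≤ G v ^ (∑ h, d h) * wnorm absZ 1 P *
        Real.exp ((∑ i, c v i) * (D * (m / Nr)) + κ * Nr * (D * m * η + Λ)) :=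
      (mul_le_mul_of_nonneg_left h4 ((av v).nonneg _)).trans hp
    have h6 : G v ^ (∑ h, d h) * wnorm absZ 1 P ≤ Real.exp (D1 * Real.log Cc) := by
      have e3 : Real.exp (D1 * Real.log Cc) = C1 ^ (m * D1) * C ^ D1 := by
        rw [Real.exp_nat_mul, Real.exp_log (by linarith), hCc, mul_pow, ← pow_mul]
      rw [e3]
      refine mul_le_mul ?_ hPw (wnorm_nonneg isNm_absZ (fun _ => zero_le_one) _) (by positivity)
      calc G v ^ (∑ h, d h) ≤ C1 ^ (∑ h, d h) := pow_le_pow_left₀ (hG0 v) (hGC v) _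
        _ ≤ C1 ^ (m * D1) := pow_le_pow_right₀ hC11 hsumd
    have h7 : av v E * Real.exp (-(κ * (θ * (D + Λ)))) ≤ Real.exp (D1 * Real.log Cc) *
        Real.exp ((∑ i, c v i) * (D * (m / Nr)) + κ * Nr * (D * m * η + Λ)) :=
      h5.trans (mul_le_mul_of_nonneg_right h6 (Real.exp_pos _).le)
    calc av v E = (av v E * Real.exp (-(κ * (θ * (D + Λ))))) * Real.exp (κ * (θ * (D + Λ))) := by
          rw [mul_assoc, ← Real.exp_add, neg_add_cancel, Real.exp_zero, mul_one]
      _ ≤ (Real.exp (D1 * Real.log Cc) *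
        Real.exp ((∑ i, c v i) * (D * (m / Nr)) + κ * Nr * (D * m * η + Λ))) *
          Real.exp (κ * (θ * (D + Λ))) := mul_le_mul_of_nonneg_right h7 (Real.exp_pos _).le
      _ = _ := by
          rw [← Real.exp_add, ← Real.exp_add]
          congr 1
          ring
  have hprod : ∏ v, av v E ≤ Real.exp (∑ v, (κ * (θ * (D + Λ)) + D1 * Real.log Cc +
      ((∑ i, c v i) * (D * (m / Nr)) + κ * Nr * (D * m * η + Λ)))) := by
    rw [Real.exp_sum]
    exact Finset.prod_le_prod (fun v _ => (av v).nonneg _) fun v _ => hbound v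
  have hsum : ∑ v, (κ * (θ * (D + Λ)) + D1 * Real.log Cc +
      ((∑ i, c v i) * (D * (m / Nr)) + κ * Nr * (D * m * η + Λ))) =
      nV * (κ * (θ * (D + Λ))) + nV * (D1 * Real.log Cc) - Δ * (D * (m / Nr)) +
        nV * (κ * Nr * (D * m * η + Λ)) := by
    simp only [Finset.sum_add_distrib, Finset.sum_const, Finset.card_univ, nsmul_eq_mul,
      ← Finset.sum_mul]
    rw [hΔ, hnV]
    ring
  have hneg : nV * (κ * (θ * (D + Λ))) + nV * (D1 * Real.log Cc) - Δ * (D * (m / Nr)) +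
        nV * (κ * Nr * (D * m * η + Λ)) < 0 := by
    have hNrpos : 0 < Nr := by linarith
    have hnVpos : 0 < nV := by linarith
    have hκpos : 0 < κ := by linarith
    -- first term
    have a1 : nV * κ * θ * (4 * Nr) ≤ Δ := by
      have h1 : θ ≤ Δ / (4 * Nr * nV * κ) := min_le_right _ _
      rw [le_div_iff₀ (by positivity)] at h1
      linarith
    have a2 : (4 * Nr) * (nV * (D1 * Real.log Cc)) ≤ D * Δ := by
      have h1 : (D1 : ℝ) * (8 * nV * Nr * Real.log Cc) ≤ D1 * (Lmin * Δ) :=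
        mul_le_mul_of_nonneg_left hLminB (Nat.cast_nonneg _)
      have h2 : (D1 * Lmin) * Δ ≤ (2 * D) * Δ := mul_le_mul_of_nonneg_right hD1L hΔpos.le
      linarith
    have a3 : (4 * Nr) * (nV * (κ * Nr * (D * m * η))) = D * m * Δ := by
      rw [hη]
      field_simp
    have a4 : (4 * Nr) * (Δ * (D * (m / Nr))) = 4 * (D * m * Δ) := by
      field_simp
    have a5 : D * Δ ≤ D * m * Δ := by
      have : (D : ℝ) * 1 ≤ D * m := mul_le_mul_of_nonneg_left hm1 (Nat.cast_nonneg _)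
      have := mul_le_mul_of_nonneg_right this hΔpos.le
      linarith
    have a6 : (4 * Nr) * (nV * (κ * (θ * D))) ≤ D * Δ := by
      have := mul_le_mul_of_nonneg_left a1 (Nat.cast_nonneg (α := ℝ) D)
      linarith
    have a7 : (4 * Nr) * (nV * (κ * (θ * (D + Λ))) + nV * (D1 * Real.log Cc) -
        Δ * (D * (m / Nr)) + nV * (κ * Nr * (D * m * η + Λ))) =
        (4 * Nr) * (nV * (κ * (θ * D))) + (4 * Nr) * (nV * (D1 * Real.log Cc)) -
        (4 * Nr) * (Δ * (D * (m / Nr))) + (4 * Nr) * (nV * (κ * Nr * (D * m * η))) +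
        4 * Nr * cst := by
      rw [hcst]
      ring
    have a8 : (4 * Nr) * (nV * (κ * (θ * (D + Λ))) + nV * (D1 * Real.log Cc) -
        Δ * (D * (m / Nr)) + nV * (κ * Nr * (D * m * η + Λ))) < 0 := by
      rw [a7, a3, a4]
      linarith
    by_contra hcon
    push Not at hcon
    have := mul_nonneg (show (0 : ℝ) ≤ 4 * Nr by linarith) hcon
    linarith
  rw [hsum] at hprod
  have : Real.exp (nV * (κ * (θ * (D + Λ))) + nV * (D1 * Real.log Cc) - Δ * (D * (m / Nr)) +
        nV * (κ * Nr * (D * m * η + Λ))) < 1 := Real.exp_lt_one_iff.2 hneg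
  linarith

end Pool.Agent.Lib.Subspace
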