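import Pool.Agent.Lib.Subspace.LastMinA

/-!
# The last minimum theorem
-/

namespace Pool.Agent.Lib.Subspace

open MvPolynomial Filter Matrix

theorem freq_pigeon {α : Type*} [Finite α] {l : Filter ℕ} (f : ℕ → α) {P : ℕ → Prop}
    (h : ∃ᶠ s in l, P s) : ∃ x, ∃ᶠ s in l, P s ∧ f s = x := by
  by_contra hcon
  push Not at hcon
  have h1 : ∀ᶠ s in l, ∀ x, ¬ (P s ∧ f s = x) := Filter.eventually_all.2 fun x => by
    have := hcon x
    exact this.mono fun s hs hc => hs hc.1 hc.2
  exact h (h1.mono fun s hs hP => hs (f s) ⟨hP, rfl⟩)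

theorem adj_dot {k : ℕ} (A : Matrix (Fin (k + 1)) (Fin (k + 1)) ℤ) (b y : Fin (k + 1) → ℤ) :
    ∑ i, (A.adjugateᵀ).mulVec b i * A.mulVec y i = A.det * ∑ i, b i * y i := by
  have : ((A.adjugate)ᵀ.mulVec b) ⬝ᵥ (A.mulVec y) = A.det * (b ⬝ᵥ y) := by
    rw [Matrix.mulVec_transpose, ← Matrix.dotProduct_mulVec, Matrix.mulVec_mulVec,
      Matrix.adjugate_mul, Matrix.smul_mulVec, Matrix.one_mulVec, dotProduct_smul, smul_eq_mul]
  exact this

theorem last_min_A1 {V : Type*} [Fintype V] (av : V → AbsoluteValue ℤ ℝ)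
    (PF : ∀ c : ℤ, c ≠ 0 → 1 ≤ ∏ v, av v c)
    (LB : ∀ v, ∀ c : ℤ, c ≠ 0 → 1 ≤ av v c * |(c : ℝ)|)
    {k : ℕ} (A : V → Matrix (Fin (k + 1)) (Fin (k + 1)) ℤ)
    (hA : ∀ v, (A v).det ≠ 0) (c : V → Fin (k + 1) → ℝ)
    (L : ℕ → ℝ) (hL : Tendsto L atTop atTop)
    (y : ℕ → Fin k → Fin (k + 1) → ℤ)
    (hyb : ∀ s v j i, av v ((A v).mulVec (y s j) i) ≤ Real.exp (c v i * L s))
    (a : ℕ → Fin (k + 1) → ℤ) (ha : ∀ s, a s ≠ 0)
    (q : ℕ → ℤ) (hq : ∀ s, q s ≠ 0) (hcr : ∀ s i, cr (y s) i = q s * a s i)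
    (c' : ℝ) (hc' : Fintype.card V * c' + ∑ v, ∑ i, c v i < 0)
    (hH : ∃ᶠ s in atTop, ∀ i, |(a s i : ℝ)| < Real.exp (c' * L s)) :
    ∃ b : Fin (k + 1) → ℤ, b ≠ 0 ∧ ∃ᶠ s in atTop, ∀ j, ∑ i, b i * y s j i = 0 := by
  classical
  set pat : ℕ → (V × Fin (k + 1) → Bool) := fun s x =>
    decide (((A x.1).adjugateᵀ).mulVec (a s) x.2 = 0) with hpat
  obtain ⟨π, hπ⟩ := freq_pigeon pat hH
  obtain ⟨s0, hs0, hs0π⟩ := hπ.exists
  set b := a s0 with hb
  refine ⟨b, ha s0, ?_⟩
  set β : V → Fin (k + 1) → ℤ := fun v => ((A v).adjugateᵀ).mulVec b with hβ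
  set Kv : V → ℝ := fun v => |((A v).det : ℝ)| * ((∑ i, |(β v i : ℝ)|) *
    (k.factorial * entrySum (A v).adjugateᵀ)) with hKv
  have hKv0 : ∀ v, 0 ≤ Kv v := fun v => mul_nonneg (abs_nonneg _)
    (mul_nonneg (Finset.sum_nonneg fun _ _ => abs_nonneg _)
      (mul_nonneg (Nat.cast_nonneg _) (entrySum_nonneg _)))
  set γ : ℝ := -(Fintype.card V * c' + ∑ v, ∑ i, c v i) with hγ
  have hγpos : 0 < γ := by linarith
  have hev : ∀ᶠ s in atTop, ∏ v, Kv v < Real.exp (γ * L s) := by
    have h1 : Tendsto (fun s => Real.exp (γ * L s)) atTop atTop :=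
      Real.tendsto_exp_atTop.comp (hL.const_mul_atTop hγpos)
    exact h1.eventually_gt_atTop _
  refine (hπ.and_eventually hev).mono ?_
  rintro s ⟨⟨hs, hsπ⟩, hsK⟩ j
  have hzero : ∀ v i, ((A v).adjugateᵀ).mulVec (a s) i = 0 ↔ β v i = 0 := by
    intro v i
    have h1 := congrFun (hsπ.trans hs0π.symm) (v, i)
    simp only [hpat, decide_eq_decide] at h1
    exact h1
  set Y : ℤ := ∑ i, b i * y s j i with hY
  -- bound at each place
  have hbound : ∀ v, av v (q s * Y) ≤ Kv v * Real.exp ((c' + ∑ i, c v i) * L s) := by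
    intro v
    have hf : IsNm (av v) := isNm_abv (av v)
    set T : ℝ := (k.factorial * entrySum (A v).adjugateᵀ) *
      Real.exp ((c' + ∑ i, c v i) * L s) with hT
    have hT0 : 0 ≤ T := mul_nonneg (mul_nonneg (Nat.cast_nonneg _) (entrySum_nonneg _))
      (Real.exp_pos _).le
    have h1 : ∀ i, av v (β v i * (q s * (A v).mulVec (y s j) i)) ≤ |(β v i : ℝ)| * T := by
      intro i
      by_cases hβi : β v i = 0
      · rw [hβi, zero_mul, (av v).map_zero, Int.cast_zero, abs_zero, zero_mul]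
      · rw [(av v).map_mul]
        refine mul_le_mul (hf.le_abs _) ?_ ((av v).nonneg _) (abs_nonneg _)
        have hαi : ((A v).adjugateᵀ).mulVec (a s) i ≠ 0 := fun h => hβi ((hzero v i).1 h)
        set α := ((A v).adjugateᵀ).mulVec (a s) i with hα
        have h2 : cr (fun j => (A v).mulVec (y s j)) i = q s * α := by
          rw [cr_mulVec _ (hA v), hα]
          simp only [Matrix.mulVec, dotProduct, Finset.mul_sum]
          refine Finset.sum_congr rfl fun l _ => ?_
          rw [hcr]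
          ring
        have h3 := hf.cr_le (fun j => (A v).mulVec (y s j)) (fun i => Real.exp (c v i * L s))
          (fun j i => hyb s v j i) i
        rw [h2, (av v).map_mul] at h3
        have h4 := LB v α hαi
        have h5 : |(α : ℝ)| ≤ entrySum (A v).adjugateᵀ * Real.exp (c' * L s) := by
          rw [hα]
          simp only [Matrix.mulVec, dotProduct, Int.cast_sum, Int.cast_mul]
          refine (Finset.abs_sum_le_sum_abs _ _).trans ?_
          calc ∑ l, |((A v).adjugateᵀ i l : ℝ) * (a s l : ℝ)|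
              ≤ ∑ l, |((A v).adjugateᵀ i l : ℝ)| * Real.exp (c' * L s) := by
                refine Finset.sum_le_sum fun l _ => ?_
                rw [abs_mul]
                exact mul_le_mul_of_nonneg_left (hs l).le (abs_nonneg _)
            _ = (∑ l, |((A v).adjugateᵀ i l : ℝ)|) * Real.exp (c' * L s) :=
                (Finset.sum_mul _ _ _).symm
            _ ≤ _ := mul_le_mul_of_nonneg_right (row_le_entrySum _ _) (Real.exp_pos _).le
        have h6 : av v (q s) ≤ (k.factorial * ∏ l, Real.exp (c v (i.succAbove l) * L s)) *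
            (entrySum (A v).adjugateᵀ * Real.exp (c' * L s)) := by
          calc av v (q s) = av v (q s) * 1 := (mul_one _).symm
            _ ≤ av v (q s) * (av v α * |(α : ℝ)|) :=
                mul_le_mul_of_nonneg_left h4 ((av v).nonneg _)
            _ = (av v (q s) * av v α) * |(α : ℝ)| := by ring
            _ ≤ _ := mul_le_mul h3 h5 (abs_nonneg _)
                (mul_nonneg (Nat.cast_nonneg _)
                  (Finset.prod_nonneg fun _ _ => (Real.exp_pos _).le))
        rw [(av v).map_mul]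
        have h7 := mul_le_mul h6 (hyb s v j i) ((av v).nonneg _)
          (mul_nonneg (mul_nonneg (Nat.cast_nonneg _)
            (Finset.prod_nonneg fun _ _ => (Real.exp_pos _).le))
            (mul_nonneg (entrySum_nonneg _) (Real.exp_pos _).le))
        refine h7.trans (le_of_eq ?_)
        have h8 : Real.exp ((c' + ∑ i, c v i) * L s) = Real.exp (c' * L s) *
            (Real.exp (c v i * L s) * ∏ l, Real.exp (c v (i.succAbove l) * L s)) := by
          rw [← Fin.prod_univ_succAbove (fun i => Real.exp (c v i * L s)) i, ← Real.exp_sum,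
            ← Real.exp_add, add_mul, Finset.sum_mul]
        rw [hT, h8]
        ring
    have h9 : av v (A v).det * av v (q s * Y) ≤ (∑ i, |(β v i : ℝ)|) * T := by
      rw [← (av v).map_mul]
      have e1 : (A v).det * (q s * Y) = ∑ i, β v i * (q s * (A v).mulVec (y s j) i) := by
        have := adj_dot (A v) b (y s j)
        calc (A v).det * (q s * Y) = q s * ((A v).det * Y) := by ring
          _ = q s * ∑ i, β v i * (A v).mulVec (y s j) i := by rw [← this]
          _ = _ := by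
              rw [Finset.mul_sum]
              exact Finset.sum_congr rfl fun i _ => by ring
      rw [e1]
      refine (hf.sum_le _ _).trans ?_
      rw [Finset.sum_mul]
      exact Finset.sum_le_sum fun i _ => h1 i
    have h10 := LB v (A v).det (hA v)
    calc av v (q s * Y) = 1 * av v (q s * Y) := (one_mul _).symm
      _ ≤ (av v (A v).det * |((A v).det : ℝ)|) * av v (q s * Y) :=
          mul_le_mul_of_nonneg_right h10 ((av v).nonneg _)
      _ = |((A v).det : ℝ)| * (av v (A v).det * av v (q s * Y)) := by ring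
      _ ≤ |((A v).det : ℝ)| * ((∑ i, |(β v i : ℝ)|) * T) :=
          mul_le_mul_of_nonneg_left h9 (abs_nonneg _)
      _ = _ := by
          rw [hT, hKv]
          ring
  have hlt : ∏ v, av v (q s * Y) < 1 := by
    calc ∏ v, av v (q s * Y) ≤ ∏ v, (Kv v * Real.exp ((c' + ∑ i, c v i) * L s)) :=
          Finset.prod_le_prod (fun v _ => (av v).nonneg _) fun v _ => hbound v
      _ = (∏ v, Kv v) * Real.exp (-(γ * L s)) := by
          rw [Finset.prod_mul_distrib, ← Real.exp_sum, ← Finset.sum_mul,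
            Finset.sum_add_distrib]
          simp only [Finset.sum_const, Finset.card_univ, nsmul_eq_mul]
          rw [hγ]
          congr 2
          ring
      _ < Real.exp (γ * L s) * Real.exp (-(γ * L s)) :=
          mul_lt_mul_of_pos_right hsK (Real.exp_pos _)
      _ = 1 := by rw [← Real.exp_add, add_neg_cancel, Real.exp_zero]
  have hqY : q s * Y = 0 := by
    by_contra hne
    exact absurd (PF _ hne) (not_le.2 hlt)
  exact (mul_eq_zero.1 hqY).resolve_left (hq s)

theorem last_min_const {V : Type*} [Fintype V] (av : V → AbsoluteValue ℤ ℝ)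
    (PF : ∀ c : ℤ, c ≠ 0 → 1 ≤ ∏ v, av v c)
    (LB : ∀ v, ∀ c : ℤ, c ≠ 0 → 1 ≤ av v c * |(c : ℝ)|)
    {k : ℕ} (hk : 1 ≤ k) (A : V → Matrix (Fin (k + 1)) (Fin (k + 1)) ℤ)
    (hA : ∀ v, (A v).det ≠ 0) (c : V → Fin (k + 1) → ℝ) (hc : ∑ v, ∑ i, c v i < 0)
    (L : ℕ → ℝ) (hL : Tendsto L atTop atTop)
    (y : ℕ → Fin k → Fin (k + 1) → ℤ)
    (hy : ∀ s, LinearIndependent ℚ (fun j i => (y s j i : ℚ)))
    (hyb : ∀ s v j i, av v ((A v).mulVec (y s j) i) ≤ Real.exp (c v i * L s)) :
    ∃ b : Fin (k + 1) → ℤ, b ≠ 0 ∧ ∃ᶠ s in atTop, ∀ j, ∑ i, b i * y s j i = 0 := by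
  classical
  have h1 := fun s => exists_primitive (cr (y s)) (cr_ne_zero (y s) (hy s))
  choose q a hq hcr u hu using h1
  have ha : ∀ s, a s ≠ 0 := by
    intro s h0
    have := hu s
    rw [h0] at this
    simp at this
  have hay : ∀ s j, ∑ i, a s i * y s j i = 0 := by
    intro s j
    have h2 := cr_dot_self (y s) j
    have h3 : q s * ∑ i, a s i * y s j i = 0 := by
      rw [← h2, Finset.mul_sum]
      exact Finset.sum_congr rfl fun i _ => by rw [hcr]; ring
    exact (mul_eq_zero.1 h3).resolve_left (hq s)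
  have hVne : Nonempty V := by
    by_contra h
    rw [not_nonempty_iff] at h
    simp at hc
  have hcard : (0 : ℝ) < Fintype.card V := by exact_mod_cast Fintype.card_pos
  set c' : ℝ := (-∑ v, ∑ i, c v i) / (2 * Fintype.card V) with hc'
  have hc'pos : 0 < c' := div_pos (by linarith) (by linarith)
  have hc'2 : Fintype.card V * c' + ∑ v, ∑ i, c v i < 0 := by
    have : (Fintype.card V : ℝ) * c' = (-∑ v, ∑ i, c v i) / 2 := by
      rw [hc']
      field_simp
    rw [this]
    linarith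
  by_cases hH : ∃ᶠ s in atTop, ∀ i, |(a s i : ℝ)| < Real.exp (c' * L s)
  · exact last_min_A1 av PF LB A hA c L hL y hyb a ha q hq hcr c' hc'2 hH
  · exfalso
    rw [Filter.not_frequently] at hH
    refine last_min_A2 av PF LB hk A hA c hc L hL y hy hyb a (fun s => ⟨u s, hu s⟩) hay c' hc'pos
      (hH.mono fun s hs => ?_)
    push Not at hs
    exact hs

/-- **The last minimum theorem.** -/
theorem last_min {V : Type*} [Fintype V] (av : V → AbsoluteValue ℤ ℝ)
    (PF : ∀ c : ℤ, c ≠ 0 → 1 ≤ ∏ v, av v c)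
    (LB : ∀ v, ∀ c : ℤ, c ≠ 0 → 1 ≤ av v c * |(c : ℝ)|)
    {k : ℕ} (hk : 1 ≤ k) (A : V → Matrix (Fin (k + 1)) (Fin (k + 1)) ℤ)
    (hA : ∀ v, (A v).det ≠ 0) (κ Δ : ℝ) (hΔ : 0 < Δ)
    (L : ℕ → ℝ) (hL : Tendsto L atTop atTop)
    (c : ℕ → V → Fin (k + 1) → ℝ) (hcκ : ∀ s v i, |c s v i| ≤ κ)
    (hc : ∀ s, ∑ v, ∑ i, c s v i ≤ -Δ)
    (y : ℕ → Fin k → Fin (k + 1) → ℤ)
    (hy : ∀ s, LinearIndependent ℚ (fun j i => (y s j i : ℚ)))
    (hyb : ∀ s v j i, av v ((A v).mulVec (y s j) i) ≤ Real.exp (c s v i * L s)) :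
    ∃ b : Fin (k + 1) → ℤ, b ≠ 0 ∧ ∃ᶠ s in atTop, ∀ j, ∑ i, b i * y s j i = 0 := by
  classical
  have hVne : Nonempty V := by
    by_contra h
    rw [not_nonempty_iff] at h
    have := hc 0
    simp at this
    linarith
  have hcard : (0 : ℝ) < Fintype.card V := by exact_mod_cast Fintype.card_pos
  have hN : (0 : ℝ) < ((k + 1 : ℕ) : ℝ) := by positivity
  set δ : ℝ := Δ / (2 * Fintype.card V * ((k + 1 : ℕ) : ℝ)) with hδ
  have hδpos : 0 < δ := by positivity
  set B : ℤ := ⌈κ / δ⌉ + 1 with hB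
  have hmem : ∀ s v i, ⌈c s v i / δ⌉ ∈ Finset.Icc (-B) B := by
    intro s v i
    rw [Finset.mem_Icc]
    have h1 := hcκ s v i
    rw [abs_le] at h1
    have h2 : c s v i / δ ≤ κ / δ := div_le_div_of_nonneg_right h1.2 hδpos.le
    have h3 : -(κ / δ) ≤ c s v i / δ := by
      rw [← neg_div]
      exact div_le_div_of_nonneg_right h1.1 hδpos.le
    constructor
    · have h4 : (-B : ℝ) ≤ c s v i / δ := by
        have := Int.le_ceil (κ / δ)
        rw [hB]
        push_cast
        linarith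
      have h5 := h4.trans (Int.le_ceil _)
      exact_mod_cast h5
    · have := Int.ceil_le_ceil h2
      omega
  set f : ℕ → (V × Fin (k + 1) → ↥(Finset.Icc (-B) B)) := fun s x =>
    ⟨⌈c s x.1 x.2 / δ⌉, hmem s x.1 x.2⟩ with hf
  have hfreq : ∃ᶠ s in atTop, 0 ≤ L s := (hL.eventually_ge_atTop 0).frequently
  obtain ⟨x, hx⟩ := freq_pigeon f hfreq
  obtain ⟨φ, hφ, hφx⟩ := Filter.extraction_of_frequently_atTop hx
  have hval : ∀ n v i, (((x (v, i)) : ℤ) : ℝ) = ⌈c (φ n) v i / δ⌉ := by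
    intro n v i
    have := congrFun (hφx n).2 (v, i)
    rw [← this]
  have hle : ∀ n v i, c (φ n) v i ≤ δ * (((x (v, i)) : ℤ) : ℝ) := by
    intro n v i
    rw [hval n v i]
    have := Int.le_ceil (c (φ n) v i / δ)
    rw [div_le_iff₀ hδpos] at this
    linarith
  have hlt : ∀ n v i, δ * (((x (v, i)) : ℤ) : ℝ) ≤ c (φ n) v i + δ := by
    intro n v i
    rw [hval n v i]
    have h1 := (Int.ceil_lt_add_one (c (φ n) v i / δ)).le
    have h2 := mul_le_mul_of_nonneg_left h1 hδpos.le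
    have h3 : δ * (c (φ n) v i / δ + 1) = c (φ n) v i + δ := by
      field_simp
    linarith
  obtain ⟨b, hb, hfr⟩ := last_min_const av PF LB hk A hA
    (fun v i => δ * (((x (v, i)) : ℤ) : ℝ))
    (by
      have h1 : ∑ v, ∑ i, δ * (((x (v, i)) : ℤ) : ℝ) ≤ ∑ v : V, ∑ i, (c (φ 0) v i + δ) :=
        Finset.sum_le_sum fun v _ => Finset.sum_le_sum fun i _ => hlt 0 v i
      have h2 : ∑ v : V, ∑ i, (c (φ 0) v i + δ) = ∑ v, ∑ i, c (φ 0) v i + Δ / 2 := by
        simp only [Finset.sum_add_distrib, Finset.sum_const, Finset.card_univ, nsmul_eq_mul,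
          Fintype.card_fin]
        rw [hδ]
        congr 1
        field_simp
      have := hc (φ 0)
      linarith)
    (L ∘ φ) (hL.comp hφ.tendsto_atTop) (fun n => y (φ n)) (fun n => hy _)
    (fun n v j i => (hyb (φ n) v j i).trans (by
      rw [Real.exp_le_exp]
      exact mul_le_mul_of_nonneg_right (hle n v i) (hφx n).1))
  refine ⟨b, hb, ?_⟩
  exact hφ.tendsto_atTop.frequently hfr

end Pool.Agent.Lib.Subspace
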