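import Pool.Agent.Lib.SubspaceH15.Lattice

/-!
# The lattices of the Subspace theorem for an arbitrary finite set of primes
-/

namespace Pool.Agent.Lib.Subspace

open Finset Module

variable {N : ℕ} {ι : Type} [Fintype ι] [DecidableEq ι]

/-- `{Y | p i ^ e i k ∣ (A i Y) k}` -/
def latS (p : ι → ℕ) (A : ι → Matrix (Fin N) (Fin N) ℤ) (e : ι → Fin N → ℕ) :
    AddSubgroup (Fin N → ℤ) where
  carrier := {Y | ∀ i k, (p i : ℤ) ^ (e i k) ∣ ((A i).mulVec Y) k}
  zero_mem' := by intro i k; simp [Matrix.mulVec_zero]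
  add_mem' := by
    intro a b ha hb i k
    rw [Matrix.mulVec_add, Pi.add_apply]
    exact dvd_add (ha i k) (hb i k)
  neg_mem' := by
    intro a ha i k
    rw [Matrix.mulVec_neg, Pi.neg_apply]
    exact (ha i k).neg_right

omit [Fintype ι] [DecidableEq ι] in
theorem mem_latS {p : ι → ℕ} {A : ι → Matrix (Fin N) (Fin N) ℤ} {e : ι → Fin N → ℕ}
    {Y : Fin N → ℤ} : Y ∈ latS p A e ↔ ∀ i k, (p i : ℤ) ^ (e i k) ∣ ((A i).mulVec Y) k := Iff.rfl

/-- reduction of the values of the forms -/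
def redS (p : ι → ℕ) (A : ι → Matrix (Fin N) (Fin N) ℤ) (e : ι → Fin N → ℕ) :
    (Fin N → ℤ) →+ ((x : ι × Fin N) → ZMod (p x.1 ^ e x.1 x.2)) where
  toFun Y := fun x => (((A x.1).mulVec Y x.2 : ℤ) : ZMod (p x.1 ^ e x.1 x.2))
  map_zero' := by
    funext x
    simp [Matrix.mulVec_zero]
  map_add' a b := by
    funext x
    simp [Matrix.mulVec_add]

omit [Fintype ι] [DecidableEq ι] in
theorem ker_redS (p : ι → ℕ) (A : ι → Matrix (Fin N) (Fin N) ℤ) (e : ι → Fin N → ℕ) :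
    (redS p A e).ker = latS p A e := by
  ext Y
  rw [AddMonoidHom.mem_ker, mem_latS]
  simp only [redS, AddMonoidHom.coe_mk, ZeroHom.coe_mk, funext_iff,
    Pi.zero_apply, ZMod.intCast_zmod_eq_zero_iff_dvd, Nat.cast_pow, Prod.forall]

theorem latS_index_ne_zero {p : ι → ℕ} (hp : ∀ i, (p i).Prime)
    (A : ι → Matrix (Fin N) (Fin N) ℤ) (e : ι → Fin N → ℕ) : (latS p A e).index ≠ 0 := by
  have : ∀ x : ι × Fin N, NeZero (p x.1 ^ e x.1 x.2) := fun x => ⟨pow_ne_zero _ (hp _).ne_zero⟩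
  rw [← ker_redS, AddSubgroup.index_ker]
  exact Nat.card_pos.ne'

theorem latS_index_le {p : ι → ℕ} (hp : ∀ i, (p i).Prime)
    (A : ι → Matrix (Fin N) (Fin N) ℤ) (e : ι → Fin N → ℕ) :
    (latS p A e).index ≤ ∏ i, (p i) ^ (∑ k, e i k) := by
  have : ∀ x : ι × Fin N, NeZero (p x.1 ^ e x.1 x.2) := fun x => ⟨pow_ne_zero _ (hp _).ne_zero⟩
  rw [← ker_redS, AddSubgroup.index_ker]
  refine (Nat.card_le_card_of_injective _ Subtype.val_injective).trans ?_
  rw [Nat.card_pi]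
  simp only [Nat.card_zmod]
  rw [Fintype.prod_prod_type]
  simp only [prod_pow_eq_pow_sum]
  exact le_rfl

theorem le_latS_index {p : ι → ℕ} (hp : ∀ i, (p i).Prime) (hinj : Function.Injective p)
    {A : ι → Matrix (Fin N) (Fin N) ℤ} (hA : ∀ i, (A i).det ≠ 0) (e : ι → Fin N → ℕ) :
    ∏ i, (p i) ^ (∑ k, e i k) ≤ (∏ i, (A i).det).natAbs * (latS p A e).index := by
  classical
  have : (latS p A e).FiniteIndex := ⟨latS_index_ne_zero hp A e⟩
  have hr : finrank ℤ (latS p A e) = N := by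
    rw [AddSubgroup.finrank_eq_of_finiteIndex]
    simp
  have : Module.Free ℤ (latS p A e) :=
    inferInstanceAs (Module.Free ℤ (AddSubgroup.toIntSubmodule (latS p A e)))
  have : Module.Finite ℤ (latS p A e) :=
    inferInstanceAs (Module.Finite ℤ (AddSubgroup.toIntSubmodule (latS p A e)))
  let b : Basis (Fin N) ℤ (latS p A e) := finBasisOfFinrankEq ℤ _ hr
  have hidx := AddSubgroup.index_eq_natAbs_det (Pi.basisFun ℤ (Fin N)) (latS p A e) b
  set B : Matrix (Fin N) (Fin N) ℤ := Matrix.of (fun k j => ((b j : latS p A e) : Fin N → ℤ) k)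
    with hB
  have hdet : (Pi.basisFun ℤ (Fin N)).det (fun j => ((b j : latS p A e) : Fin N → ℤ)) = B.det := by
    rw [Basis.det_apply]
    congr 1
  rw [hdet] at hidx
  have hd : ∀ i, (p i : ℤ) ^ (∑ k, e i k) ∣ (A i).det * B.det := by
    intro i
    apply SubspaceH15.pow_sum_dvd_det
    intro k j
    have := (mem_latS.1 (b j).2) i k
    simpa [Matrix.mul_apply, Matrix.mulVec, dotProduct, hB] using this
  have hprod : ∏ i, (p i : ℤ) ^ (∑ k, e i k) ∣ (∏ i, (A i).det) * B.det := by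
    apply Finset.prod_dvd_of_coprime
    · intro i _ j _ hij
      apply IsCoprime.pow
      rw [Nat.isCoprime_iff_coprime, Nat.coprime_primes (hp i) (hp j)]
      exact fun h => hij (hinj h)
    · intro i _
      exact (hd i).trans (mul_dvd_mul_right (Finset.dvd_prod_of_mem _ (Finset.mem_univ i)) _)
  have hB0 : B.det ≠ 0 := by
    intro h0
    rw [h0] at hidx
    exact latS_index_ne_zero hp A e (by simpa using hidx)
  have hne : (∏ i, (A i).det) * B.det ≠ 0 :=
    mul_ne_zero (Finset.prod_ne_zero_iff.2 fun i _ => hA i) hB0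
  have hle := Nat.le_of_dvd (Int.natAbs_pos.2 hne) (Int.natAbs_dvd_natAbs.2 hprod)
  rw [Int.natAbs_mul, ← hidx] at hle
  refine le_trans (le_of_eq ?_) hle
  have h1 : ∏ i, (p i : ℤ) ^ (∑ k, e i k) = ((∏ i, (p i) ^ (∑ k, e i k) : ℕ) : ℤ) := by
    push_cast
    rfl
  rw [h1, Int.natAbs_natCast]

end Pool.Agent.Lib.Subspace
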