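import Pool.Agent.Lib.Subspace.Hasse

/-!
# Weighted norms and index conditions for polynomials in several variables
-/

namespace Pool.Agent.Lib.Subspace

open MvPolynomial

/-- a submultiplicative seminorm on a ring -/
structure IsNm {R : Type*} [CommRing R] (f : R → ℝ) : Prop where
  nonneg : ∀ x, 0 ≤ f x
  zero : f 0 = 0
  one : f 1 = 1
  neg : ∀ x, f (-x) = f x
  add_le : ∀ x y, f (x + y) ≤ f x + f y
  mul_le : ∀ x y, f (x * y) ≤ f x * f y

theorem isNm_abv {R : Type*} [CommRing R] [IsDomain R] (v : AbsoluteValue R ℝ) : IsNm v :=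
  ⟨fun x => v.nonneg x, v.map_zero, v.map_one, fun x => v.map_neg x, fun x y => v.add_le x y,
    fun x y => (v.map_mul x y).le⟩

theorem isNm_int : IsNm (fun x : ℤ => |(x : ℝ)|) :=
  ⟨fun x => abs_nonneg _, by simp, by simp, by simp, fun x y => by push_cast; exact abs_add_le _ _,
    fun x y => by push_cast; exact (abs_mul _ _).le⟩

section

variable {σ τ : Type*} [Fintype σ] [Fintype τ] {R : Type*} [CommRing R]

/-- weighted `l1` norm of a polynomial -/
noncomputable def wnorm (f : R → ℝ) (r : σ → ℝ) (P : MvPolynomial σ R) : ℝ :=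
  ∑ J ∈ P.support, f (coeff J P) * ∏ k, r k ^ J k

variable {f : R → ℝ} (hf : IsNm f)

include hf

theorem IsNm.sum_le {ι : Type*} (s : Finset ι) (g : ι → R) :
    f (∑ i ∈ s, g i) ≤ ∑ i ∈ s, f (g i) := by
  classical
  induction s using Finset.induction_on with
  | empty => simp [hf.zero]
  | insert a s ha ih =>
    rw [Finset.sum_insert ha, Finset.sum_insert ha]
    exact (hf.add_le _ _).trans (by linarith)

theorem IsNm.prod_le {ι : Type*} (s : Finset ι) (g : ι → R) :
    f (∏ i ∈ s, g i) ≤ ∏ i ∈ s, f (g i) := by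
  classical
  induction s using Finset.induction_on with
  | empty => simp [hf.one]
  | insert a s ha ih =>
    rw [Finset.prod_insert ha, Finset.prod_insert ha]
    exact (hf.mul_le _ _).trans (mul_le_mul_of_nonneg_left ih (hf.nonneg _))

theorem IsNm.pow_le (x : R) (n : ℕ) : f (x ^ n) ≤ f x ^ n := by
  have := hf.prod_le (Finset.range n) (fun _ => x)
  simpa using this

theorem IsNm.natCast_le (n : ℕ) : f (n : R) ≤ n := by
  induction n with
  | zero => simp [hf.zero]
  | succ n ih =>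
    push_cast
    exact (hf.add_le _ _).trans (by rw [hf.one]; linarith)

theorem wnorm_eq_of_subset {r : σ → ℝ} {P : MvPolynomial σ R} {s : Finset (σ →₀ ℕ)}
    (hs : P.support ⊆ s) : wnorm f r P = ∑ J ∈ s, f (coeff J P) * ∏ k, r k ^ J k := by
  unfold wnorm
  apply Finset.sum_subset hs
  intro J _ hJ
  rw [notMem_support_iff.1 hJ, hf.zero, zero_mul]

theorem wnorm_nonneg {r : σ → ℝ} (hr : ∀ k, 0 ≤ r k) (P : MvPolynomial σ R) :
    0 ≤ wnorm f r P :=
  Finset.sum_nonneg fun _ _ => mul_nonneg (hf.nonneg _)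
    (Finset.prod_nonneg fun k _ => pow_nonneg (hr k) _)

omit hf in
theorem wnorm_zero' (r : σ → ℝ) : wnorm f r (0 : MvPolynomial σ R) = 0 := by
  simp [wnorm]

theorem wnorm_add_le {r : σ → ℝ} (hr : ∀ k, 0 ≤ r k) (P Q : MvPolynomial σ R) :
    wnorm f r (P + Q) ≤ wnorm f r P + wnorm f r Q := by
  classical
  rw [wnorm_eq_of_subset hf (s := P.support ∪ Q.support) support_add,
    wnorm_eq_of_subset hf (s := P.support ∪ Q.support) Finset.subset_union_left,
    wnorm_eq_of_subset hf (s := P.support ∪ Q.support) Finset.subset_union_right,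
    ← Finset.sum_add_distrib]
  refine Finset.sum_le_sum fun J _ => ?_
  rw [← add_mul, coeff_add]
  exact mul_le_mul_of_nonneg_right (hf.add_le _ _)
    (Finset.prod_nonneg fun k _ => pow_nonneg (hr k) _)

theorem wnorm_sum_le {ι : Type*} {r : σ → ℝ} (hr : ∀ k, 0 ≤ r k) (s : Finset ι)
    (g : ι → MvPolynomial σ R) : wnorm f r (∑ i ∈ s, g i) ≤ ∑ i ∈ s, wnorm f r (g i) := by
  classical
  induction s using Finset.induction_on with
  | empty => simp [wnorm_zero']
  | insert a s ha ih =>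
    rw [Finset.sum_insert ha, Finset.sum_insert ha]
    exact (wnorm_add_le hf hr _ _).trans (by linarith)

theorem wnorm_monomial (r : σ → ℝ) (J : σ →₀ ℕ) (c : R) :
    wnorm f r (monomial J c) = f c * ∏ k, r k ^ J k := by
  classical
  rw [wnorm_eq_of_subset hf (s := {J}) (support_monomial_subset)]
  simp

theorem wnorm_C (r : σ → ℝ) (c : R) : wnorm f r (C c : MvPolynomial σ R) = f c := by
  have := wnorm_monomial hf r 0 c
  simpa using this

theorem wnorm_one (r : σ → ℝ) : wnorm f r (1 : MvPolynomial σ R) = 1 := by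
  have := wnorm_C hf r 1
  rwa [C_1, hf.one] at this

theorem wnorm_X (r : σ → ℝ) (k : σ) : wnorm f r (X k : MvPolynomial σ R) = r k := by
  classical
  have := wnorm_monomial hf r (Finsupp.single k 1) 1
  rw [hf.one, one_mul] at this
  unfold X
  rw [this, Finset.prod_eq_single k]
  · simp
  · intro b _ hb
    rw [Finsupp.single_apply, if_neg (Ne.symm hb), pow_zero]
  · simp

theorem wnorm_mul_le {r : σ → ℝ} (hr : ∀ k, 0 ≤ r k) (P Q : MvPolynomial σ R) :
    wnorm f r (P * Q) ≤ wnorm f r P * wnorm f r Q := by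
  classical
  have h1 : P * Q = ∑ J ∈ P.support, ∑ K ∈ Q.support,
      monomial (J + K) (coeff J P * coeff K Q) := by
    conv_lhs => rw [P.as_sum, Q.as_sum, Finset.sum_mul_sum]
    refine Finset.sum_congr rfl fun J _ => Finset.sum_congr rfl fun K _ => ?_
    rw [monomial_mul]
  rw [h1]
  refine (wnorm_sum_le hf hr _ _).trans ?_
  calc ∑ J ∈ P.support, wnorm f r (∑ K ∈ Q.support, monomial (J + K) (coeff J P * coeff K Q))
      ≤ ∑ J ∈ P.support, ∑ K ∈ Q.support, (f (coeff J P) * ∏ k, r k ^ J k) *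
          (f (coeff K Q) * ∏ k, r k ^ K k) := by
        refine Finset.sum_le_sum fun J _ => (wnorm_sum_le hf hr _ _).trans ?_
        refine Finset.sum_le_sum fun K _ => ?_
        rw [wnorm_monomial hf]
        have e : ∏ k, r k ^ (J + K) k = (∏ k, r k ^ J k) * ∏ k, r k ^ K k := by
          rw [← Finset.prod_mul_distrib]
          exact Finset.prod_congr rfl fun k _ => by rw [Finsupp.add_apply, pow_add]
        rw [e]
        have h2 := hf.mul_le (coeff J P) (coeff K Q)
        have h3 : 0 ≤ (∏ k, r k ^ J k) * ∏ k, r k ^ K k :=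
          mul_nonneg (Finset.prod_nonneg fun k _ => pow_nonneg (hr k) _)
            (Finset.prod_nonneg fun k _ => pow_nonneg (hr k) _)
        calc f (coeff J P * coeff K Q) * ((∏ k, r k ^ J k) * ∏ k, r k ^ K k)
            ≤ (f (coeff J P) * f (coeff K Q)) * ((∏ k, r k ^ J k) * ∏ k, r k ^ K k) :=
              mul_le_mul_of_nonneg_right h2 h3
          _ = _ := by ring
    _ = _ := by
        unfold wnorm
        rw [Finset.sum_mul_sum]

theorem wnorm_pow_le {r : σ → ℝ} (hr : ∀ k, 0 ≤ r k) (P : MvPolynomial σ R) (n : ℕ) :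
    wnorm f r (P ^ n) ≤ wnorm f r P ^ n := by
  induction n with
  | zero => simp [wnorm_one hf]
  | succ n ih =>
    rw [pow_succ, pow_succ]
    exact (wnorm_mul_le hf hr _ _).trans (mul_le_mul_of_nonneg_right ih (wnorm_nonneg hf hr _))

theorem wnorm_prod_le {ι : Type*} {r : σ → ℝ} (hr : ∀ k, 0 ≤ r k) (s : Finset ι)
    (g : ι → MvPolynomial σ R) : wnorm f r (∏ i ∈ s, g i) ≤ ∏ i ∈ s, wnorm f r (g i) := by
  classical
  induction s using Finset.induction_on with
  | empty => simp [wnorm_one hf]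
  | insert a s ha ih =>
    rw [Finset.prod_insert ha, Finset.prod_insert ha]
    exact (wnorm_mul_le hf hr _ _).trans (mul_le_mul_of_nonneg_left ih (wnorm_nonneg hf hr _))

theorem coeff_le_wnorm {r : σ → ℝ} (hr : ∀ k, 0 ≤ r k) (P : MvPolynomial σ R) (J : σ →₀ ℕ) :
    f (coeff J P) * ∏ k, r k ^ J k ≤ wnorm f r P := by
  classical
  by_cases hJ : J ∈ P.support
  · exact Finset.single_le_sum (f := fun J => f (coeff J P) * ∏ k, r k ^ J k)
      (fun K _ => mul_nonneg (hf.nonneg _) (Finset.prod_nonneg fun k _ => pow_nonneg (hr k) _)) hJ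
  · rw [notMem_support_iff.1 hJ, hf.zero, zero_mul]
    exact wnorm_nonneg hf hr P

theorem coeff_le_wnorm_one (P : MvPolynomial σ R) (J : σ →₀ ℕ) :
    f (coeff J P) ≤ wnorm f 1 P := by
  have := coeff_le_wnorm hf (r := 1) (fun _ => zero_le_one) P J
  simpa using this

theorem wnorm_mono {r r' : σ → ℝ} (hr : ∀ k, 0 ≤ r k) (h : ∀ k, r k ≤ r' k)
    (P : MvPolynomial σ R) : wnorm f r P ≤ wnorm f r' P := by
  refine Finset.sum_le_sum fun J _ => mul_le_mul_of_nonneg_left ?_ (hf.nonneg _)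
  exact Finset.prod_le_prod (fun k _ => pow_nonneg (hr k) _)
    fun k _ => pow_le_pow_left₀ (hr k) (h k) _

/-- norm of a substitution -/
theorem wnorm_aeval_le {r : τ → ℝ} (hr : ∀ k, 0 ≤ r k) (F : σ → MvPolynomial τ R)
    (P : MvPolynomial σ R) :
    wnorm f r (aeval F P) ≤ wnorm f (fun k => wnorm f r (F k)) P := by
  classical
  conv_lhs => rw [P.as_sum, map_sum]
  refine (wnorm_sum_le hf hr _ _).trans ?_
  refine Finset.sum_le_sum fun J _ => ?_
  rw [aeval_monomial, Finsupp.prod_fintype _ _ (by simp)]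
  refine (wnorm_mul_le hf hr _ _).trans ?_
  rw [algebraMap_eq, wnorm_C hf]
  refine mul_le_mul_of_nonneg_left ((wnorm_prod_le hf hr _ _).trans ?_) (hf.nonneg _)
  exact Finset.prod_le_prod (fun k _ => wnorm_nonneg hf hr _) fun k _ => wnorm_pow_le hf hr _ _

theorem eval_le_wnorm (z : σ → R) (P : MvPolynomial σ R) :
    f (eval z P) ≤ wnorm f (fun k => f (z k)) P := by
  classical
  rw [eval_eq']
  refine (hf.sum_le _ _).trans (Finset.sum_le_sum fun J _ => (hf.mul_le _ _).trans ?_)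
  refine mul_le_mul_of_nonneg_left ((hf.prod_le _ _).trans ?_) (hf.nonneg _)
  exact Finset.prod_le_prod (fun k _ => hf.nonneg _) fun k _ => hf.pow_le _ _

omit hf in
theorem mch_le (J i : σ →₀ ℕ) : mch J i ≤ 2 ^ (∑ k, J k) := by
  unfold mch
  rw [← Finset.prod_pow_eq_pow_sum]
  exact Finset.prod_le_prod' fun k _ => Nat.choose_le_two_pow _ _

theorem wnorm_hd_le (i : σ →₀ ℕ) (P : MvPolynomial σ R) (D : ℕ)
    (hD : ∀ J ∈ P.support, ∑ k, J k ≤ D) : wnorm f 1 (hd i P) ≤ 2 ^ D * wnorm f 1 P := by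
  classical
  have hr1 : ∀ k : σ, (0 : ℝ) ≤ (1 : σ → ℝ) k := fun _ => zero_le_one
  rw [hd_eq_sum]
  refine (wnorm_sum_le hf hr1 _ _).trans ?_
  have h0 : wnorm f 1 P = ∑ J ∈ P.support, f (coeff J P) * ∏ k, (1 : σ → ℝ) k ^ J k := rfl
  rw [h0, Finset.mul_sum]
  refine Finset.sum_le_sum fun J hJ => ?_
  rw [wnorm_monomial hf (1 : σ → ℝ) (J - i) ((mch J i : R) * coeff J P)]
  simp only [Pi.one_apply, one_pow, Finset.prod_const_one, mul_one]
  refine (hf.mul_le _ _).trans (mul_le_mul_of_nonneg_right ?_ (hf.nonneg _))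
  refine (hf.natCast_le _).trans ?_
  calc ((mch J i : ℕ) : ℝ) ≤ ((2 ^ (∑ k, J k) : ℕ) : ℝ) := by exact_mod_cast mch_le J i
    _ = 2 ^ (∑ k, J k) := by push_cast; rfl
    _ ≤ 2 ^ D := pow_le_pow_right₀ (by norm_num) (hD J hJ)

theorem wnorm_det_le {s : ℕ} (E : Matrix (Fin s) (Fin s) (MvPolynomial σ R)) {B : ℝ}
    (hE : ∀ i j, wnorm f 1 (E i j) ≤ B) : wnorm f 1 E.det ≤ (s.factorial : ℝ) * B ^ s := by
  classical
  have h1 : ∀ k : σ, (0 : ℝ) ≤ (1 : σ → ℝ) k := fun _ => zero_le_one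
  rw [Matrix.det_apply]
  refine (wnorm_sum_le hf h1 _ _).trans ?_
  have h2 : ∀ π ∈ (Finset.univ : Finset (Equiv.Perm (Fin s))),
      wnorm f 1 (Equiv.Perm.sign π • ∏ i, E (π i) i) ≤ B ^ s := by
    intro π _
    have hsign : wnorm f 1 (Equiv.Perm.sign π • ∏ i, E (π i) i) =
        wnorm f 1 (∏ i, E (π i) i) := by
      rcases Int.units_eq_one_or (Equiv.Perm.sign π) with h | h
      · rw [h, one_smul]
      · rw [h, Units.neg_smul, one_smul]
        unfold wnorm
        rw [support_neg]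
        refine Finset.sum_congr rfl fun J _ => ?_
        rw [coeff_neg]
        rw [hf.neg]
    rw [hsign]
    refine (wnorm_prod_le hf h1 _ _).trans ?_
    calc ∏ i, wnorm f 1 (E (π i) i) ≤ ∏ _i : Fin s, B :=
          Finset.prod_le_prod (fun i _ => wnorm_nonneg hf h1 _) fun i _ => hE _ _
      _ = B ^ s := by simp
  calc ∑ π, wnorm f 1 (Equiv.Perm.sign π • ∏ i, E (π i) i) ≤ ∑ _π : Equiv.Perm (Fin s), B ^ s :=
        Finset.sum_le_sum h2
    _ = _ := by
        rw [Finset.sum_const, Finset.card_univ, Fintype.card_perm, Fintype.card_fin, nsmul_eq_mul]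

end

end Pool.Agent.Lib.Subspace
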