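import Mathlib

/-!
# The places `∞, 2, 3` of the rational integers
-/

namespace Pool.Agent.Lib.Subspace

/-- the usual absolute value -/
noncomputable def avR : AbsoluteValue ℤ ℝ where
  toFun x := |(x : ℝ)|
  map_mul' x y := by push_cast; exact abs_mul _ _
  nonneg' x := abs_nonneg _
  eq_zero' x := by simp
  add_le' x y := by push_cast; exact abs_add_le _ _

theorem avR_apply (x : ℤ) : avR x = |(x : ℝ)| := rfl

/-- the `p`-adic absolute value -/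
noncomputable def avp (p : ℕ) [Fact p.Prime] : AbsoluteValue ℤ ℝ where
  toFun x := ((padicNorm p (x : ℚ) : ℚ) : ℝ)
  map_mul' x y := by
    rw [Int.cast_mul, padicNorm.mul, Rat.cast_mul]
  nonneg' x := by exact_mod_cast padicNorm.nonneg _
  eq_zero' x := by
    rw [Rat.cast_eq_zero]
    constructor
    · intro h
      have := padicNorm.zero_of_padicNorm_eq_zero h
      exact_mod_cast this
    · rintro rfl
      simp
  add_le' x y := by
    have := padicNorm.triangle_ineq (p := p) (x : ℚ) (y : ℚ)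
    push_cast
    exact_mod_cast this

theorem avp_apply (p : ℕ) [Fact p.Prime] (x : ℤ) :
    avp p x = ((padicNorm p (x : ℚ) : ℚ) : ℝ) := rfl

theorem avp_le_of_dvd (p : ℕ) [Fact p.Prime] (x : ℤ) (e : ℕ) (h : (p : ℤ) ^ e ∣ x) :
    avp p x ≤ ((p : ℝ) ^ e)⁻¹ := by
  rw [avp_apply]
  have h1 : padicNorm p (x : ℚ) ≤ (p : ℚ) ^ (-(e : ℤ)) := by
    rw [← padicNorm.dvd_iff_norm_le]
    exact_mod_cast h
  rw [zpow_neg, zpow_natCast] at h1
  have h2 : ((padicNorm p (x : ℚ) : ℚ) : ℝ) ≤ ((((p : ℚ) ^ e)⁻¹ : ℚ) : ℝ) := by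
    exact_mod_cast h1
  push_cast at h2
  exact h2

theorem avp_mul_pow (p : ℕ) [Fact p.Prime] (x : ℤ) (hx : x ≠ 0) :
    avp p x * (p : ℝ) ^ (padicValInt p x) = 1 := by
  rw [avp_apply]
  have hx' : (x : ℚ) ≠ 0 := by exact_mod_cast hx
  have hp : (p : ℚ) ≠ 0 := by exact_mod_cast (Fact.out : p.Prime).ne_zero
  have h1 : padicNorm p (x : ℚ) * (p : ℚ) ^ (padicValInt p x) = 1 := by
    rw [padicNorm.eq_zpow_of_nonzero hx', padicValRat.of_int, zpow_neg, zpow_natCast]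
    exact inv_mul_cancel₀ (pow_ne_zero _ hp)
  exact_mod_cast h1

instance fact2 : Fact (Nat.Prime 2) := ⟨Nat.prime_two⟩
instance fact3 : Fact (Nat.Prime 3) := ⟨Nat.prime_three⟩

/-- the three places -/
noncomputable def av3 : Fin 3 → AbsoluteValue ℤ ℝ := ![avR, avp 2, avp 3]

theorem av3_prod (c : ℤ) (hc : c ≠ 0) : 1 ≤ ∏ v, av3 v c := by
  rw [Fin.prod_univ_three]
  show 1 ≤ avR c * avp 2 c * avp 3 c
  have h2 := avp_mul_pow 2 c hc
  have h3 := avp_mul_pow 3 c hc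
  set a := padicValInt 2 c
  set b := padicValInt 3 c
  have hd2 : ((2 : ℕ) : ℤ) ^ a ∣ c := padicValInt_dvd c
  have hd3 : ((3 : ℕ) : ℤ) ^ b ∣ c := padicValInt_dvd c
  have hcop : IsCoprime (((2 : ℕ) : ℤ) ^ a) (((3 : ℕ) : ℤ) ^ b) := by
    apply IsCoprime.pow
    rw [Int.isCoprime_iff_gcd_eq_one]
    rfl
  have hd : ((2 : ℕ) : ℤ) ^ a * ((3 : ℕ) : ℤ) ^ b ∣ c := hcop.mul_dvd hd2 hd3
  have hle : ((2 : ℕ) : ℤ) ^ a * ((3 : ℕ) : ℤ) ^ b ≤ |c| :=
    Int.le_of_dvd (abs_pos.2 hc) ((dvd_abs _ _).2 hd)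
  have hle' : (2 : ℝ) ^ a * 3 ^ b ≤ avR c := by
    rw [avR_apply]
    exact_mod_cast hle
  have h2pos : 0 ≤ avp 2 c := (avp 2).nonneg _
  have h3pos : 0 ≤ avp 3 c := (avp 3).nonneg _
  push_cast at h2 h3
  calc (1 : ℝ) = (avp 2 c * 2 ^ a) * (avp 3 c * 3 ^ b) := by rw [h2, h3, one_mul]
    _ = (2 ^ a * 3 ^ b) * avp 2 c * avp 3 c := by ring
    _ ≤ avR c * avp 2 c * avp 3 c := by
        apply mul_le_mul_of_nonneg_right _ h3pos
        exact mul_le_mul_of_nonneg_right hle' h2pos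

theorem avp_lb (p : ℕ) [Fact p.Prime] (c : ℤ) (hc : c ≠ 0) : 1 ≤ avp p c * |(c : ℝ)| := by
  have h2 := avp_mul_pow p c hc
  have hd : ((p : ℕ) : ℤ) ^ (padicValInt p c) ∣ c := padicValInt_dvd c
  have hle : ((p : ℕ) : ℤ) ^ (padicValInt p c) ≤ |c| :=
    Int.le_of_dvd (abs_pos.2 hc) ((dvd_abs _ _).2 hd)
  have hle' : (p : ℝ) ^ (padicValInt p c) ≤ |(c : ℝ)| := by exact_mod_cast hle
  rw [← h2]
  exact mul_le_mul_of_nonneg_left hle' ((avp p).nonneg _)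

theorem av3_lb (v : Fin 3) (c : ℤ) (hc : c ≠ 0) : 1 ≤ av3 v c * |(c : ℝ)| := by
  have h1 : (1 : ℝ) ≤ |(c : ℝ)| := by exact_mod_cast Int.one_le_abs hc
  fin_cases v
  · show 1 ≤ avR c * |(c : ℝ)|
    rw [avR_apply]
    nlinarith
  · exact avp_lb 2 c hc
  · exact avp_lb 3 c hc

section General

variable {ι : Type*} [Fintype ι]

/-- the places `∞` and `pr i` -/
noncomputable def avS (pr : ι → ℕ) (hp : ∀ i, (pr i).Prime) : Option ι → AbsoluteValue ℤ ℝ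
  | none => avR
  | some i => haveI : Fact (pr i).Prime := ⟨hp i⟩; avp (pr i)

omit [Fintype ι] in
theorem avS_none (pr : ι → ℕ) (hp : ∀ i, (pr i).Prime) (c : ℤ) :
    avS pr hp none c = |(c : ℝ)| := rfl

omit [Fintype ι] in
theorem avS_some_le (pr : ι → ℕ) (hp : ∀ i, (pr i).Prime) (i : ι) (x : ℤ) (e : ℕ)
    (h : (pr i : ℤ) ^ e ∣ x) : avS pr hp (some i) x ≤ ((pr i : ℝ) ^ e)⁻¹ := by
  haveI : Fact (pr i).Prime := ⟨hp i⟩
  exact avp_le_of_dvd (pr i) x e h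

theorem avS_prod (pr : ι → ℕ) (hp : ∀ i, (pr i).Prime) (hinj : Function.Injective pr) (c : ℤ)
    (hc : c ≠ 0) : 1 ≤ ∏ v, avS pr hp v c := by
  classical
  rw [Fintype.prod_option]
  set a : ι → ℕ := fun i => padicValInt (pr i) c with ha
  have h1 : ∀ i, avS pr hp (some i) c * (pr i : ℝ) ^ a i = 1 := by
    intro i
    haveI : Fact (pr i).Prime := ⟨hp i⟩
    exact avp_mul_pow (pr i) c hc
  have hd : ∏ i, (pr i : ℤ) ^ a i ∣ c := by
    apply Finset.prod_dvd_of_coprime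
    · intro i _ j _ hij
      apply IsCoprime.pow
      rw [Nat.isCoprime_iff_coprime, Nat.coprime_primes (hp i) (hp j)]
      exact fun h => hij (hinj h)
    · intro i _
      haveI : Fact (pr i).Prime := ⟨hp i⟩
      exact padicValInt_dvd c
  have hle : ∏ i, (pr i : ℤ) ^ a i ≤ |c| :=
    Int.le_of_dvd (abs_pos.2 hc) ((dvd_abs _ _).2 hd)
  have hle' : ∏ i, (pr i : ℝ) ^ a i ≤ |(c : ℝ)| := by exact_mod_cast hle
  rw [avS_none]
  have hnn : 0 ≤ ∏ i, avS pr hp (some i) c :=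
    Finset.prod_nonneg fun i _ => (avS pr hp (some i)).nonneg _
  calc (1 : ℝ) = ∏ i, (avS pr hp (some i) c * (pr i : ℝ) ^ a i) := by
        rw [Finset.prod_congr rfl fun i _ => h1 i, Finset.prod_const_one]
    _ = (∏ i, (pr i : ℝ) ^ a i) * ∏ i, avS pr hp (some i) c := by
        rw [Finset.prod_mul_distrib, mul_comm]
    _ ≤ |(c : ℝ)| * ∏ i, avS pr hp (some i) c := mul_le_mul_of_nonneg_right hle' hnn

omit [Fintype ι] in
theorem avS_lb (pr : ι → ℕ) (hp : ∀ i, (pr i).Prime) (v : Option ι) (c : ℤ) (hc : c ≠ 0) :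
    1 ≤ avS pr hp v c * |(c : ℝ)| := by
  have h1 : (1 : ℝ) ≤ |(c : ℝ)| := by exact_mod_cast Int.one_le_abs hc
  cases v with
  | none =>
    rw [avS_none]
    nlinarith
  | some i =>
    haveI : Fact (pr i).Prime := ⟨hp i⟩
    exact avp_lb (pr i) c hc

end General

end Pool.Agent.Lib.Subspace
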