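import Pool.Agent.Lib.Subspace.RothPrep

/-!
# Roth's lemma

The index of an integer polynomial at a rational point whose coordinates have large, rapidly
varying heights is small.
-/

namespace Pool.Agent.Lib.Subspace

open MvPolynomial

/-- the constants in Roth's lemma -/
def rothC : ℕ → ℝ
  | 0 => 2
  | (n + 1) => 2 ^ (n + 2) * rothC n

theorem two_le_rothC (n : ℕ) : 2 ≤ rothC n := by
  induction n with
  | zero => exact le_refl _
  | succ n ih =>
    have h1 : (1 : ℝ) ≤ 2 ^ (n + 2) := one_le_pow₀ (by norm_num)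
    calc (2 : ℝ) ≤ rothC n := ih
      _ = 1 * rothC n := (one_mul _).symm
      _ ≤ 2 ^ (n + 2) * rothC n := by
        apply mul_le_mul_of_nonneg_right h1
        linarith

/-- usual absolute value on the integers -/
def absZ (x : ℤ) : ℝ := |(x : ℝ)|

theorem isNm_absZ : IsNm absZ := isNm_int

theorem one_le_absZ {x : ℤ} (h : x ≠ 0) : 1 ≤ absZ x := by
  unfold absZ
  exact_mod_cast Int.one_le_abs h

/-- Roth's lemma in `n` variables -/
def RothStmt (n : ℕ) : Prop := ∀ θ : ℝ, 0 < θ → θ ≤ 1 → ∃ ω : ℝ, 0 < ω ∧ ω ≤ 1 ∧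
  ∀ (d : Fin n → ℕ) (D : ℕ) (R : MvPolynomial (Fin n) ℤ) (p q : Fin n → ℤ) (M B : ℝ),
  (∀ h, 1 ≤ d h) → (∀ h, d h ≤ D) → (∀ h h', h < h' → (d h : ℝ) ≤ ω * d h') →
  R ≠ 0 → DegLE d R → (∀ h, IsCoprime (p h) (q h)) → (∀ h, q h ≠ 0) →
  1 ≤ M → (∀ h, M ≤ (max |(p h : ℝ)| |(q h : ℝ)|) ^ (d h)) →
  wnorm absZ 1 R ≤ B → B * rothC n ^ D ≤ M ^ ω →
  ¬ IdxGE (fun h => 1 / (d h : ℝ)) θ
    (shift (fun h => (p h : ℚ) / q h) (map (Int.castRingHom ℚ) R))

theorem roth_zero : RothStmt 0 := by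
  intro θ hθ _
  refine ⟨1, one_pos, le_refl _, ?_⟩
  intro d D R p q M B _ _ _ hR _ _ _ _ _ _ _ hidx
  have h1 : shift (fun h => (p h : ℚ) / q h) (map (Int.castRingHom ℚ) R) ≠ 0 := by
    intro h
    apply hR
    apply MvPolynomial.map_injective (Int.castRingHom ℚ) (Int.castRingHom ℚ).injective_int
    rw [map_zero]
    apply shift_injective (fun h => (p h : ℚ) / q h)
    rw [h, map_zero]
  obtain ⟨J, hJ⟩ := Finset.nonempty_of_ne_empty (fun h => h1 (support_eq_empty.1 h))
  have h2 := hidx J hJ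
  simp at h2
  linarith

theorem wnorm_coeff_finSucc_le {n : ℕ} (W : MvPolynomial (Fin (n + 1)) ℤ) (j : ℕ) :
    wnorm absZ 1 ((finSuccEquiv ℤ n W).coeff j) ≤ wnorm absZ 1 W := by
  classical
  unfold wnorm
  simp only [Pi.one_apply, one_pow, Finset.prod_const_one, mul_one]
  have h1 : ∑ J ∈ ((finSuccEquiv ℤ n W).coeff j).support,
      absZ (coeff J ((finSuccEquiv ℤ n W).coeff j)) =
      ∑ m ∈ (((finSuccEquiv ℤ n W).coeff j).support).image (fun J => J.cons j),
        absZ (coeff m W) := by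
    rw [Finset.sum_image]
    · exact Finset.sum_congr rfl fun J _ => by rw [finSuccEquiv_coeff_coeff]
    · intro J _ J' _ h
      have := congrArg Finsupp.tail h
      simpa using this
  rw [h1]
  apply Finset.sum_le_sum_of_subset_of_nonneg
  · intro m hm
    rw [Finset.mem_image] at hm
    obtain ⟨J, hJ, rfl⟩ := hm
    rw [mem_support_iff, finSuccEquiv_coeff_coeff] at hJ
    exact mem_support_iff.2 hJ
  · intro m _ _
    exact abs_nonneg _

theorem roth_step (n : ℕ) (ih : RothStmt n) : RothStmt (n + 1) := by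
  classical
  intro θ hθ hθ1
  have hθ2 : 0 < θ ^ 2 / 32 := by positivity
  have hθ3 : θ ^ 2 / 32 ≤ 1 := by nlinarith
  obtain ⟨ω', hω', hω'1, H⟩ := ih (θ ^ 2 / 32) hθ2 hθ3
  set ω : ℝ := min ω' (min (θ / 2) (θ ^ 2 / 32)) with hω
  have hωpos : 0 < ω := lt_min hω' (lt_min (by linarith) hθ2)
  have hω1 : ω ≤ ω' := min_le_left _ _
  have hω2 : ω ≤ θ / 2 := (min_le_right _ _).trans (min_le_left _ _)
  have hω3 : ω ≤ θ ^ 2 / 32 := (min_le_right _ _).trans (min_le_right _ _)
  refine ⟨ω, hωpos, hω1.trans hω'1, ?_⟩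
  intro d D R p q M B hd1 hdD hord hR hdeg hcop hq hM hMh hB hBM hidx
  set w : Fin (n + 1) → ℝ := fun h => 1 / (d h : ℝ) with hw
  set ξ : Fin (n + 1) → ℚ := fun h => (p h : ℚ) / q h with hξ
  set RQ := map (Int.castRingHom ℚ) R with hRQ
  have hdpos : ∀ h, (0 : ℝ) < d h := fun h => by exact_mod_cast hd1 h
  have hwnn : ∀ h, 0 ≤ w h := fun h => by rw [hw]; exact (one_div_pos.2 (hdpos h)).le
  have hRQ0 : RQ ≠ 0 := by
    intro h
    apply hR
    apply MvPolynomial.map_injective (Int.castRingHom ℚ) (Int.castRingHom ℚ).injective_int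
    rw [map_zero]
    exact h
  have hsupp : ∀ J ∈ RQ.support, J 0 ≤ d 0 := by
    intro J hJ
    exact hdeg J (support_map_subset _ _ hJ) 0
  obtain ⟨s, hs1, hs, φ, ψ, hφ, hψ, hdec⟩ := exists_decomp RQ hRQ0 (d 0) hsupp
  obtain ⟨i, hi, hU⟩ := generalized_wronskian φ hφ
  have hV := wronskian_ne_zero ψ hψ
  set E : Matrix (Fin s) (Fin s) (MvPolynomial (Fin (n + 1)) ℤ) :=
    Matrix.of fun μ ν => hd ((i μ).cons (ν : ℕ)) R with hE
  set W := E.det with hW
  set U := (Matrix.of fun (μ l : Fin s) => hd (i μ) (φ l)).det with hUdef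
  set V := (Matrix.of fun (ν l : Fin s) => Polynomial.hasseDeriv (ν : ℕ) (ψ l)).det with hVdef
  have hspos : (0 : ℝ) < s := by exact_mod_cast hs1
  -- the determinant over `ℚ`
  have hmapW : map (Int.castRingHom ℚ) W =
      (Matrix.of fun (μ ν : Fin s) => hd ((i μ).cons (ν : ℕ)) RQ).det := by
    rw [hW, RingHom.map_det]
    congr 1
    ext1 μ ν
    rw [RingHom.mapMatrix_apply, Matrix.map_apply, hE, Matrix.of_apply, Matrix.of_apply, map_hd]
  have hWQ : map (Int.castRingHom ℚ) W = sep U V := by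
    rw [hmapW]
    have h1 : (Matrix.of fun (μ ν : Fin s) => hd ((i μ).cons (ν : ℕ)) RQ) =
        (Matrix.of fun (μ l : Fin s) => rename Fin.succ (hd (i μ) (φ l))) *
        (Matrix.of fun (l ν : Fin s) => Polynomial.aeval (X 0 : MvPolynomial (Fin (n + 1)) ℚ)
          (Polynomial.hasseDeriv (ν : ℕ) (ψ l))) := by
      ext1 μ ν
      rw [Matrix.of_apply, hdec, hd_sum, Matrix.mul_apply]
      refine Finset.sum_congr rfl fun l _ => ?_
      rw [hd_sep]
      rfl
    rw [h1, Matrix.det_mul]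
    unfold sep
    congr 1
    · rw [hUdef, AlgHom.map_det]
      rfl
    · rw [hVdef, AlgHom.map_det, ← Matrix.det_transpose]
      rfl
  -- index of `W`
  have hEidx : ∀ μ ν : Fin s, IdxGE w (max 0 ((θ - ω) - (ν : ℝ) / d 0))
      (shift ξ (hd ((i μ).cons (ν : ℕ)) RQ)) := by
    intro μ ν
    rcases max_choice 0 ((θ - ω) - (ν : ℝ) / d 0) with hmx | hmx
    · rw [hmx]
      exact idxGE_nonpos hwnn (le_refl 0) _
    · rw [hmx, ← hd_shift]
      refine (hidx.hd _).mono ?_
      have h1 : ∑ k, w k * (((i μ).cons (ν : ℕ)) k : ℕ) ≤ (ν : ℝ) / d 0 + ω := by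
        rw [Fin.sum_univ_succ, Finsupp.cons_zero]
        have h2 : ∑ k : Fin n, w k.succ * (((i μ).cons (ν : ℕ)) k.succ : ℕ) ≤ ω := by
          have h3 : ∀ k : Fin n, w k.succ * (((i μ).cons (ν : ℕ)) k.succ : ℕ) ≤
              (ω / d 0) * (i μ k : ℝ) := by
            intro k
            rw [Finsupp.cons_succ]
            apply mul_le_mul_of_nonneg_right _ (Nat.cast_nonneg _)
            rw [hw]
            simp only
            rw [div_le_div_iff₀ (hdpos _) (hdpos _), one_mul]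
            exact hord 0 k.succ (Fin.succ_pos k)
          refine (Finset.sum_le_sum fun k _ => h3 k).trans ?_
          rw [← Finset.mul_sum]
          have h4 : (∑ k, (i μ k : ℝ)) ≤ d 0 := by
            have h5 : ∑ k, i μ k ≤ d 0 := by
              have := hi μ
              have h6 := μ.2
              omega
            exact_mod_cast h5
          calc ω / d 0 * ∑ k, (i μ k : ℝ) ≤ ω / d 0 * d 0 := by
                apply mul_le_mul_of_nonneg_left h4
                exact div_nonneg hωpos.le (hdpos 0).le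
            _ = ω := div_mul_cancel₀ _ (hdpos 0).ne'
        have h7 : w 0 * (ν : ℝ) = (ν : ℝ) / d 0 := by
          rw [hw]; ring
        linarith [h7.le, h2]
      linarith
  have hWidx : IdxGE w (∑ ν : Fin s, max 0 ((θ - ω) - (ν : ℝ) / d 0)) (shift ξ (sep U V)) := by
    rw [← hWQ, hmapW, AlgHom.map_det]
    refine IdxGE.det fun μ ν => ?_
    rw [AlgHom.mapMatrix_apply, Matrix.map_apply, Matrix.of_apply]
    exact hEidx μ ν
  have hsum := sum_max_ge hs (hd1 0) (t := θ - ω) (by linarith) (by linarith)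
  have hWidx2 : IdxGE w (s * (θ ^ 2 / 16)) (shift ξ (sep U V)) := by
    refine hWidx.mono (le_trans ?_ hsum)
    have : (θ / 2) ^ 2 ≤ (θ - ω) ^ 2 := by
      apply pow_le_pow_left₀ (by linarith)
      linarith
    nlinarith
  -- bound for the norm of `W`
  set BW : ℝ := (2 ^ ((n + 2) * D) * B) ^ s with hBW
  have hBnn : 0 ≤ B := (wnorm_nonneg isNm_absZ (fun _ => zero_le_one) _).trans hB
  have hWnorm : wnorm absZ 1 W ≤ BW := by
    have hEn : ∀ μ ν : Fin s, wnorm absZ 1 (E μ ν) ≤ 2 ^ ((n + 1) * D) * B := by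
      intro μ ν
      rw [hE, Matrix.of_apply]
      refine (wnorm_hd_le isNm_absZ _ _ ((n + 1) * D) ?_).trans ?_
      · intro J hJ
        calc ∑ k, J k ≤ ∑ _k : Fin (n + 1), D :=
              Finset.sum_le_sum fun k _ => (hdeg J hJ k).trans (hdD k)
          _ = (n + 1) * D := by simp
      · exact mul_le_mul_of_nonneg_left hB (by positivity)
    refine (wnorm_det_le isNm_absZ E hEn).trans ?_
    have hfac : (s.factorial : ℝ) ≤ (2 ^ D) ^ s := by
      have h1 : s.factorial ≤ s ^ s := Nat.factorial_le_pow s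
      have h2 : s ≤ 2 ^ D := by
        calc s ≤ d 0 + 1 := hs
          _ ≤ D + 1 := Nat.add_le_add_right (hdD 0) 1
          _ ≤ 2 ^ D := Nat.lt_two_pow_self
      calc (s.factorial : ℝ) ≤ ((s ^ s : ℕ) : ℝ) := by exact_mod_cast h1
        _ = (s : ℝ) ^ s := by push_cast; rfl
        _ ≤ (2 ^ D) ^ s := pow_le_pow_left₀ (Nat.cast_nonneg _) (by exact_mod_cast h2) _
    calc (s.factorial : ℝ) * (2 ^ ((n + 1) * D) * B) ^ s
        ≤ (2 ^ D) ^ s * (2 ^ ((n + 1) * D) * B) ^ s :=
          mul_le_mul_of_nonneg_right hfac (by positivity)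
      _ = BW := by
          rw [hBW, ← mul_pow, ← mul_assoc, ← pow_add]
          congr 3
          ring
  have hU0 : U ≠ 0 := hU
  have hV0 : V ≠ 0 := hV
  -- main inequality
  have hCn := two_le_rothC n
  have hmain : BW * rothC n ^ (s * D) ≤ (M ^ s) ^ ω := by
    have h1 : BW * rothC n ^ (s * D) = (B * rothC (n + 1) ^ D) ^ s := by
      rw [hBW]
      show _ = (B * (2 ^ (n + 2) * rothC n) ^ D) ^ s
      rw [mul_pow, mul_pow, mul_pow, mul_pow, ← pow_mul, ← pow_mul, ← pow_mul]
      ring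
    rw [h1]
    calc (B * rothC (n + 1) ^ D) ^ s ≤ (M ^ ω) ^ s := by
          apply pow_le_pow_left₀ _ hBM
          exact mul_nonneg hBnn (pow_nonneg (by linarith [two_le_rothC (n + 1)]) _)
      _ = (M ^ s) ^ ω := by
          rw [← Real.rpow_natCast (M ^ ω), ← Real.rpow_mul (by linarith), mul_comm,
            Real.rpow_mul (by linarith), Real.rpow_natCast]
  -- the factor in the last variables
  obtain ⟨j0, hj0⟩ : ∃ j0, V.coeff j0 ≠ 0 := by
    by_contra hcon
    push Not at hcon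
    exact hV0 (Polynomial.ext fun j => by rw [hcon j, Polynomial.coeff_zero])
  obtain ⟨J0, hJ0⟩ : ∃ J0, coeff J0 U ≠ 0 := by
    by_contra hcon
    push Not at hcon
    exact hU0 (MvPolynomial.ext _ _ fun j => by rw [hcon j, coeff_zero])
  set U2 := (finSuccEquiv ℤ n W).coeff j0 with hU2
  have hU2map : map (Int.castRingHom ℚ) U2 = V.coeff j0 • U := by
    ext J
    rw [coeff_map, hU2, finSuccEquiv_coeff_coeff, ← coeff_map, hWQ, coeff_sep, coeff_smul,
      smul_eq_mul, mul_comm]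
  have hWdeg : DegLE (s • d) W := DegLE.det fun μ ν => by
    rw [hE, Matrix.of_apply]
    exact hdeg.hd _
  have hsM : 1 ≤ M ^ s := one_le_pow₀ hM
  have h1 : ¬ IdxGE (fun h : Fin n => 1 / ((s * d h.succ : ℕ) : ℝ)) (θ ^ 2 / 32)
      (shift (fun h : Fin n => (p h.succ : ℚ) / q h.succ) (map (Int.castRingHom ℚ) U2)) := by
    refine H (fun h => s * d h.succ) (s * D) U2 (fun h => p h.succ) (fun h => q h.succ) (M ^ s) BW
      ?_ ?_ ?_ ?_ ?_ ?_ ?_ hsM ?_ ?_ ?_
    · intro h
      exact Nat.mul_pos hs1 (hd1 _)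
    · intro h
      exact Nat.mul_le_mul_left _ (hdD _)
    · intro h h' hlt
      have := hord h.succ h'.succ (Fin.succ_lt_succ_iff.2 hlt)
      push_cast
      calc (s : ℝ) * d h.succ ≤ s * (ω * d h'.succ) := by gcongr
        _ ≤ s * (ω' * d h'.succ) := by gcongr
        _ = ω' * (s * d h'.succ) := by ring
    · intro h
      rw [h, map_zero] at hU2map
      exact (smul_ne_zero hj0 hU0) hU2map.symm
    · intro J hJ k
      rw [mem_support_iff, hU2, finSuccEquiv_coeff_coeff] at hJ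
      have := hWdeg _ (mem_support_iff.2 hJ) k.succ
      simpa using this
    · intro h
      exact hcop _
    · intro h
      exact hq _
    · intro h
      calc M ^ s ≤ ((max |(p h.succ : ℝ)| |(q h.succ : ℝ)|) ^ (d h.succ)) ^ s :=
            pow_le_pow_left₀ (by linarith) (hMh h.succ) _
        _ = _ := by rw [← pow_mul, mul_comm]
    · exact (wnorm_coeff_finSucc_le W j0).trans hWnorm
    · refine hmain.trans ?_
      exact Real.rpow_le_rpow_of_exponent_le hsM hω1
  rw [IdxGE] at h1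
  push Not at h1
  obtain ⟨J, hJ, hJlt⟩ := h1
  have hJU : coeff J (shift (fun h : Fin n => ξ h.succ) U) ≠ 0 := by
    rw [hU2map, map_smul, mem_support_iff, coeff_smul] at hJ
    exact right_ne_zero_of_mul hJ
  -- the factor in the first variable
  set V2 : Polynomial ℤ := ∑ j ∈ (finSuccEquiv ℤ n W).support,
    Polynomial.monomial j (coeff J0 ((finSuccEquiv ℤ n W).coeff j)) with hV2
  have hV2coeff : ∀ j, V2.coeff j = coeff (J0.cons j) W := by
    intro j
    rw [hV2, Polynomial.finsetSum_coeff, ← finSuccEquiv_coeff_coeff]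
    simp_rw [Polynomial.coeff_monomial]
    rw [Finset.sum_ite_eq']
    split_ifs with h
    · rfl
    · rw [Polynomial.notMem_support_iff.1 h, coeff_zero]
  have hV2map : V2.map (Int.castRingHom ℚ) = coeff J0 U • V := by
    ext j
    rw [Polynomial.coeff_map, hV2coeff, ← coeff_map, hWQ, coeff_sep, Polynomial.coeff_smul,
      smul_eq_mul]
  have hV20 : V2 ≠ 0 := by
    intro h
    rw [h, Polynomial.map_zero] at hV2map
    exact (smul_ne_zero hJ0 hV0) hV2map.symm
  obtain ⟨j, hj, hjB⟩ := univariate_order hV20 (hcop 0) (hq 0) (B := BW) (fun k => by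
    rw [hV2coeff]
    exact (coeff_le_wnorm_one isNm_absZ W (J0.cons k)).trans hWnorm)
  have hjV : (Polynomial.taylor (ξ 0) V).coeff j ≠ 0 := by
    rw [hV2map, map_smul, Polynomial.coeff_smul] at hj
    exact right_ne_zero_of_mul hj
  have hjlt : (j : ℝ) / (s * d 0) < θ ^ 2 / 32 := by
    by_contra hcon
    push Not at hcon
    set Hh : ℝ := max |(p 0 : ℝ)| |(q 0 : ℝ)| with hHh
    have hH1 : 1 ≤ Hh := by
      have : (1 : ℝ) ≤ |(q 0 : ℝ)| := by exact_mod_cast Int.one_le_abs (hq 0)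
      exact this.trans (le_max_right _ _)
    have h2 : θ ^ 2 / 32 * (s * d 0) ≤ j := by
      rwa [le_div_iff₀ (mul_pos hspos (hdpos 0))] at hcon
    have h3 : (M ^ s) ^ (θ ^ 2 / 32) ≤ Hh ^ j := by
      calc (M ^ s) ^ (θ ^ 2 / 32) ≤ ((Hh ^ d 0) ^ s) ^ (θ ^ 2 / 32) := by
            apply Real.rpow_le_rpow (by linarith) _ hθ2.le
            exact pow_le_pow_left₀ (by linarith) (hMh 0) _
        _ = Hh ^ (θ ^ 2 / 32 * (s * d 0)) := by
            rw [← pow_mul, ← Real.rpow_natCast Hh, ← Real.rpow_mul (by linarith)]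
            congr 1
            push_cast
            ring
        _ ≤ Hh ^ (j : ℝ) := Real.rpow_le_rpow_of_exponent_le hH1 h2
        _ = Hh ^ j := Real.rpow_natCast _ _
    have h4 : BW * rothC n ^ (s * D) ≤ BW * 1 := by
      calc BW * rothC n ^ (s * D) ≤ (M ^ s) ^ ω := hmain
        _ ≤ (M ^ s) ^ (θ ^ 2 / 32) := Real.rpow_le_rpow_of_exponent_le hsM hω3
        _ ≤ Hh ^ j := h3
        _ ≤ BW := hjB
        _ = BW * 1 := (mul_one _).symm
    have hBWpos : 0 < BW := lt_of_lt_of_le (by positivity) hjB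
    have h5 := le_of_mul_le_mul_left h4 hBWpos
    have hsD : s * D ≠ 0 := by
      have := hd1 0
      have := hdD 0
      exact Nat.mul_ne_zero (by omega) (by omega)
    have h6 : 1 < rothC n ^ (s * D) := one_lt_pow₀ (by linarith) hsD
    linarith
  -- conclusion
  have hmem : coeff (J.cons j) (shift ξ (sep U V)) ≠ 0 := by
    rw [shift_sep, coeff_sep]
    exact mul_ne_zero hJU hjV
  have hfin := hWidx2 (J.cons j) (mem_support_iff.2 hmem)
  rw [Fin.sum_univ_succ, Finsupp.cons_zero] at hfin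
  simp only [Finsupp.cons_succ] at hfin
  have e1 : w 0 * (j : ℝ) = s * ((j : ℝ) / (s * d 0)) := by
    rw [hw]
    field_simp
  have e2 : ∑ k : Fin n, w k.succ * (J k : ℝ) =
      s * ∑ k : Fin n, 1 / ((s * d k.succ : ℕ) : ℝ) * (J k : ℝ) := by
    rw [Finset.mul_sum]
    refine Finset.sum_congr rfl fun k _ => ?_
    rw [hw]
    have := (hdpos k.succ).ne'
    push_cast
    field_simp
  rw [e1, e2] at hfin
  nlinarith [mul_lt_mul_of_pos_left hjlt hspos, mul_lt_mul_of_pos_left hJlt hspos]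

theorem roth (n : ℕ) : RothStmt n := by
  induction n with
  | zero => exact roth_zero
  | succ n ih => exact roth_step n ih

end Pool.Agent.Lib.Subspace
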