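import Pool.Agent.Lib.Subspace.Sep

/-!
# Preparations for Roth's lemma
-/

namespace Pool.Agent.Lib.Subspace

section univariate

open Polynomial

theorem isPrimitive_linear {p q : ℤ} (hpq : IsCoprime p q) :
    (C q * X - C p : ℤ[X]).IsPrimitive := by
  intro r hr
  rw [C_dvd_iff_dvd_coeff] at hr
  have h1 := hr 1
  have h0 := hr 0
  rw [coeff_sub, coeff_C_mul, coeff_X_one, coeff_C_of_ne_zero one_ne_zero, mul_one, sub_zero] at h1
  rw [coeff_sub, coeff_C_mul, coeff_X_zero, coeff_C_zero, mul_zero, zero_sub, dvd_neg] at h0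
  exact hpq.symm.isUnit_of_dvd' h1 h0

theorem trailingCoeff_pow' (L : ℤ[X]) (j : ℕ) : (L ^ j).trailingCoeff = L.trailingCoeff ^ j := by
  induction j with
  | zero => rw [pow_zero, pow_zero, trailingCoeff, natTrailingDegree_one, coeff_one_zero]
  | succ j ih => rw [pow_succ, trailingCoeff_mul, ih, pow_succ]

/-- order of vanishing of an integer polynomial at a rational point versus its height -/
theorem univariate_order {V : ℤ[X]} (hV : V ≠ 0) {p q : ℤ} (hpq : IsCoprime p q) (hq : q ≠ 0)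
    {B : ℝ} (hB : ∀ k, |(V.coeff k : ℝ)| ≤ B) :
    ∃ j, (taylor ((p : ℚ) / q) (V.map (Int.castRingHom ℚ))).coeff j ≠ 0 ∧
      (max |(p : ℝ)| |(q : ℝ)|) ^ j ≤ B := by
  set ξ : ℚ := (p : ℚ) / q with hξ
  set W : ℚ[X] := V.map (Int.castRingHom ℚ) with hW
  have hW0 : W ≠ 0 := (Polynomial.map_ne_zero_iff (Int.castRingHom ℚ).injective_int).2 hV
  set T := taylor ξ W with hT
  have hT0 : T ≠ 0 := by
    rw [hT, Ne, taylor_eq_zero]
    exact hW0
  set j := T.natTrailingDegree with hj
  have hq' : (q : ℚ) ≠ 0 := by exact_mod_cast hq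
  have h1 : (X : ℚ[X]) ^ j ∣ T := by
    rw [X_pow_dvd_iff]
    intro d hd
    exact coeff_eq_zero_of_lt_natTrailingDegree hd
  have h2 : (X - C ξ) ^ j ∣ W := by
    obtain ⟨S, hS⟩ := h1
    refine ⟨taylor (-ξ) S, ?_⟩
    have h3 : taylor (-ξ) T = W := by
      rw [hT, taylor_taylor, neg_add_cancel, taylor_zero]
    rw [← h3, hS, taylor_mul, taylor_X_pow, C_neg, sub_eq_add_neg]
  set L : ℤ[X] := C q * X - C p with hL
  have hLprim : (L ^ j).IsPrimitive := by
    induction j with
    | zero => rw [pow_zero]; exact isPrimitive_one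
    | succ j ih => rw [pow_succ]; exact ih.mul (isPrimitive_linear hpq)
  have h4 : (L ^ j).map (Int.castRingHom ℚ) ∣ W := by
    have h5 : (L ^ j).map (Int.castRingHom ℚ) = C ((q : ℚ) ^ j) * (X - C ξ) ^ j := by
      rw [Polynomial.map_pow, hL, Polynomial.map_sub, Polynomial.map_mul, Polynomial.map_C,
        Polynomial.map_C, Polynomial.map_X, C_pow, ← mul_pow]
      congr 1
      rw [mul_sub, ← C_mul, hξ]
      simp only [eq_intCast]
      rw [mul_div_cancel₀ _ hq']
    rw [h5]
    have hu : IsUnit (C ((q : ℚ) ^ j)) := isUnit_C.2 (isUnit_iff_ne_zero.2 (pow_ne_zero _ hq'))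
    exact (hu.mul_left_dvd).2 h2
  have h6 : L ^ j ∣ V := (IsPrimitive.Int.dvd_iff_map_cast_dvd_map_cast _ _ hLprim).2 h4
  obtain ⟨S, hS⟩ := h6
  have hS0 : S ≠ 0 := by
    rintro rfl
    exact hV (by rw [hS, mul_zero])
  have hBpos : 1 ≤ B := by
    have h7 := hB V.natDegree
    have h8 : (1 : ℝ) ≤ |(V.coeff V.natDegree : ℝ)| := by
      have : V.coeff V.natDegree ≠ 0 := leadingCoeff_ne_zero.2 hV
      exact_mod_cast Int.one_le_abs this
    linarith
  refine ⟨j, ?_, ?_⟩
  · rw [hj]
    exact mt trailingCoeff_eq_zero.1 hT0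
  · -- leading coefficient
    have hLlc : L.leadingCoeff = q := by
      rw [hL]
      have : (C q * X - C p : ℤ[X]) = C q * X + C (-p) := by rw [C_neg, sub_eq_add_neg]
      rw [this, leadingCoeff_linear hq]
    have h7 : |(q : ℝ)| ^ j ≤ B := by
      have h8 : V.leadingCoeff = q ^ j * S.leadingCoeff := by
        rw [hS, leadingCoeff_mul, leadingCoeff_pow, hLlc]
      have h9 := hB V.natDegree
      have h10 : (V.coeff V.natDegree : ℝ) = (q : ℝ) ^ j * S.leadingCoeff := by
        have : V.coeff V.natDegree = V.leadingCoeff := rfl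
        rw [this, h8]
        push_cast
        ring
      rw [h10, abs_mul, abs_pow] at h9
      have h11 : (1 : ℝ) ≤ |(S.leadingCoeff : ℝ)| := by
        have : S.leadingCoeff ≠ 0 := leadingCoeff_ne_zero.2 hS0
        exact_mod_cast Int.one_le_abs this
      nlinarith [pow_nonneg (abs_nonneg (q : ℝ)) j]
    have h8 : |(p : ℝ)| ^ j ≤ B := by
      by_cases hp : p = 0
      · rw [hp]
        simp only [Int.cast_zero, abs_zero]
        rcases Nat.eq_zero_or_pos j with h | h
        · rw [h, pow_zero]; exact hBpos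
        · rw [zero_pow h.ne']; linarith
      · have hLtc : L.trailingCoeff = -p := by
          have h0 : L.coeff 0 = -p := by simp [hL]
          have : L.natTrailingDegree = 0 := by
            apply natTrailingDegree_eq_zero_of_constantCoeff_ne_zero
            rw [constantCoeff_apply, h0]
            exact neg_ne_zero.2 hp
          rw [trailingCoeff, this, h0]
        have h8 : V.trailingCoeff = (-p) ^ j * S.trailingCoeff := by
          rw [hS, trailingCoeff_mul, trailingCoeff_pow', hLtc]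
        have h9 := hB V.natTrailingDegree
        have h10 : (V.coeff V.natTrailingDegree : ℝ) = (-p : ℝ) ^ j * S.trailingCoeff := by
          have : V.coeff V.natTrailingDegree = V.trailingCoeff := rfl
          rw [this, h8]
          push_cast
          ring
        rw [h10, abs_mul, abs_pow, abs_neg] at h9
        have h11 : (1 : ℝ) ≤ |(S.trailingCoeff : ℝ)| := by
          have : S.trailingCoeff ≠ 0 := mt trailingCoeff_eq_zero.1 hS0
          exact_mod_cast Int.one_le_abs this
        nlinarith [pow_nonneg (abs_nonneg (p : ℝ)) j]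
    rcases max_choice |(p : ℝ)| |(q : ℝ)| with h | h
    · rw [h]; exact h8
    · rw [h]; exact h7

end univariate

section decomp

open MvPolynomial

theorem exists_decomp {n : ℕ} (R : MvPolynomial (Fin (n + 1)) ℚ) (hR : R ≠ 0) (d0 : ℕ)
    (hd : ∀ J ∈ R.support, J 0 ≤ d0) :
    ∃ s : ℕ, 1 ≤ s ∧ s ≤ d0 + 1 ∧ ∃ (φ : Fin s → MvPolynomial (Fin n) ℚ)
      (ψ : Fin s → Polynomial ℚ), LinearIndependent ℚ φ ∧ LinearIndependent ℚ ψ ∧
      R = ∑ l, sep (φ l) (ψ l) := by
  classical
  set c : Fin (d0 + 1) → MvPolynomial (Fin n) ℚ := fun k => (finSuccEquiv ℚ n R).coeff k with hc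
  obtain ⟨κ, a, ha, hspan, hli⟩ := exists_linearIndependent' ℚ c
  have : Finite κ := Finite.of_injective a ha
  have : Fintype κ := Fintype.ofFinite κ
  have hmem : ∀ k, c k ∈ Submodule.span ℚ (Set.range (c ∘ a)) := by
    intro k
    rw [hspan]
    exact Submodule.subset_span ⟨k, rfl⟩
  have hex : ∀ k, ∃ g : κ → ℚ, ∑ l, g l • (c ∘ a) l = c k := fun k =>
    (Submodule.mem_span_range_iff_exists_fun ℚ).1 (hmem k)
  choose g hg using hex
  set e := Fintype.equivFin κ with he
  set s := Fintype.card κ with hs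
  have hsle : s ≤ d0 + 1 := by
    have := Fintype.card_le_of_injective a ha
    rwa [Fintype.card_fin] at this
  have hcoef : ∀ (J : Fin n →₀ ℕ) (k : Fin (d0 + 1)), coeff (J.cons (k : ℕ)) R = coeff J (c k) := by
    intro J k
    rw [hc, finSuccEquiv_coeff_coeff]
  have hbig : ∀ (J : Fin n →₀ ℕ) (k : ℕ), d0 < k → coeff (J.cons k) R = 0 := by
    intro J k hk
    by_contra hne
    have := hd _ (mem_support_iff.2 hne)
    rw [Finsupp.cons_zero] at this
    omega
  have hspos : 1 ≤ s := by
    by_contra hcon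
    have hs0 : s = 0 := by omega
    have : IsEmpty κ := Fintype.card_eq_zero_iff.1 hs0
    apply hR
    ext m
    obtain ⟨J, j, rfl⟩ := exists_cons m
    rw [coeff_zero]
    by_cases hj : j ≤ d0
    · have h1 := hcoef J ⟨j, Nat.lt_succ_of_le hj⟩
      simp only at h1
      rw [h1, ← hg ⟨j, Nat.lt_succ_of_le hj⟩]
      simp
    · exact hbig J j (not_le.1 hj)
  have hgδ : ∀ l l' : κ, g (a l') l = if l = l' then 1 else 0 := by
    intro l l'
    have h1 := hg (a l')
    have h2 : ∑ x, (g (a l') x - if x = l' then 1 else 0) • (c ∘ a) x = 0 := by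
      simp_rw [sub_smul, Finset.sum_sub_distrib]
      rw [h1]
      simp [ite_smul]
    have h3 := Fintype.linearIndependent_iff.1 hli _ h2 l
    linarith
  refine ⟨s, hspos, hsle, fun l => c (a (e.symm l)),
    fun l => ∑ k : Fin (d0 + 1), Polynomial.monomial (k : ℕ) (g k (e.symm l)), ?_, ?_, ?_⟩
  · exact hli.comp e.symm e.symm.injective
  · rw [Fintype.linearIndependent_iff]
    intro b hb l
    have h1 := congrArg (fun p : Polynomial ℚ => p.coeff (a (e.symm l) : ℕ)) hb
    simp only [Polynomial.finsetSum_coeff, Polynomial.coeff_smul, Polynomial.coeff_monomial,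
      Polynomial.coeff_zero, smul_eq_mul] at h1
    have h2 : ∀ x : Fin s, (∑ k : Fin (d0 + 1), if (k : ℕ) = (a (e.symm l) : ℕ) then
        g k (e.symm x) else 0) = if x = l then 1 else 0 := by
      intro x
      rw [Finset.sum_eq_single (a (e.symm l))]
      · rw [if_pos rfl, hgδ]
        simp
      · intro k _ hk
        rw [if_neg]
        intro h
        exact hk (Fin.ext h)
      · simp
    simp_rw [h2] at h1
    simpa using h1
  · ext m
    obtain ⟨J, j, rfl⟩ := exists_cons m
    rw [coeff_sum]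
    simp_rw [coeff_sep]
    by_cases hj : j ≤ d0
    · have h1 := hcoef J ⟨j, Nat.lt_succ_of_le hj⟩
      simp only at h1
      rw [h1, ← hg ⟨j, Nat.lt_succ_of_le hj⟩, coeff_sum]
      rw [← e.symm.sum_comp]
      refine Finset.sum_congr rfl fun l _ => ?_
      rw [coeff_smul, smul_eq_mul, mul_comm, Function.comp_apply]
      congr 1
      rw [Polynomial.finsetSum_coeff]
      simp_rw [Polynomial.coeff_monomial]
      rw [Finset.sum_eq_single (⟨j, Nat.lt_succ_of_le hj⟩ : Fin (d0 + 1))]
      · simp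
      · intro k _ hk
        rw [if_neg]
        intro h
        exact hk (Fin.ext h)
      · simp
    · rw [hbig J j (not_le.1 hj)]
      symm
      apply Finset.sum_eq_zero
      intro l _
      rw [Polynomial.finsetSum_coeff]
      simp_rw [Polynomial.coeff_monomial]
      rw [Finset.sum_eq_zero, mul_zero]
      intro k _
      rw [if_neg]
      intro h
      have := k.2
      omega

end decomp

/-- the arithmetic behind Roth's lemma -/
theorem sum_max_ge {s d0 : ℕ} (hs : s ≤ d0 + 1) (hd0 : 1 ≤ d0) {t : ℝ} (ht : 0 < t)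
    (ht1 : t ≤ 1) : s * t ^ 2 / 4 ≤ ∑ ν : Fin s, max 0 (t - (ν : ℝ) / d0) := by
  have hd : (0 : ℝ) < d0 := by exact_mod_cast hd0
  have hd1 : (1 : ℝ) ≤ d0 := by exact_mod_cast hd0
  set x : ℝ := t * d0 with hx
  have hxpos : 0 < x := mul_pos ht hd
  set k : ℕ := min s ⌈x⌉₊ with hk
  have hks : k ≤ s := min_le_left _ _
  have hkx : (k : ℝ) < x + 1 := by
    have h1 : (k : ℝ) ≤ (⌈x⌉₊ : ℝ) := by exact_mod_cast min_le_right _ _
    exact lt_of_le_of_lt h1 (Nat.ceil_lt_add_one hxpos.le)
  have h1 : ∑ ν ∈ Finset.range k, (t - (ν : ℝ) / d0) ≤ ∑ ν : Fin s, max 0 (t - (ν : ℝ) / d0) := by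
    rw [Fin.sum_univ_eq_sum_range (fun ν => max 0 (t - (ν : ℝ) / d0)) s]
    calc ∑ ν ∈ Finset.range k, (t - (ν : ℝ) / d0)
        ≤ ∑ ν ∈ Finset.range k, max 0 (t - (ν : ℝ) / d0) :=
          Finset.sum_le_sum fun ν _ => le_max_right _ _
      _ ≤ _ := Finset.sum_le_sum_of_subset_of_nonneg
          (Finset.range_subset_range.2 hks) fun ν _ _ => le_max_left _ _
  have h2 : ∑ ν ∈ Finset.range k, (t - (ν : ℝ) / d0) =
      (k * x - (k : ℝ) * (k - 1) / 2) / d0 := by
    rw [Finset.sum_sub_distrib, Finset.sum_const, Finset.card_range, nsmul_eq_mul,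
      ← Finset.sum_div]
    have h3 : (∑ ν ∈ Finset.range k, (ν : ℝ)) = (k : ℝ) * (k - 1) / 2 := by
      have := Finset.sum_range_id_mul_two k
      have h4 : ((∑ i ∈ Finset.range k, i : ℕ) : ℝ) * 2 = (k : ℝ) * ((k - 1 : ℕ) : ℝ) := by
        exact_mod_cast this
      rcases Nat.eq_zero_or_pos k with h | h
      · rw [h]; simp
      · rw [Nat.cast_sub h, Nat.cast_one] at h4
        push_cast at h4
        linarith
    rw [h3, hx]
    field_simp
  have h3 : (k : ℝ) * x / 2 / d0 ≤ (k * x - (k : ℝ) * (k - 1) / 2) / d0 := by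
    apply div_le_div_of_nonneg_right _ hd.le
    nlinarith [Nat.cast_nonneg (α := ℝ) k]
  have h4 : (s : ℝ) * t ^ 2 / 4 ≤ (k : ℝ) * x / 2 / d0 := by
    have e : (k : ℝ) * x / 2 / d0 = k * t / 2 := by
      rw [hx]
      field_simp
    rw [e]
    rcases le_total s ⌈x⌉₊ with h | h
    · rw [hk, min_eq_left h]
      nlinarith [Nat.cast_nonneg (α := ℝ) s, mul_nonneg (Nat.cast_nonneg (α := ℝ) s) ht.le,
        mul_nonneg (mul_nonneg (Nat.cast_nonneg (α := ℝ) s) ht.le) (sub_nonneg.2 ht1)]
    · rw [hk, min_eq_right h]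
      have h5 : x ≤ (⌈x⌉₊ : ℝ) := Nat.le_ceil x
      have h6 : (s : ℝ) ≤ 2 * d0 := by
        have : (s : ℝ) ≤ d0 + 1 := by exact_mod_cast hs
        linarith
      calc (s : ℝ) * t ^ 2 / 4 ≤ (2 * d0) * t ^ 2 / 4 := by gcongr
        _ = x * t / 2 := by rw [hx]; ring
        _ ≤ (⌈x⌉₊ : ℝ) * t / 2 := by gcongr
  linarith

end Pool.Agent.Lib.Subspace
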