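import Pool.Agent.Lib.Subspace.Wronskian

/-!
# Products in separated variables
-/

namespace Pool.Agent.Lib.Subspace

open MvPolynomial

section coeffs

variable {σ : Type*} [Fintype σ] {R S : Type*} [CommRing R] [CommRing S]

theorem coeff_hd (a i : σ →₀ ℕ) (P : MvPolynomial σ R) :
    coeff a (hd i P) = (mch (a + i) i : R) * coeff (a + i) P := by
  classical
  rw [hd_eq_sum, coeff_sum]
  by_cases h : a + i ∈ P.support
  · rw [Finset.sum_eq_single (a + i)]
    · rw [coeff_monomial, if_pos (add_tsub_cancel_right a i)]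
    · intro J _ hne
      rw [coeff_monomial]
      split_ifs with h1
      · have : ¬ i ≤ J := by
          intro hle
          apply hne
          rw [← h1, tsub_add_cancel_of_le hle]
        rw [mch_eq_zero this]
        simp
      · rfl
    · intro h'
      exact absurd h h'
  · rw [notMem_support_iff.1 h, mul_zero]
    apply Finset.sum_eq_zero
    intro J hJ
    rw [coeff_monomial]
    split_ifs with h1
    · have : ¬ i ≤ J := by
        intro hle
        apply h
        rw [← h1, tsub_add_cancel_of_le hle]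
        exact hJ
      rw [mch_eq_zero this]
      simp
    · rfl

theorem map_hd (f : R →+* S) (i : σ →₀ ℕ) (P : MvPolynomial σ R) :
    map f (hd i P) = hd i (map f P) := by
  ext a
  rw [coeff_map, coeff_hd, coeff_hd, coeff_map, map_mul, map_natCast]

/-- all exponents are bounded by `d` -/
def DegLE (d : σ → ℕ) (P : MvPolynomial σ R) : Prop := ∀ J ∈ P.support, ∀ k, J k ≤ d k

omit [Fintype σ] in
theorem DegLE.mono {d d' : σ → ℕ} {P : MvPolynomial σ R} (h : DegLE d P) (hd : ∀ k, d k ≤ d' k) :
    DegLE d' P := fun J hJ k => (h J hJ k).trans (hd k)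

omit [Fintype σ] in
theorem degLE_zero (d : σ → ℕ) : DegLE d (0 : MvPolynomial σ R) := by
  intro J hJ
  simp at hJ

omit [Fintype σ] in
theorem DegLE.add {d : σ → ℕ} {P Q : MvPolynomial σ R} (hP : DegLE d P) (hQ : DegLE d Q) :
    DegLE d (P + Q) := by
  classical
  intro J hJ
  rcases Finset.mem_union.1 (support_add hJ) with h | h
  · exact hP J h
  · exact hQ J h

omit [Fintype σ] in
theorem DegLE.neg {d : σ → ℕ} {P : MvPolynomial σ R} (hP : DegLE d P) : DegLE d (-P) := by
  intro J hJ
  rw [support_neg] at hJ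
  exact hP J hJ

omit [Fintype σ] in
theorem DegLE.sum {ι : Type*} {s : Finset ι} {d : σ → ℕ} {g : ι → MvPolynomial σ R}
    (h : ∀ i ∈ s, DegLE d (g i)) : DegLE d (∑ i ∈ s, g i) := by
  classical
  induction s using Finset.induction_on with
  | empty => simpa using degLE_zero d
  | insert a s ha ih =>
    rw [Finset.sum_insert ha]
    exact (h a (Finset.mem_insert_self a s)).add
      (ih fun i hi => h i (Finset.mem_insert_of_mem hi))

omit [Fintype σ] in
theorem DegLE.mul {d d' : σ → ℕ} {P Q : MvPolynomial σ R} (hP : DegLE d P) (hQ : DegLE d' Q) :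
    DegLE (d + d') (P * Q) := by
  classical
  intro J hJ k
  have h := support_mul P Q hJ
  rw [Finset.mem_add] at h
  obtain ⟨a, ha, b, hb, rfl⟩ := h
  exact Nat.add_le_add (hP a ha k) (hQ b hb k)

omit [Fintype σ] in
theorem degLE_one (d : σ → ℕ) : DegLE d (1 : MvPolynomial σ R) := by
  classical
  intro J hJ
  rw [← C_1] at hJ
  have := support_monomial_subset (s := (0 : σ →₀ ℕ)) (a := (1 : R)) hJ
  rw [Finset.mem_singleton] at this
  simp [this]

omit [Fintype σ] in
theorem DegLE.prod {ι : Type*} {s : Finset ι} {d : ι → σ → ℕ} {g : ι → MvPolynomial σ R}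
    (h : ∀ i ∈ s, DegLE (d i) (g i)) : DegLE (∑ i ∈ s, d i) (∏ i ∈ s, g i) := by
  classical
  induction s using Finset.induction_on with
  | empty => simpa using degLE_one _
  | insert a s ha ih =>
    rw [Finset.prod_insert ha, Finset.sum_insert ha]
    exact (h a (Finset.mem_insert_self a s)).mul
      (ih fun i hi => h i (Finset.mem_insert_of_mem hi))

theorem DegLE.hd {d : σ → ℕ} {P : MvPolynomial σ R} (hP : DegLE d P) (i : σ →₀ ℕ) :
    DegLE d (hd i P) := by
  intro a ha k
  have h := hP _ (add_mem_support_of_mem_hd ha) k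
  rw [Finsupp.add_apply] at h
  omega

omit [Fintype σ] in
theorem DegLE.det {s : ℕ} {d : σ → ℕ} {E : Matrix (Fin s) (Fin s) (MvPolynomial σ R)}
    (hE : ∀ i j, DegLE d (E i j)) : DegLE (s • d) E.det := by
  classical
  rw [Matrix.det_apply]
  refine DegLE.sum fun π _ => ?_
  have h1 : DegLE (∑ _j : Fin s, d) (∏ j, E (π j) j) := DegLE.prod fun j _ => hE _ _
  rw [Finset.sum_const, Finset.card_univ, Fintype.card_fin] at h1
  rcases Int.units_eq_one_or (Equiv.Perm.sign π) with h | h
  · rw [h, one_smul]
    exact h1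
  · rw [h, Units.neg_smul, one_smul]
    exact h1.neg

end coeffs

section sep

variable {K : Type*} [CommRing K] {n : ℕ}

/-- product of a polynomial in the last `n` variables and one in the first variable -/
noncomputable def sep (A : MvPolynomial (Fin n) K) (B : Polynomial K) :
    MvPolynomial (Fin (n + 1)) K :=
  rename Fin.succ A * Polynomial.aeval (X 0) B

theorem sep_monomial (J : Fin n →₀ ℕ) (k : ℕ) (c b : K) :
    sep (monomial J c) (Polynomial.monomial k b) = monomial (J.cons k) (c * b) := by
  have e : Finsupp.mapDomain Fin.succ J + Finsupp.single 0 k = J.cons k := by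
    ext i
    refine Fin.cases ?_ (fun j => ?_) i
    · rw [Finsupp.cons_zero, Finsupp.add_apply, Finsupp.single_eq_same,
        Finsupp.mapDomain_of_notMem_range, zero_add]
      rintro ⟨x, hx⟩
      exact Fin.succ_ne_zero x hx
    · rw [Finsupp.cons_succ, Finsupp.add_apply, Finsupp.mapDomain_apply (Fin.succ_injective n),
        Finsupp.single_eq_of_ne (Fin.succ_ne_zero j), add_zero]
  unfold sep
  rw [rename_monomial, Polynomial.aeval_monomial, MvPolynomial.algebraMap_eq, X_pow_eq_monomial,
    C_mul_monomial, monomial_mul, e, mul_one]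

theorem coeff_sep (A : MvPolynomial (Fin n) K) (B : Polynomial K) (J : Fin n →₀ ℕ) (j : ℕ) :
    coeff (J.cons j) (sep A B) = coeff J A * B.coeff j := by
  classical
  have h1 : sep A B = ∑ J' ∈ A.support, ∑ k ∈ B.support,
      sep (monomial J' (coeff J' A)) (Polynomial.monomial k (B.coeff k)) := by
    unfold sep
    conv_lhs => rw [A.as_sum, B.as_sum_support, map_sum, map_sum, Finset.sum_mul_sum]
  rw [h1, coeff_sum]
  simp_rw [coeff_sum, sep_monomial, coeff_monomial]
  have h2 : ∀ J' : Fin n →₀ ℕ, ∀ k : ℕ, (J'.cons k = J.cons j) ↔ (J' = J ∧ k = j) := by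
    intro J' k
    constructor
    · intro h
      refine ⟨?_, ?_⟩
      · have := congrArg Finsupp.tail h
        simpa using this
      · have := DFunLike.congr_fun h 0
        simpa using this
    · rintro ⟨rfl, rfl⟩
      rfl
  simp_rw [h2]
  rw [Finset.sum_eq_single J]
  · rw [Finset.sum_eq_single j]
    · simp
    · intro k _ hk
      simp [hk]
    · intro hj
      rw [Polynomial.notMem_support_iff.1 hj]
      simp
  · intro J' _ hJ'
    apply Finset.sum_eq_zero
    intro k _
    simp [hJ']
  · intro hJ
    rw [notMem_support_iff.1 hJ]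
    simp

theorem exists_cons (m : Fin (n + 1) →₀ ℕ) : ∃ (J : Fin n →₀ ℕ) (j : ℕ), m = J.cons j :=
  ⟨m.tail, m 0, (Finsupp.cons_tail m).symm⟩

theorem mch_cons (J i : Fin n →₀ ℕ) (k ν : ℕ) :
    mch (J.cons k) (i.cons ν) = k.choose ν * mch J i := by
  unfold mch
  rw [Fin.prod_univ_succ]
  simp

theorem cons_add (J i : Fin n →₀ ℕ) (k ν : ℕ) :
    (J.cons k) + (i.cons ν) = (J + i).cons (k + ν) := by
  ext x
  refine Fin.cases ?_ (fun j => ?_) x <;> simp

theorem hd_sep (A : MvPolynomial (Fin n) K) (B : Polynomial K) (i : Fin n →₀ ℕ) (ν : ℕ) :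
    hd (i.cons ν) (sep A B) = sep (hd i A) (Polynomial.hasseDeriv ν B) := by
  ext m
  obtain ⟨J, j, rfl⟩ := exists_cons m
  rw [coeff_hd, cons_add, coeff_sep, coeff_sep, mch_cons, coeff_hd, Polynomial.hasseDeriv_coeff]
  push_cast
  ring

theorem shift_sep (A : MvPolynomial (Fin n) K) (B : Polynomial K) (ξ : Fin (n + 1) → K) :
    shift ξ (sep A B) = sep (shift (fun k => ξ k.succ) A) (Polynomial.taylor (ξ 0) B) := by
  unfold sep
  rw [map_mul]
  congr 1
  · have : (shift ξ : MvPolynomial (Fin (n + 1)) K →ₐ[K] _).comp (rename Fin.succ) =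
        (rename Fin.succ).comp (shift (fun k : Fin n => ξ k.succ)) := by
      apply MvPolynomial.algHom_ext
      intro k
      simp
    exact DFunLike.congr_fun this A
  · have : (shift ξ : MvPolynomial (Fin (n + 1)) K →ₐ[K] _).comp (Polynomial.aeval (X 0)) =
        (Polynomial.aeval (X 0 : MvPolynomial (Fin (n + 1)) K)).comp
          (Polynomial.taylorAlgHom (ξ 0)) := by
      apply Polynomial.algHom_ext
      rw [AlgHom.comp_apply, AlgHom.comp_apply, Polynomial.aeval_X, shift_X]
      have : Polynomial.taylorAlgHom (ξ 0) (Polynomial.X : Polynomial K) =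
          Polynomial.X + Polynomial.C (ξ 0) := Polynomial.taylor_X _
      rw [this, map_add, Polynomial.aeval_X, Polynomial.aeval_C, MvPolynomial.algebraMap_eq]
    exact DFunLike.congr_fun this B

end sep

end Pool.Agent.Lib.Subspace
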