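import Pool.Agent.Lib.Subspace.Step2
import Pool.Agent.Lib.Subspace.LastMinB

/-!
# The Subspace theorem for sequences
-/

namespace Pool.Agent.Lib.Subspace

open Matrix Set.powersetCard SubspaceH13 Filter

theorem seq_subspace {ι : Type} [Fintype ι] [DecidableEq ι] (pr : ι → ℕ)
    (hpr : ∀ i, (pr i).Prime) (hinj : Function.Injective pr) (N : ℕ) (hN : 2 ≤ N)
    (A : ι → Matrix (Fin N) (Fin N) ℤ) (hA : ∀ i, (A i).det ≠ 0) (ε : ℝ) (hε : 0 < ε)
    (X : ℕ → Fin N → ℤ) (e : ℕ → ι → Fin N → ℕ) (Q : ℕ → ℝ) (hQ : Tendsto Q atTop atTop)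
    (hX0 : ∀ s k, X s k ≠ 0) (hAX0 : ∀ s i k, ((A i).mulVec (X s)) k ≠ 0)
    (hdvd : ∀ s i k, (pr i : ℤ) ^ (e s i k) ∣ ((A i).mulVec (X s)) k)
    (hXQ : ∀ s k, |(X s k : ℝ)| ≤ Q s)
    (hprod : ∀ s, (∏ k, |(X s k : ℝ)|) * Q s ^ ε ≤ ∏ i, (pr i : ℝ) ^ (∑ k, e s i k)) :
    ∃ h : Fin N → ℤ, h ≠ 0 ∧ ∃ᶠ s in atTop, ∑ k, h k * X s k = 0 := by
  classical
  have hN0 : 0 < N := by omega
  set L : ℕ → ℝ := fun s => Real.log (Q s) with hL
  have hLt : Tendsto L atTop atTop := Real.tendsto_log_atTop.comp hQ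
  have hQ1 : ∀ s, 1 ≤ Q s := fun s => by
    have h1 : (1 : ℝ) ≤ |(X s ⟨0, hN0⟩ : ℝ)| := by exact_mod_cast Int.one_le_abs (hX0 s _)
    exact h1.trans (hXQ s _)
  have hQexp : ∀ s, Real.exp (L s) = Q s := fun s => Real.exp_log (by linarith [hQ1 s])
  set CA : ℝ := 1 + ∑ i, ∑ k, ∑ l, |(A i k l : ℝ)| with hCA
  have hCA1 : 1 ≤ CA := by
    have : 0 ≤ ∑ i, ∑ k, ∑ l, |(A i k l : ℝ)| := Finset.sum_nonneg fun _ _ =>
      Finset.sum_nonneg fun _ _ => Finset.sum_nonneg fun _ _ => abs_nonneg _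
    linarith
  have hpow : ∀ s i k, (pr i : ℝ) ^ (e s i k) ≤ CA * Real.exp (L s) := by
    intro s i k
    have h1 : (pr i : ℤ) ^ (e s i k) ≤ |((A i).mulVec (X s)) k| :=
      Int.le_of_dvd (abs_pos.2 (hAX0 s i k)) ((dvd_abs _ _).2 (hdvd s i k))
    have h2 : (pr i : ℝ) ^ (e s i k) ≤ |((((A i).mulVec (X s)) k : ℤ) : ℝ)| := by
      exact_mod_cast h1
    refine h2.trans ?_
    rw [hQexp]
    have h3 : |((((A i).mulVec (X s)) k : ℤ) : ℝ)| ≤ (∑ l, |(A i k l : ℝ)|) * Q s := by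
      simp only [Matrix.mulVec, dotProduct, Int.cast_sum, Int.cast_mul]
      refine (Finset.abs_sum_le_sum_abs _ _).trans ?_
      rw [Finset.sum_mul]
      refine Finset.sum_le_sum fun l _ => ?_
      rw [abs_mul]
      exact mul_le_mul_of_nonneg_left (hXQ s l) (abs_nonneg _)
    refine h3.trans (mul_le_mul_of_nonneg_right ?_ (by linarith [hQ1 s]))
    have h4 : ∑ l, |(A i k l : ℝ)| ≤ ∑ k, ∑ l, |(A i k l : ℝ)| :=
      Finset.single_le_sum (f := fun k => ∑ l, |(A i k l : ℝ)|)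
        (fun _ _ => Finset.sum_nonneg fun _ _ => abs_nonneg _) (Finset.mem_univ k)
    have h5 : ∑ k, ∑ l, |(A i k l : ℝ)| ≤ ∑ i, ∑ k, ∑ l, |(A i k l : ℝ)| :=
      Finset.single_le_sum (f := fun i => ∑ k, ∑ l, |(A i k l : ℝ)|)
        (fun _ _ => Finset.sum_nonneg fun _ _ => Finset.sum_nonneg fun _ _ => abs_nonneg _)
        (Finset.mem_univ i)
    linarith
  -- minima
  set B : ℕ → Fin N → ℝ := fun s j => |(X s j : ℝ)| with hB
  have hB1 : ∀ s j, 1 ≤ B s j := fun s j => by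
    show (1 : ℝ) ≤ |(X s j : ℝ)|
    exact_mod_cast Int.one_le_abs (hX0 s j)
  have hBpos : ∀ s j, 0 < B s j := fun s j => lt_of_lt_of_le one_pos (hB1 s j)
  have hmin := fun s => exists_minima (latS pr A (e s)) (latS_index_ne_zero hpr A (e s)) (hBpos s)
  choose b l H using hmin
  have hXmem : ∀ s, X s ∈ latS pr A (e s) := fun s => mem_latS.2 (hdvd s)
  have hflag : ∀ s (k : Fin N), 1 < l s k → qv (X s) ∈ flag (b s) k := by
    intro s k hk
    apply (H s).greedy k _ (hXmem s)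
    intro j
    calc |(X s j : ℝ)| = 1 * B s j := (one_mul _).symm
      _ < l s k * B s j := mul_lt_mul_of_pos_right hk (hBpos s j)
  have hl0 : ∀ s, l s ⟨0, hN0⟩ ≤ 1 := by
    intro s
    by_contra hcon
    push Not at hcon
    have h1 := hflag s ⟨0, hN0⟩ hcon
    have h2 : flag (b s) 0 = ⊥ := by
      unfold flag
      simp
    rw [h2, Submodule.mem_bot] at h1
    have h3 := congrFun h1 ⟨0, hN0⟩
    unfold qv at h3
    simp only [Pi.zero_apply, Int.cast_eq_zero] at h3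
    exact hX0 s _ h3
  -- lower bound for the product of the minima
  set Cd : ℝ := ((∏ i, (A i).det).natAbs : ℝ) * N.factorial with hCd
  have hCdpos : 0 < Cd := by
    have h1 : 0 < (∏ i, (A i).det).natAbs :=
      Int.natAbs_pos.2 (Finset.prod_ne_zero_iff.2 fun i _ => hA i)
    rw [hCd]
    positivity
  have hlow : ∀ s, Q s ^ ε ≤ Cd * ∏ i, l s i := by
    intro s
    have h1 : ∏ i, (pr i : ℝ) ^ (∑ k, e s i k) ≤
        ((∏ i, (A i).det).natAbs : ℝ) * (latS pr A (e s)).index := by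
      exact_mod_cast le_latS_index hpr hinj hA (e s)
    have h2 := index_le_of_linearIndependent (latS pr A (e s)) (b s) (H s).mem (H s).indep
      (l s) (B s) (H s).le
    have hBp : 0 < ∏ k, B s k := Finset.prod_pos fun k _ => hBpos s k
    have h3 : (∏ k, B s k) * Q s ^ ε ≤ (∏ k, B s k) * (Cd * ∏ i, l s i) := by
      calc (∏ k, B s k) * Q s ^ ε ≤ ∏ i, (pr i : ℝ) ^ (∑ k, e s i k) := hprod s
        _ ≤ ((∏ i, (A i).det).natAbs : ℝ) * (latS pr A (e s)).index := h1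
        _ ≤ ((∏ i, (A i).det).natAbs : ℝ) * (N.factorial * ((∏ i, l s i) * ∏ j, B s j)) :=
            mul_le_mul_of_nonneg_left h2 (Nat.cast_nonneg _)
        _ = _ := by rw [hCd]; ring
    exact le_of_mul_le_mul_left h3 hBp
  set ε' : ℝ := ε / (2 * (N * N : ℕ)) with hε'
  have hNN : (0 : ℝ) < ((N * N : ℕ) : ℝ) := by positivity
  have hε'pos : 0 < ε' := by positivity
  -- the gap
  set P : ℕ → Fin N → Prop := fun s k => 1 ≤ (k : ℕ) ∧ 1 < l s k ∧
    Real.exp (ε' * L s) * l s ⟨k - 1, lt_of_le_of_lt (Nat.sub_le k 1) k.isLt⟩ ≤ l s k with hP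
  have hgap : ∀ᶠ s in atTop, ∃ k, P s k := by
    have h1 : ∀ᶠ s in atTop, 2 * |Real.log Cd| / ε < L s := hLt.eventually_gt_atTop _
    have h2 : ∀ᶠ s in atTop, 0 < L s := hLt.eventually_gt_atTop _
    filter_upwards [h1, h2] with s hs1 hs2
    have h3 : Real.exp (ε' * L s) ^ (N * N) < ∏ i, l s i := by
      have h4 : Real.exp (ε' * L s) ^ (N * N) = Real.exp (ε / 2 * L s) := by
        rw [← Real.exp_nat_mul, hε']
        congr 1
        field_simp
      rw [h4]
      have h5 : Q s ^ ε = Real.exp (ε * L s) := by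
        rw [← hQexp s, ← Real.exp_mul, mul_comm]
      have h6 := hlow s
      rw [h5] at h6
      have h7 : Cd < Real.exp (ε / 2 * L s) := by
        rw [← Real.exp_log hCdpos, Real.exp_lt_exp]
        rw [div_lt_iff₀ hε] at hs1
        have := le_abs_self (Real.log Cd)
        linarith
      have h8 : Real.exp (ε * L s) = Real.exp (ε / 2 * L s) * Real.exp (ε / 2 * L s) := by
        rw [← Real.exp_add]
        congr 1
        ring
      rw [h8] at h6
      have hepos := Real.exp_pos (ε / 2 * L s)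
      have h9 : Cd * Real.exp (ε / 2 * L s) < Cd * ∏ i, l s i :=
        lt_of_lt_of_le (mul_lt_mul_of_pos_right h7 hepos) h6
      exact lt_of_mul_lt_mul_left h9 hCdpos.le
    obtain ⟨k, hk, hk1, hk2, hk3⟩ := exists_gap hN0 (l s) (H s).pos (hl0 s)
      (Real.exp (ε' * L s)) (Real.one_le_exp (by positivity)) h3
    exact ⟨⟨k, hk⟩, hk1, hk2, hk3⟩
  set f : ℕ → Fin N := fun s => if h : ∃ k, P s k then h.choose else ⟨0, hN0⟩ with hf
  have hPf : ∀ᶠ s in atTop, P s (f s) := by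
    filter_upwards [hgap] with s hs
    rw [hf]
    simp only
    rw [dif_pos hs]
    exact hs.choose_spec
  obtain ⟨k, hk⟩ := freq_pigeon f hPf.frequently
  have hfr : ∃ᶠ s in atTop, P s k := hk.mono fun s hs => by
    have := hs.1
    rwa [hs.2] at this
  have hk1 : 1 ≤ (k : ℕ) := by
    obtain ⟨s, hs⟩ := hfr.exists
    exact hs.1
  -- the subsets
  set p : ℕ := N - k with hp
  have hp0 : 0 < p := by
    have := k.isLt
    omega
  have hJcard : (Finset.univ.filter fun i : Fin N => (k : ℕ) ≤ (i : ℕ)).card = p := by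
    have h1 : (Finset.univ.filter fun i : Fin N => (k : ℕ) ≤ (i : ℕ)) = Finset.Ici k := by
      ext i
      rw [Finset.mem_filter, Finset.mem_Ici, Fin.le_def]
      exact ⟨fun h => h.2, fun h => ⟨Finset.mem_univ _, h⟩⟩
    rw [h1, Fin.card_Ici]
  set J0 : PC N p := ofCard hJcard with hJ0
  have hJ0mem : ∀ i, i ∈ J0.val ↔ (k : ℕ) ≤ (i : ℕ) := by
    intro i
    rw [hJ0, val_ofCard, Finset.mem_filter]
    exact ⟨fun h => h.2, fun h => ⟨Finset.mem_univ _, h⟩⟩
  have hnt : Nontrivial (PC N p) := by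
    apply Set.powersetCard.nontrivial hp0
    rw [ENat.card_eq_coe_fintype_card, Fintype.card_fin]
    exact_mod_cast (by omega : p < N)
  have hcard2 : 1 < Fintype.card (PC N p) := Fintype.one_lt_card
  obtain ⟨k', hk'⟩ : ∃ k', Fintype.card (PC N p) = k' + 1 :=
    ⟨Fintype.card (PC N p) - 1, by omega⟩
  have hk'1 : 1 ≤ k' := by omega
  obtain ⟨σ, hσ⟩ := exists_equiv_last hk' J0
  obtain ⟨κ, L0, hstep⟩ := step hN0 hk1 k.isLt σ hk'1 J0 hσ hJ0mem pr hpr hinj A hA ε' hε'pos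
    CA hCA1
  obtain ⟨φ, hφ, hφP⟩ := Filter.extraction_of_frequently_atTop
    (hfr.and_eventually (hLt.eventually_ge_atTop L0))
  have hst := fun n => hstep (e (φ n)) (B (φ n)) (b (φ n)) (l (φ n)) (L (φ n)) (hφP n).2
    (hB1 _) (fun j => by rw [hQexp]; exact hXQ _ j) (fun i j => hpow _ i j) (H _)
    (hφP n).1.2.2
  choose z c hzli hcκ hcsum hzle hzorth using hst
  obtain ⟨b', hb', hfr'⟩ := last_min (avS pr hpr) (avS_prod pr hpr hinj) (avS_lb pr hpr) hk'1
    (fun v => v.elim 1 fun i' => compR σ (A i'))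
    (fun v => by
      cases v with
      | none => simp
      | some i => exact compR_det_ne_zero σ (hA i))
    κ (ε' / 2) (by positivity) (L ∘ φ) (hLt.comp hφ.tendsto_atTop) c hcκ hcsum z hzli hzle
  set a : PC N p → ℤ := fun I => b' (σ I) with ha
  have ha0 : a ≠ 0 := by
    intro h0
    apply hb'
    funext i
    have := congrFun h0 (σ.symm i)
    rw [ha] at this
    simpa using this
  obtain ⟨h, hh0, hh⟩ := exists_hyper hp0 a ha0
  refine ⟨h, hh0, hφ.tendsto_atTop.frequently (hfr'.mono fun n hn => ?_)⟩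
  exact hh (b (φ n)) k J0 (H (φ n)).indep (fun i hi => (hJ0mem i).1 hi)
    (fun J hJ => hzorth n b' hn J hJ) (X (φ n)) (hflag (φ n) k (hφP n).1.2.1)

end Pool.Agent.Lib.Subspace
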