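import Pool.Agent.Lib.Subspace.Wedge
import Pool.Agent.Lib.Subspace.Places
import Pool.Agent.Lib.Subspace.Gap
import Pool.Agent.Lib.SubspaceH13.Davenport
import Pool.Agent.Lib.Subspace.LatS

/-!
# One step: compound lattice and reduction to the penultimate minimum
-/

namespace Pool.Agent.Lib.Subspace

open Matrix Set.powersetCard SubspaceH13

theorem lin_iff_det {n : ℕ} (b : Fin n → Fin n → ℤ) :
    LinearIndependent ℚ (fun i => qv (b i)) ↔ (Matrix.of b).det ≠ 0 := by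
  classical
  have h1 : (Matrix.of (fun i => qv (b i))) = (Matrix.of b).map (Int.cast : ℤ → ℚ) := rfl
  have h2 : LinearIndependent ℚ (fun i => qv (b i)) ↔
      IsUnit (Matrix.of (fun i => qv (b i))) := by
    rw [← Matrix.linearIndependent_rows_iff_isUnit]
    rfl
  rw [h2, Matrix.isUnit_iff_isUnit_det, isUnit_iff_ne_zero, h1]
  have h3 : ((Matrix.of b).map (Int.cast : ℤ → ℚ)).det = (((Matrix.of b).det : ℤ) : ℚ) :=
    (Int.cast_det (R := ℚ) (Matrix.of b)).symm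
  rw [h3]
  norm_cast

section

variable {n p k' : ℕ}

/-- the compound matrix on `Fin (k' + 1)` -/
noncomputable def compR (σ : PC n p ≃ Fin (k' + 1)) (A : Matrix (Fin n) (Fin n) ℤ) :
    Matrix (Fin (k' + 1)) (Fin (k' + 1)) ℤ := (comp p A).submatrix σ.symm σ.symm

theorem compR_det_ne_zero (σ : PC n p ≃ Fin (k' + 1)) {A : Matrix (Fin n) (Fin n) ℤ}
    (hA : A.det ≠ 0) : (compR σ A).det ≠ 0 := by
  unfold compR
  rw [Matrix.det_submatrix_equiv_self]
  exact comp_det_ne_zero p hA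

/-- wedges of the rows -/
noncomputable def wed (σ : PC n p ≃ Fin (k' + 1)) (b : Fin n → Fin n → ℤ) :
    Fin (k' + 1) → Fin (k' + 1) → ℤ := fun i j => comp p (Matrix.of b) (σ.symm i) (σ.symm j)

theorem wed_mulVec (σ : PC n p ≃ Fin (k' + 1)) (A : Matrix (Fin n) (Fin n) ℤ)
    (b : Fin n → Fin n → ℤ) (i j : Fin (k' + 1)) :
    (compR σ A).mulVec (wed σ b i) j = (Matrix.of fun (s t : Fin p) =>
      A.mulVec (b (emb (σ.symm i) t)) (emb (σ.symm j) s)).det := by
  have h := comp_mulVec p A (Matrix.of b) (σ.symm i) (σ.symm j)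
  rw [show (Matrix.of fun (s t : Fin p) => A.mulVec (b (emb (σ.symm i) t))
    (emb (σ.symm j) s)) = (Matrix.of fun (s t : Fin p) =>
      A.mulVec ((Matrix.of b) (emb (σ.symm i) t)) (emb (σ.symm j) s)) from rfl, ← h]
  simp only [Matrix.mulVec, dotProduct, compR, wed, Matrix.submatrix_apply]
  exact Equiv.sum_comp σ.symm (fun I => comp p A (σ.symm j) I * comp p (Matrix.of b) (σ.symm i) I)

theorem wed_indep (σ : PC n p ≃ Fin (k' + 1)) (b : Fin n → Fin n → ℤ)
    (hb : LinearIndependent ℚ (fun i => qv (b i))) :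
    LinearIndependent ℚ (fun i => qv (wed σ b i)) := by
  rw [lin_iff_det] at hb ⊢
  have h : Matrix.of (wed σ b) = compR σ (Matrix.of b) := rfl
  rw [h]
  exact compR_det_ne_zero σ hb

/-- exponents on the subsets -/
noncomputable def eR (σ : PC n p ≃ Fin (k' + 1)) (e : Fin n → ℕ) (j : Fin (k' + 1)) : ℕ :=
  ∑ t, e (emb (σ.symm j) t)

/-- box sizes on the subsets -/
noncomputable def bR (σ : PC n p ≃ Fin (k' + 1)) (B : Fin n → ℝ) (j : Fin (k' + 1)) : ℝ :=
  ∏ t, B (emb (σ.symm j) t)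

theorem sum_eR (σ : PC n p ≃ Fin (k' + 1)) (e : Fin n → ℕ) (j0 : Fin n) :
    ∑ j, eR σ e j = qq p j0 * ∑ i, e i := by
  rw [← sum_sum_emb e j0]
  exact Equiv.sum_comp σ.symm (fun J => ∑ t, e (emb J t))

theorem prod_bR (σ : PC n p ≃ Fin (k' + 1)) (B : Fin n → ℝ) (j0 : Fin n) :
    ∏ j, bR σ B j = (∏ i, B i) ^ qq p j0 := by
  rw [← prod_prod_emb B j0]
  exact Equiv.prod_comp σ.symm (fun J => ∏ t, B (emb J t))

theorem wed_dvd (σ : PC n p ≃ Fin (k' + 1)) (A : Matrix (Fin n) (Fin n) ℤ)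
    (b : Fin n → Fin n → ℤ) (q : ℤ) (e : Fin n → ℕ)
    (h : ∀ j i, q ^ e i ∣ A.mulVec (b j) i) (i j : Fin (k' + 1)) :
    q ^ eR σ e j ∣ (compR σ A).mulVec (wed σ b i) j := by
  rw [wed_mulVec]
  unfold eR
  rw [← Finset.prod_pow_eq_pow_sum]
  exact det_dvd _ (fun s => q ^ e (emb (σ.symm j) s)) fun s t => h _ _

theorem wed_le (σ : PC n p ≃ Fin (k' + 1)) (b : Fin n → Fin n → ℤ) (l B : Fin n → ℝ)
    (h : ∀ i j, |(b i j : ℝ)| ≤ l i * B j) (i j : Fin (k' + 1)) :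
    |(wed σ b i j : ℝ)| ≤ (p.factorial * bR σ l i) * bR σ B j := by
  have h1 := isNm_int.det_le₂ ((Matrix.of b).submatrix (emb (σ.symm i)) (emb (σ.symm j)))
    (fun r => l (emb (σ.symm i) r)) (fun c => B (emb (σ.symm j) c)) (fun r c => h _ _)
  rw [mul_assoc]
  exact h1

end

end Pool.Agent.Lib.Subspace
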