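import Pool.Agent.Lib.Subspace.Step

/-!
# One step: compound lattice and reduction to the penultimate minimum, continued
-/

namespace Pool.Agent.Lib.Subspace

open Matrix Set.powersetCard SubspaceH13

theorem penK_pos (n : ℕ) (hn : 1 ≤ n) : 0 < penK n := by
  unfold penK
  have := one_le_penC hn
  positivity

/-- the span of `k` independent vectors in the span of `k` vectors -/
theorem orth_of_span {N k : ℕ} (z X : Fin k → Fin N → ℤ)
    (hz : LinearIndependent ℚ (fun i => qv (z i)))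
    (hzX : ∀ i, qv (z i) ∈ Submodule.span ℚ (Set.range fun i => qv (X i)))
    (a : Fin N → ℤ) (ha : ∀ j, ∑ i, a i * z j i = 0) (t : Fin k) : ∑ i, a i * X t i = 0 := by
  classical
  have h1 : Submodule.span ℚ (Set.range fun i => qv (z i)) ≤
      Submodule.span ℚ (Set.range fun i => qv (X i)) := by
    rw [Submodule.span_le]
    rintro _ ⟨i, rfl⟩
    exact hzX i
  have h2 : Module.finrank ℚ (Submodule.span ℚ (Set.range fun i => qv (X i))) ≤ k := by
    have := finrank_range_le_card (R := ℚ) (fun i => qv (X i))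
    rwa [Fintype.card_fin] at this
  have h3 : Submodule.span ℚ (Set.range fun i => qv (z i)) =
      Submodule.span ℚ (Set.range fun i => qv (X i)) := by
    apply Submodule.eq_of_le_of_finrank_le h1
    rw [finrank_span_eq_card hz, Fintype.card_fin]
    exact h2
  set f : (Fin N → ℚ) →ₗ[ℚ] ℚ := ∑ i, (a i : ℚ) • LinearMap.proj i with hf
  have hfa : ∀ v, f v = ∑ i, (a i : ℚ) * v i := by
    intro v
    simp [hf, LinearMap.sum_apply]
  have h4 : Submodule.span ℚ (Set.range fun i => qv (z i)) ≤ LinearMap.ker f := by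
    rw [Submodule.span_le]
    rintro _ ⟨i, rfl⟩
    rw [SetLike.mem_coe, LinearMap.mem_ker, hfa]
    have := ha i
    show ∑ i', (a i' : ℚ) * (z i i' : ℚ) = 0
    exact_mod_cast this
  have h5 : qv (X t) ∈ LinearMap.ker f := by
    apply h4
    rw [h3]
    exact Submodule.subset_span ⟨t, rfl⟩
  rw [LinearMap.mem_ker, hfa] at h5
  unfold qv at h5
  exact_mod_cast h5

theorem step {ι : Type} [Fintype ι] [DecidableEq ι] {n p k k' : ℕ} (hn : 0 < n)
    (hk1 : 1 ≤ k) (hkn : k < n)
    (σ : PC n p ≃ Fin (k' + 1)) (hk' : 1 ≤ k') (J0 : PC n p) (hσ : σ J0 = Fin.last k')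
    (hJ0 : ∀ i, i ∈ J0.val ↔ k ≤ (i : ℕ)) (pr : ι → ℕ) (hpr : ∀ i, (pr i).Prime)
    (hinj : Function.Injective pr) (A : ι → Matrix (Fin n) (Fin n) ℤ) (hA : ∀ i, (A i).det ≠ 0)
    (ε : ℝ) (hε : 0 < ε) (CA : ℝ) (hCA : 1 ≤ CA) :
    ∃ κ L0 : ℝ, ∀ (e : ι → Fin n → ℕ) (B : Fin n → ℝ) (b : Fin n → Fin n → ℤ) (l : Fin n → ℝ)
      (L : ℝ), L0 ≤ L → (∀ j, 1 ≤ B j) → (∀ j, B j ≤ Real.exp L) →
      (∀ i j, (pr i : ℝ) ^ (e i j) ≤ CA * Real.exp L) → IsMinima (latS pr A e) B b l →
      Real.exp (ε * L) * l ⟨k - 1, lt_of_le_of_lt (Nat.sub_le k 1) hkn⟩ ≤ l ⟨k, hkn⟩ →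
      ∃ (z : Fin k' → Fin (k' + 1) → ℤ) (c : Option ι → Fin (k' + 1) → ℝ),
        LinearIndependent ℚ (fun j i => (z j i : ℚ)) ∧ (∀ v i, |c v i| ≤ κ) ∧
        (∑ v, ∑ i, c v i ≤ -(ε / 2)) ∧
        (∀ v j i, avS pr hpr v ((v.elim 1 fun i' => compR σ (A i')).mulVec (z j) i) ≤
          Real.exp (c v i * L)) ∧
        (∀ a : Fin (k' + 1) → ℤ, (∀ j, ∑ i, a i * z j i = 0) → ∀ J : PC n p, J ≠ J0 →
          ∑ I, a (σ I) * comp p (Matrix.of b) J I = 0) := by
  classical
  set j0 : Fin n := ⟨0, hn⟩ with hj0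
  set q := qq p j0 with hq
  set N' : ℝ := ((k' + 1 : ℕ) : ℝ) with hN'
  have hN'1 : 1 ≤ N' := by
    rw [hN']
    exact_mod_cast Nat.succ_pos k'
  set nn : ℝ := (n : ℝ) with hnn
  have hnn1 : 1 ≤ nn := by
    rw [hnn]
    exact_mod_cast hn
  set A' : ι → Matrix (Fin (k' + 1)) (Fin (k' + 1)) ℤ := fun i => compR σ (A i) with hA'
  have hA'det : ∀ i, (A' i).det ≠ 0 := fun i => compR_det_ne_zero σ (hA i)
  set Cdet : ℝ := ((∏ i, (A' i).det).natAbs : ℝ) with hCdet
  have hCdet1 : 1 ≤ Cdet := by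
    rw [hCdet]
    exact_mod_cast Int.natAbs_pos.2 (Finset.prod_ne_zero_iff.2 fun i _ => hA'det i)
  set C0 : ℝ := (p.factorial : ℝ) ^ (k' + 1) * (((n : ℝ) ^ n) ^ n) ^ q * Cdet with hC0
  have hC0pos : 0 < C0 := by positivity
  have hpk := penK_pos (k' + 1) (by omega)
  set K1 : ℝ := Real.log ((((k' + 1 : ℕ) : ℝ) ^ (k' + 1)) ^ (k' + 1)) with hK1
  set κ1 : ℝ := 2 * Fintype.card ι * nn * N' with hκ1
  have hκ1nn : 0 ≤ κ1 := by positivity
  refine ⟨2 * (1 + κ1 + nn * N') + 2 * nn,
    1 + |Real.log CA| + 2 * |Real.log (penK (k' + 1) * C0)| / ε + |K1|, ?_⟩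
  intro e B b l L hL hB1 hBL heL H hgap
  have hLa : 0 ≤ |Real.log CA| := abs_nonneg _
  have hLb : 0 ≤ 2 * |Real.log (penK (k' + 1) * C0)| / ε := by positivity
  have hLc : 0 ≤ |K1| := abs_nonneg _
  have hL1 : 1 ≤ L := by linarith
  have hLpos : 0 < L := by linarith
  have hLCA : Real.log CA ≤ L := (le_abs_self _).trans (by linarith)
  have hLK1 : K1 ≤ L := (le_abs_self _).trans (by linarith)
  have hLpen : Real.log (penK (k' + 1) * C0) ≤ ε / 2 * L := by
    have h1 : 2 * |Real.log (penK (k' + 1) * C0)| / ε ≤ L := by linarith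
    rw [div_le_iff₀ hε] at h1
    have h2 := le_abs_self (Real.log (penK (k' + 1) * C0))
    linarith
  have hBpos : ∀ j, 0 < B j := fun j => lt_of_lt_of_le one_pos (hB1 j)
  have hlpos := H.pos
  -- the compound lattice
  set e' : ι → Fin (k' + 1) → ℕ := fun i => eR σ (e i) with he'
  set Λ := latS pr A e with hΛ
  set Λ' := latS pr A' e' with hΛ'
  have hidx : Λ.index ≠ 0 := latS_index_ne_zero hpr A e
  have hidx' : Λ'.index ≠ 0 := latS_index_ne_zero hpr A' e'
  set X := wed σ b with hX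
  set B' : Fin (k' + 1) → ℝ := bR σ B with hB'
  have hB'1 : ∀ j, 1 ≤ B' j := by
    intro j
    rw [hB']
    unfold bR
    calc (1 : ℝ) = ∏ _t : Fin p, (1 : ℝ) := by simp
      _ ≤ _ := Finset.prod_le_prod (fun _ _ => zero_le_one) fun t _ => hB1 _
  have hB'pos : ∀ j, 0 < B' j := fun j => lt_of_lt_of_le one_pos (hB'1 j)
  have hpn : (p : ℝ) ≤ nn := by
    have h1 : J0.val.card ≤ n := by
      have := Finset.card_le_univ J0.val
      rwa [Fintype.card_fin] at this
    have h2 : J0.val.card = p := J0.prop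
    rw [h2] at h1
    rw [hnn]
    exact_mod_cast h1
  have hB'L : ∀ j, B' j ≤ Real.exp (nn * L) := by
    intro j
    rw [hB']
    unfold bR
    calc ∏ t, B (emb (σ.symm j) t) ≤ ∏ _t : Fin p, Real.exp L :=
          Finset.prod_le_prod (fun t _ => (hBpos _).le) fun t _ => hBL _
      _ = Real.exp (p * L) := by
          rw [Finset.prod_const, Finset.card_univ, Fintype.card_fin, ← Real.exp_nat_mul]
      _ ≤ Real.exp (nn * L) := by
          rw [Real.exp_le_exp]
          exact mul_le_mul_of_nonneg_right hpn hLpos.le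
  have hXmem : ∀ i, X i ∈ Λ' := by
    intro i
    rw [hΛ', mem_latS]
    intro i' j
    exact wed_dvd σ (A i') b (pr i') (e i') (fun j i => (mem_latS.1 (H.mem j)) i' i) i j
  have hXli : LinearIndependent ℚ (fun i => qv (X i)) := wed_indep σ b H.indep
  set m : Fin (k' + 1) → ℝ := fun i => p.factorial * bR σ l i with hm
  have hbRl : ∀ i, 0 < bR σ l i := fun i => Finset.prod_pos fun t _ => hlpos _
  have hmpos : ∀ i, 0 < m i := fun i => mul_pos (by positivity) (hbRl i)
  have hXle : ∀ i j, |(X i j : ℝ)| ≤ m i * B' j := fun i j => wed_le σ b l B H.le i j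
  -- the index
  have hup : (∏ i, l i) * ∏ j, B j ≤ ((n : ℝ) ^ n) ^ n * Λ.index := H.upper hidx hBpos
  have hGle : (Λ.index : ℝ) ≤ ∏ i, (pr i : ℝ) ^ (∑ j, e i j) := by
    exact_mod_cast latS_index_le hpr A e
  have hG' : (∏ i, (pr i : ℝ) ^ (∑ j, e i j)) ^ q ≤ Cdet * Λ'.index := by
    have h1 : (∏ i, (pr i : ℝ) ^ (∑ j, e i j)) ^ q = ∏ i, (pr i : ℝ) ^ (∑ j, e' i j) := by
      rw [← Finset.prod_pow]
      refine Finset.prod_congr rfl fun i _ => ?_
      rw [← pow_mul, he']
      simp only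
      rw [sum_eR σ (e i) j0, mul_comm]
    rw [h1, hCdet]
    exact_mod_cast le_latS_index hpr hinj hA'det e'
  have hC₀ : (∏ i, m i) * ∏ j, B' j ≤ C0 * Λ'.index := by
    have h1 : ∏ i, m i = (p.factorial : ℝ) ^ (k' + 1) * (∏ i, l i) ^ q := by
      rw [hm, Finset.prod_mul_distrib, prod_bR σ l j0, Finset.prod_const, Finset.card_univ,
        Fintype.card_fin]
    have h2 : ∏ j, B' j = (∏ j, B j) ^ q := prod_bR σ B j0
    have hprodpos : 0 < (∏ i, l i) * ∏ j, B j :=
      mul_pos (Finset.prod_pos fun i _ => hlpos i) (Finset.prod_pos fun i _ => hBpos i)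
    calc (∏ i, m i) * ∏ j, B' j
        = (p.factorial : ℝ) ^ (k' + 1) * ((∏ i, l i) * ∏ j, B j) ^ q := by
          rw [h1, h2, mul_pow]; ring
      _ ≤ (p.factorial : ℝ) ^ (k' + 1) *
            (((n : ℝ) ^ n) ^ n * ∏ i, (pr i : ℝ) ^ (∑ j, e i j)) ^ q := by
          apply mul_le_mul_of_nonneg_left _ (by positivity)
          apply pow_le_pow_left₀ hprodpos.le
          exact hup.trans (mul_le_mul_of_nonneg_left hGle (by positivity))
      _ = (p.factorial : ℝ) ^ (k' + 1) * (((n : ℝ) ^ n) ^ n) ^ q *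
            (∏ i, (pr i : ℝ) ^ (∑ j, e i j)) ^ q := by rw [mul_pow]; ring
      _ ≤ (p.factorial : ℝ) ^ (k' + 1) * (((n : ℝ) ^ n) ^ n) ^ q * (Cdet * Λ'.index) := by
          apply mul_le_mul_of_nonneg_left hG'
          positivity
      _ = _ := by rw [hC0]; ring
  set γ : ℝ := Real.exp (-(ε * L)) with hγ
  have hγm : ∀ i : Fin k', m i.castSucc ≤ γ * m (Fin.last k') := by
    intro i
    have hne : σ.symm i.castSucc ≠ J0 := by
      intro h
      have h2 : i.castSucc = σ J0 := by rw [← h, Equiv.apply_symm_apply]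
      rw [hσ] at h2
      exact (Fin.castSucc_lt_last i).ne h2
    have h1 := prod_lt_of_ne l hlpos k (l ⟨k - 1, lt_of_le_of_lt (Nat.sub_le k 1) hkn⟩)
      (l ⟨k, hkn⟩) (Real.exp (ε * L)) (hlpos _) (Real.one_le_exp (by positivity)) hgap
      (fun i hi => H.mono (Fin.le_def.2 (by simp only; omega)))
      (fun i hi => H.mono (Fin.le_def.2 (by simpa using hi))) J0 (σ.symm i.castSucc) hJ0 hne
    rw [← prod_emb l, ← prod_emb l] at h1
    have h2 : σ.symm (Fin.last k') = J0 := by rw [← hσ, Equiv.symm_apply_apply]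
    have h3 : bR σ l i.castSucc ≤ γ * bR σ l (Fin.last k') := by
      unfold bR
      rw [h2, hγ]
      calc ∏ t, l (emb (σ.symm i.castSucc) t)
          = Real.exp (-(ε * L)) * (Real.exp (ε * L) * ∏ t, l (emb (σ.symm i.castSucc) t)) := by
            rw [← mul_assoc, ← Real.exp_add, neg_add_cancel, Real.exp_zero, one_mul]
        _ ≤ _ := mul_le_mul_of_nonneg_left h1 (Real.exp_pos _).le
    calc m i.castSucc = p.factorial * bR σ l i.castSucc := rfl
      _ ≤ p.factorial * (γ * bR σ l (Fin.last k')) :=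
          mul_le_mul_of_nonneg_left h3 (by positivity)
      _ = γ * m (Fin.last k') := by rw [hm]; ring
  have hpenpos : 0 < penK (k' + 1) * C0 := mul_pos hpk hC0pos
  have hsm : penK (k' + 1) * (C0 * γ) = Real.exp (Real.log (penK (k' + 1) * C0) - ε * L) := by
    rw [sub_eq_add_neg, Real.exp_add, Real.exp_log hpenpos, hγ]
    ring
  have hεL : 0 < ε * L := mul_pos hε hLpos
  have hsmall : penK (k' + 1) * (C0 * γ) < 1 := by
    rw [hsm, Real.exp_lt_one_iff]
    linarith
  obtain ⟨r, z, M, hr, hr1, hrb, hzΛ, hzli, hzspan, hM, hMle, hzle⟩ :=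
    penultimate hk' hidx' hB'pos X hXmem hXli m hmpos hXle C0 hC₀ γ hγm hsmall
  -- logarithms
  set lM := Real.log M with hlM
  set lI := Real.log (Λ'.index : ℝ) with hlI
  have hidx'pos : (0 : ℝ) < Λ'.index := by exact_mod_cast Nat.pos_of_ne_zero hidx'
  have hidx'1 : (1 : ℝ) ≤ Λ'.index := by exact_mod_cast Nat.pos_of_ne_zero hidx'
  have hlI0 : 0 ≤ lI := Real.log_nonneg hidx'1
  have helog : ∀ i j, (e i j : ℝ) * Real.log (pr i) ≤ 2 * L := by
    intro i j
    have hprpos : (0 : ℝ) < pr i := by exact_mod_cast (hpr i).pos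
    have h1 := Real.log_le_log (pow_pos hprpos _) (heL i j)
    rw [Real.log_pow, Real.log_mul (by linarith) (Real.exp_pos _).ne', Real.log_exp] at h1
    linarith
  have he'log : ∀ i j, (e' i j : ℝ) * Real.log (pr i) ≤ 2 * nn * L := by
    intro i j
    calc (e' i j : ℝ) * Real.log (pr i) = ∑ t, (e i (emb (σ.symm j) t) : ℝ) * Real.log (pr i) := by
          rw [he']
          simp only [eR]
          push_cast
          rw [Finset.sum_mul]
      _ ≤ ∑ _t : Fin p, 2 * L := Finset.sum_le_sum fun t _ => helog _ _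
      _ = p * (2 * L) := by simp
      _ ≤ nn * (2 * L) := mul_le_mul_of_nonneg_right hpn (by linarith)
      _ = _ := by ring
  have hlogpr : ∀ i, 0 < Real.log (pr i) := fun i =>
    Real.log_pos (by exact_mod_cast (hpr i).one_lt)
  have hlogG : Real.log (∏ i, (pr i : ℝ) ^ (∑ j, e' i j)) =
      ∑ i, ∑ j, (e' i j : ℝ) * Real.log (pr i) := by
    rw [Real.log_prod]
    · refine Finset.sum_congr rfl fun i _ => ?_
      rw [Real.log_pow]
      push_cast
      rw [Finset.sum_mul]
    · intro i _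
      exact pow_ne_zero _ (by exact_mod_cast (hpr i).ne_zero)
  have hlIle : lI ≤ ∑ i, ∑ j, (e' i j : ℝ) * Real.log (pr i) := by
    rw [← hlogG]
    apply Real.log_le_log hidx'pos
    exact_mod_cast latS_index_le hpr A' e'
  have hlIκ : lI ≤ κ1 * L := by
    refine hlIle.trans ?_
    calc ∑ i, ∑ j, (e' i j : ℝ) * Real.log (pr i)
        ≤ ∑ _i : ι, ∑ _j : Fin (k' + 1), 2 * nn * L :=
          Finset.sum_le_sum fun i _ => Finset.sum_le_sum fun j _ => he'log i j
      _ = κ1 * L := by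
          simp only [Finset.sum_const, Finset.card_univ, Fintype.card_fin, nsmul_eq_mul]
          rw [hκ1]
          ring
  have hlB0 : ∀ j, 0 ≤ Real.log (B' j) := fun j => Real.log_nonneg (hB'1 j)
  have hlBL : ∀ j, Real.log (B' j) ≤ nn * L := fun j => by
    have := Real.log_le_log (hB'pos j) (hB'L j)
    rwa [Real.log_exp] at this
  have hlogB' : Real.log (∏ j, B' j) = ∑ j, Real.log (B' j) :=
    Real.log_prod (fun j _ => (hB'pos j).ne')
  have hprodB' : 0 < ∏ j, B' j := Finset.prod_pos fun j _ => hB'pos j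
  have hsumB0 : 0 ≤ ∑ j, Real.log (B' j) := Finset.sum_nonneg fun j _ => hlB0 j
  have hsumBL : ∑ j, Real.log (B' j) ≤ N' * (nn * L) := by
    calc ∑ j, Real.log (B' j) ≤ ∑ _j : Fin (k' + 1), nn * L :=
          Finset.sum_le_sum fun j _ => hlBL j
      _ = _ := by
          rw [Finset.sum_const, Finset.card_univ, Fintype.card_fin, nsmul_eq_mul]
  set RR : ℝ := (((k' + 1 : ℕ) : ℝ) ^ (k' + 1)) ^ (k' + 1) * Λ'.index *
    Real.exp (nn * L) ^ (k' + 1) with hRR
  have hK0pos : (0 : ℝ) < (((k' + 1 : ℕ) : ℝ) ^ (k' + 1)) ^ (k' + 1) := by positivity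
  have hRRpos : 0 < RR := by positivity
  have hlogRR : Real.log RR = K1 + lI + N' * (nn * L) := by
    have h1 : Real.log (Real.exp (nn * L) ^ (k' + 1)) = N' * (nn * L) := by
      rw [Real.log_pow, Real.log_exp]
    rw [hRR, Real.log_mul (by positivity) (by positivity),
      Real.log_mul hK0pos.ne' hidx'pos.ne', h1]
  have hlogRRle : Real.log RR ≤ (1 + κ1 + nn * N') * L := by
    rw [hlogRR]
    linarith
  have hrle : ∀ j, Real.log (r j) ≤ Real.log RR := by
    intro j
    have h1 := (hrb (Real.exp (nn * L)) hB'L j).1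
    have h2 := Real.log_le_log (mul_pos (hr j) hprodB') h1
    rw [Real.log_mul (hr j).ne' hprodB'.ne', hlogB'] at h2
    linarith
  have hrge : ∀ j, -Real.log RR ≤ Real.log (r j) := by
    intro j
    have h1 := (hrb (Real.exp (nn * L)) hB'L j).2
    have h2 := Real.log_le_log hprodB' h1
    rw [Real.log_mul (hr j).ne' hRRpos.ne', hlogB'] at h2
    linarith
  have hMlog : ((k' + 1 : ℕ) : ℝ) * lM + ∑ j, Real.log (B' j) ≤
      Real.log (penK (k' + 1) * C0) - ε * L + lI := by
    have h1 := Real.log_le_log (mul_pos (pow_pos hM _) hprodB') hMle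
    rw [Real.log_mul (pow_pos hM _).ne' hprodB'.ne', Real.log_pow, hlogB', hsm,
      Real.log_mul (Real.exp_pos _).ne' hidx'pos.ne', Real.log_exp] at h1
    exact h1
  have hlMle : lM ≤ Real.log RR := by
    by_contra hcon
    push Not at hcon
    have h0 : 0 ≤ Real.log RR := by
      rw [hlogRR]
      have : 0 ≤ K1 := Real.log_nonneg (one_le_pow₀ (one_le_pow₀ hN'1))
      have : 0 ≤ N' * (nn * L) := by positivity
      linarith
    have h1 : lM ≤ N' * lM := le_mul_of_one_le_left (by linarith) hN'1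
    have h2 : lI ≤ Real.log RR := by
      rw [hlogRR]
      have : 0 ≤ K1 := Real.log_nonneg (one_le_pow₀ (one_le_pow₀ hN'1))
      have : 0 ≤ N' * (nn * L) := by positivity
      linarith
    have h3 : Real.log (penK (k' + 1) * C0) - ε * L ≤ 0 := by linarith
    linarith
  have hlMge : -(Real.log RR) - nn * L ≤ lM := by
    set i0 : Fin k' := ⟨0, hk'⟩ with hi0
    have hne : z i0 ≠ 0 := by
      intro h0
      apply hzli.ne_zero i0
      rw [h0, qv_zero]
    obtain ⟨j, hj⟩ : ∃ j, z i0 j ≠ 0 := by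
      by_contra hcon
      push Not at hcon
      exact hne (funext hcon)
    have h1 : (1 : ℝ) ≤ |(z i0 j : ℝ)| := by exact_mod_cast Int.one_le_abs hj
    have h2 := h1.trans (hzle i0 j)
    have h3 := Real.log_le_log one_pos h2
    rw [Real.log_one, Real.log_mul hM.ne' (mul_pos (hr j) (hB'pos j)).ne',
      Real.log_mul (hr j).ne' (hB'pos j).ne'] at h3
    have h4 := hrle j
    have h5 := hlBL j
    linarith
  -- the exponents
  set c : Option ι → Fin (k' + 1) → ℝ := fun v j => v.elim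
    ((lM + Real.log (r j) + Real.log (B' j)) / L)
    (fun i => -((e' i j : ℝ) * Real.log (pr i)) / L) with hc
  refine ⟨z, c, hzli, ?_, ?_, ?_, ?_⟩
  · intro v j
    cases v with
    | none =>
      simp only [hc, Option.elim_none]
      rw [abs_div, abs_of_pos hLpos, div_le_iff₀ hLpos, abs_le]
      have h1 := hrle j
      have h2 := hrge j
      have h3 := hlB0 j
      have h4 := hlBL j
      constructor <;> linarith
    | some i =>
      simp only [hc, Option.elim_some]
      rw [abs_div, abs_of_pos hLpos, div_le_iff₀ hLpos, abs_neg,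
        abs_of_nonneg (mul_nonneg (Nat.cast_nonneg _) (hlogpr i).le)]
      have h1 := he'log i j
      have h2 : 0 ≤ 2 * (1 + κ1 + nn * N') * L := by positivity
      linarith
  · rw [Fintype.sum_option]
    simp only [hc, Option.elim_none, Option.elim_some]
    rw [← Finset.sum_div, Finset.sum_add_distrib, Finset.sum_add_distrib]
    have h1 : ∑ j, Real.log (r j) = 0 := by
      rw [← Real.log_prod (fun j _ => (hr j).ne'), hr1, Real.log_one]
    have h2 : ∑ i, ∑ j, -((e' i j : ℝ) * Real.log (pr i)) / L =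
        -(∑ i, ∑ j, (e' i j : ℝ) * Real.log (pr i)) / L := by
      rw [← Finset.sum_neg_distrib, Finset.sum_div]
      refine Finset.sum_congr rfl fun i _ => ?_
      rw [← Finset.sum_neg_distrib, Finset.sum_div]
    rw [h1, h2, ← add_div, div_le_iff₀ hLpos, Finset.sum_const, Finset.card_univ,
      Fintype.card_fin, nsmul_eq_mul]
    linarith
  · intro v j i
    cases v with
    | none =>
      simp only [hc, Option.elim_none, Matrix.one_mulVec]
      rw [avS_none]
      refine (hzle j i).trans (le_of_eq ?_)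
      rw [div_mul_cancel₀ _ hLpos.ne', Real.exp_add, Real.exp_add, hlM, Real.exp_log hM,
        Real.exp_log (hr i), Real.exp_log (hB'pos i)]
      ring
    | some i' =>
      simp only [hc, Option.elim_some]
      have h1 := avS_some_le pr hpr i' ((compR σ (A i')).mulVec (z j) i) (e' i' i)
        ((mem_latS.1 (hzΛ j)) i' i)
      refine h1.trans (le_of_eq ?_)
      have hprpos : (0 : ℝ) < pr i' := by exact_mod_cast (hpr i').pos
      rw [div_mul_cancel₀ _ hLpos.ne', Real.exp_neg, Real.exp_nat_mul, Real.exp_log hprpos]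
  · intro a ha J hJ
    have hne : σ J ≠ Fin.last k' := by
      intro h
      apply hJ
      apply σ.injective
      rw [h, hσ]
    obtain ⟨i, hi⟩ := Fin.exists_castSucc_eq.2 hne
    have h1 : ∑ i', a i' * X (i.castSucc) i' = 0 :=
      orth_of_span z (fun i => X i.castSucc) hzli hzspan a ha i
    rw [hi] at h1
    have h2 : ∀ j, X (σ J) j = comp p (Matrix.of b) J (σ.symm j) := by
      intro j
      rw [hX]
      unfold wed
      rw [Equiv.symm_apply_apply]
    calc ∑ I, a (σ I) * comp p (Matrix.of b) J I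
        = ∑ i, a (σ (σ.symm i)) * comp p (Matrix.of b) J (σ.symm i) :=
          (Equiv.sum_comp σ.symm (fun I => a (σ I) * comp p (Matrix.of b) J I)).symm
      _ = ∑ i, a i * comp p (Matrix.of b) J (σ.symm i) :=
          Finset.sum_congr rfl fun i _ => by rw [Equiv.apply_symm_apply]
      _ = ∑ i, a i * X (σ J) i := Finset.sum_congr rfl fun i _ => by rw [h2 i]
      _ = 0 := h1

end Pool.Agent.Lib.Subspace
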