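import Pool.Agent.Lib.Subspace.Compound
import Pool.Agent.Lib.SubspaceH13.Minima

/-!
# The hyperplane attached to a vector orthogonal to the wedges
-/

namespace Pool.Agent.Lib.Subspace

open Matrix Set.powersetCard SubspaceH13

section

variable {n p : ℕ} {R : Type*} [CommRing R]

theorem alt_sum_apply {ι : Type*} (s : Finset ι) (f : ι → (Fin n → R) [⋀^Fin p]→ₗ[R] R)
    (v : Fin p → Fin n → R) : (∑ i ∈ s, f i) v = ∑ i ∈ s, f i v := by
  classical
  induction s using Finset.induction_on with
  | empty => simp
  | insert a s ha ih => rw [Finset.sum_insert ha, Finset.sum_insert ha, AlternatingMap.add_apply, ih]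

/-- the alternating form attached to a vector of coefficients -/
noncomputable def FA (a : PC n p → R) : (Fin n → R) [⋀^Fin p]→ₗ[R] R :=
  ∑ I, a I • (Matrix.detRowAlternating.compLinearMap (LinearMap.funLeft R R (emb I)))

theorem FA_apply (a : PC n p → R) (v : Fin p → Fin n → R) :
    FA a v = ∑ I, a I * (Matrix.of fun t s => v t (emb I s)).det := by
  unfold FA
  rw [alt_sum_apply]
  refine Finset.sum_congr rfl fun I _ => ?_
  rw [AlternatingMap.smul_apply, AlternatingMap.compLinearMap_apply, smul_eq_mul]
  rfl

theorem FA_comp (a : PC n p → R) (b : Fin n → Fin n → R) (J : PC n p) :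
    FA a (fun t => b (emb J t)) = ∑ I, a I * comp p (Matrix.of b) J I := by
  rw [FA_apply]
  rfl

theorem FA_cast (a : PC n p → ℤ) (v : Fin p → Fin n → ℤ) :
    ((FA a v : ℤ) : ℚ) = FA (fun I => (a I : ℚ)) (fun t s => (v t s : ℚ)) := by
  rw [FA_apply, FA_apply]
  push_cast
  rfl

end

theorem FA_vanish {n p : ℕ} (a : PC n p → ℚ) (b : Fin n → Fin n → ℚ)
    (hb : LinearIndependent ℚ b) (k : ℕ) (J0 : PC n p)
    (hJ0 : ∀ i, i ∈ J0.val → k ≤ (i : ℕ))
    (hz : ∀ J : PC n p, J ≠ J0 → FA a (fun t => b (emb J t)) = 0)
    (w : Fin p → Fin n → ℚ) (t0 : Fin p) (j : Fin n) (hj : (j : ℕ) < k) :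
    FA a (Function.update w t0 (b j)) = 0 := by
  classical
  set B := basisOfLinearIndependentOfCardEqFinrank' b hb (by simp) with hB
  have hBb : ∀ i, B i = b i := fun i => by
    rw [hB, coe_basisOfLinearIndependentOfCardEqFinrank']
  set v := Function.update w t0 (b j) with hv
  have h1 : v = fun t => ∑ i, B.repr (v t) i • b i := by
    funext t
    conv_lhs => rw [← B.sum_repr (v t)]
    exact Finset.sum_congr rfl fun i _ => by rw [hBb]
  have h2 : FA a v = ∑ g : Fin p → Fin n, FA a (fun t => B.repr (v t) (g t) • b (g t)) := by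
    conv_lhs => rw [h1]
    exact (FA a).toMultilinearMap.map_sum (fun t i => B.repr (v t) i • b i)
  rw [h2]
  refine Finset.sum_eq_zero fun g _ => ?_
  have h3 : FA a (fun t => B.repr (v t) (g t) • b (g t)) =
      (∏ t, B.repr (v t) (g t)) • FA a (fun t => b (g t)) :=
    (FA a).toMultilinearMap.map_smul_univ (fun t => B.repr (v t) (g t)) (fun t => b (g t))
  rw [h3]
  by_cases hg0 : g t0 = j
  · by_cases hinj : Function.Injective g
    · -- a permutation of a wedge
      set J : PC n p := ofFinEmb p (Fin n) ⟨g, hinj⟩ with hJ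
      have hmem : ∀ t, g t ∈ J := by
        intro t
        rw [hJ, mem_ofFinEmb_iff_mem_range]
        exact ⟨t, rfl⟩
      have hne : J ≠ J0 := by
        intro h
        have h4 := hmem t0
        rw [hg0, h] at h4
        have h5 := hJ0 j h4
        omega
      have hex : ∀ t, ∃ s, emb J s = g t := fun t =>
        (mem_range_ofFinEmbEquiv_symm_iff_mem J (g t)).2 (hmem t)
      choose τ hτ using hex
      have hτinj : Function.Injective τ := by
        intro t t' h
        apply hinj
        rw [← hτ t, ← hτ t', h]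
      set π : Equiv.Perm (Fin p) := Equiv.ofBijective τ (Finite.injective_iff_bijective.1 hτinj)
        with hπ
      have h4 : (fun t => b (g t)) = (fun t => b (emb J t)) ∘ π := by
        funext t
        simp only [Function.comp_apply, hπ, Equiv.ofBijective_apply]
        rw [hτ t]
      rw [h4, AlternatingMap.map_perm, hz J hne, smul_zero, smul_zero]
    · have h4 : FA a (fun t => b (g t)) = 0 := by
        apply AlternatingMap.map_eq_zero_of_not_injective
        intro h5
        apply hinj
        intro t t' h6
        apply h5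
        simp only [h6]
      rw [h4, smul_zero]
  · have h4 : B.repr (v t0) (g t0) = 0 := by
      rw [hv, Function.update_self, ← hBb j, B.repr_self, Finsupp.single_apply,
        if_neg (Ne.symm hg0)]
    rw [Finset.prod_eq_zero (Finset.mem_univ t0) h4, zero_smul]

theorem exists_hyper {n p : ℕ} (hp : 0 < p) (a : PC n p → ℤ) (ha : a ≠ 0) :
    ∃ h : Fin n → ℤ, h ≠ 0 ∧ ∀ (b : Fin n → Fin n → ℤ) (k : ℕ) (J0 : PC n p),
      LinearIndependent ℚ (fun i => qv (b i)) → (∀ i, i ∈ J0.val → k ≤ (i : ℕ)) →
      (∀ J : PC n p, J ≠ J0 → ∑ I, a I * comp p (Matrix.of b) J I = 0) →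
      ∀ x : Fin n → ℤ, qv x ∈ flag b k → ∑ i, h i * x i = 0 := by
  classical
  obtain ⟨I0, hI0⟩ : ∃ I, a I ≠ 0 := by
    by_contra hcon
    push Not at hcon
    exact ha (funext hcon)
  set t0 : Fin p := ⟨0, hp⟩ with ht0
  set w : Fin p → Fin n → ℤ := fun t => Pi.single (emb I0 t) 1 with hw
  set h : Fin n → ℤ := fun i => FA a (Function.update w t0 (Pi.single i 1)) with hh
  have hI : h (emb I0 t0) = a I0 := by
    have h1 : Function.update w t0 (Pi.single (emb I0 t0) 1) = w := by
      rw [← Function.update_eq_self t0 w]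
      simp [hw]
    simp only [hh]
    rw [h1]
    have h2 : w = fun t => (1 : Matrix (Fin n) (Fin n) ℤ) (emb I0 t) := by
      funext t i
      simp only [hw, Pi.single_apply, Matrix.one_apply]
      by_cases h3 : i = emb I0 t
      · rw [if_pos h3, if_pos h3.symm]
      · rw [if_neg h3, if_neg (Ne.symm h3)]
    rw [h2]
    have h3 := FA_comp a (fun i => (1 : Matrix (Fin n) (Fin n) ℤ) i) I0
    rw [h3]
    have h4 : (Matrix.of fun i => (1 : Matrix (Fin n) (Fin n) ℤ) i) = 1 := rfl
    rw [h4, comp_one, Finset.sum_eq_single I0]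
    · simp
    · intro I _ hne
      rw [Matrix.one_apply_ne hne.symm, mul_zero]
    · simp
  refine ⟨h, ?_, ?_⟩
  · intro h0
    rw [h0] at hI
    exact hI0 hI.symm
  intro b k J0 hb hJ0 hz x hx
  -- linearity
  have hlin : ∀ y : Fin n → ℤ, ∑ i, h i * y i = FA a (Function.update w t0 y) := by
    intro y
    have h1 : y = ∑ i, y i • (Pi.single i (1 : ℤ) : Fin n → ℤ) := by
      funext l
      simp [Finset.sum_apply, Pi.single_apply]
    conv_rhs => rw [h1]
    rw [AlternatingMap.map_update_sum]
    refine Finset.sum_congr rfl fun i _ => ?_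
    rw [AlternatingMap.map_update_smul, smul_eq_mul, mul_comm]
  rw [hlin]
  have hcast : ((FA a (Function.update w t0 x) : ℤ) : ℚ) = 0 := by
    rw [FA_cast]
    have h1 : (fun t s => ((Function.update w t0 x) t s : ℚ)) =
        Function.update (fun t => qv (w t)) t0 (qv x) := by
      funext t s
      by_cases ht : t = t0
      · subst ht
        rw [Function.update_self, Function.update_self]
        rfl
      · rw [Function.update_of_ne ht, Function.update_of_ne ht]
        rfl
    rw [h1]
    -- the vectors killing the form are a subspace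
    have key : ∀ y ∈ flag b k,
        FA (fun I => (a I : ℚ)) (Function.update (fun t => qv (w t)) t0 y) = 0 := by
      intro y hy
      refine Submodule.span_induction (p := fun y _ =>
        FA (fun I => (a I : ℚ)) (Function.update (fun t => qv (w t)) t0 y) = 0)
        ?_ ?_ ?_ ?_ hy
      · rintro _ ⟨j, hj, rfl⟩
        apply FA_vanish (fun I => (a I : ℚ)) (fun i => qv (b i)) hb k J0 hJ0 ?_ _ t0 j hj
        intro J hJ
        have h2 := hz J hJ
        have h3 := FA_comp a b J
        rw [h2] at h3
        have h4 := FA_cast a (fun t => b (emb J t))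
        rw [h3, Int.cast_zero] at h4
        exact h4.symm
      · exact AlternatingMap.map_update_zero _ _ _
      · intro y1 y2 _ _ e1 e2
        rw [AlternatingMap.map_update_add, e1, e2, add_zero]
      · intro c y1 _ e1
        rw [AlternatingMap.map_update_smul, e1, smul_zero]
    exact key _ hx
  exact_mod_cast hcast

end Pool.Agent.Lib.Subspace
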