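import Pool.Agent.Lib.Subspace.Index

/-!
# Generalized Wronskians
-/

namespace Pool.Agent.Lib.Subspace

section univariate

open Polynomial

variable {K : Type*} [Field K] [CharZero K]

theorem det_choose_ne_zero {s : ℕ} {α : Fin s → ℕ} (hα : Function.Injective α) :
    (Matrix.of fun (μ l : Fin s) => ((α l).choose μ : K)).det ≠ 0 := by
  have h1 := Matrix.det_eval_matrixOfPolynomials_eq_det_vandermonde (fun i : Fin s => (α i : K))
      (fun i => descPochhammer K i)
      (fun i => descPochhammer_natDegree K i)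
      (fun i => monic_descPochhammer K i)
  have h2 : (Matrix.vandermonde (fun i : Fin s => (α i : K))).det ≠ 0 :=
    Matrix.det_vandermonde_ne_zero_iff.2 fun i j hij => hα (by exact_mod_cast hij)
  rw [h1] at h2
  have h3 : (Matrix.of fun i j : Fin s => (descPochhammer K j).eval (α i : K)) =
      Matrix.of fun i j : Fin s => ((Nat.factorial (j : ℕ) : ℕ) : K) *
        (Matrix.of (fun (i j : Fin s) => ((α i).choose j : K))) i j := by
    ext i j
    rw [Matrix.of_apply, Matrix.of_apply, Matrix.of_apply, descPochhammer_eval_eq_descFactorial,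
      Nat.descFactorial_eq_factorial_mul_choose]
    push_cast
    rfl
  rw [h3, Matrix.det_mul_row] at h2
  have h4 := right_ne_zero_of_mul h2
  rw [← Matrix.det_transpose] at h4
  exact h4

theorem coeff_X_pow_mul_hasseDeriv (μ : ℕ) (F : K[X]) (n : ℕ) :
    (X ^ μ * hasseDeriv μ F).coeff n = (n.choose μ : K) * F.coeff n := by
  rw [coeff_X_pow_mul']
  split_ifs with h
  · rw [hasseDeriv_coeff, Nat.sub_add_cancel h]
  · rw [Nat.choose_eq_zero_of_lt (not_le.1 h)]
    simp

omit [CharZero K] in
theorem coeff_prod_le {ι : Type*} (s : Finset ι) (f : ι → K[X]) (n : ι → ℕ)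
    (h : ∀ i ∈ s, natDegree (f i) ≤ n i) :
    natDegree (∏ i ∈ s, f i) ≤ ∑ i ∈ s, n i ∧
    coeff (∏ i ∈ s, f i) (∑ i ∈ s, n i) = ∏ i ∈ s, coeff (f i) (n i) := by
  classical
  induction s using Finset.induction_on with
  | empty => simp
  | insert a s ha ih =>
    obtain ⟨h1, h2⟩ := ih fun i hi => h i (Finset.mem_insert_of_mem hi)
    have h3 := h a (Finset.mem_insert_self a s)
    rw [Finset.prod_insert ha, Finset.sum_insert ha, Finset.prod_insert ha]
    refine ⟨natDegree_mul_le.trans (Nat.add_le_add h3 h1), ?_⟩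
    rw [coeff_mul_add_eq_of_natDegree_le h3 h1, h2]

theorem wronskian_ne_zero_of_injective {s : ℕ} (F : Fin s → K[X]) (h0 : ∀ l, F l ≠ 0)
    (h : Function.Injective fun l => (F l).natDegree) :
    (Matrix.of fun (μ l : Fin s) => hasseDeriv (μ : ℕ) (F l)).det ≠ 0 := by
  intro hdet
  set α : Fin s → ℕ := fun l => (F l).natDegree with hα
  have h1 : (Matrix.of fun (μ l : Fin s) => (X : K[X]) ^ (μ : ℕ) *
      (Matrix.of fun (μ l : Fin s) => hasseDeriv (μ : ℕ) (F l)) μ l).det = 0 := by
    rw [Matrix.det_mul_column, hdet, mul_zero]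
  have h2 : (Matrix.of fun (μ l : Fin s) => (X : K[X]) ^ (μ : ℕ) *
      (Matrix.of fun (μ l : Fin s) => hasseDeriv (μ : ℕ) (F l)) μ l).det.coeff (∑ l, α l) =
      (Matrix.of fun (μ l : Fin s) => (F l).leadingCoeff *
        (Matrix.of fun (μ l : Fin s) => ((α l).choose μ : K)) μ l).det := by
    rw [Matrix.det_apply, Matrix.det_apply, finsetSum_coeff]
    refine Finset.sum_congr rfl fun π _ => ?_
    have e1 : ∀ (u : ℤˣ) (p : K[X]) (n : ℕ), (u • p).coeff n = u • p.coeff n := by
      intro u p n
      rcases Int.units_eq_one_or u with h | h <;> simp [h]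
    rw [e1]
    congr 1
    have h3 := (coeff_prod_le (K := K) Finset.univ (fun l : Fin s => (X : K[X]) ^ (π l : ℕ) *
      hasseDeriv (π l : ℕ) (F l)) α (by
        intro l _
        rw [natDegree_le_iff_coeff_eq_zero]
        intro n hn
        rw [coeff_X_pow_mul_hasseDeriv, coeff_eq_zero_of_natDegree_lt hn, mul_zero])).2
    simp only [Matrix.of_apply] at h3 ⊢
    rw [h3]
    refine Finset.prod_congr rfl fun l _ => ?_
    rw [coeff_X_pow_mul_hasseDeriv, hα, leadingCoeff, mul_comm]
  rw [h1, coeff_zero, Matrix.det_mul_row] at h2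
  have h4 := det_choose_ne_zero (K := K) h
  have h5 : ∏ l, (F l).leadingCoeff ≠ 0 :=
    Finset.prod_ne_zero_iff.2 fun l _ => leadingCoeff_ne_zero.2 (h0 l)
  exact mul_ne_zero h5 h4 h2.symm

omit [CharZero K] in
theorem linearIndependent_update_add {V : Type*} [AddCommGroup V] [Module K V] {s : ℕ}
    {v : Fin s → V} (h : LinearIndependent K v) {a b : Fin s} (hab : a ≠ b) (c : K) :
    LinearIndependent K (Function.update v a (v a + c • v b)) := by
  rw [Fintype.linearIndependent_iff] at h ⊢
  intro g hg
  have key : ∑ l, (Function.update g b (g b + g a * c)) l • v l = 0 := by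
    rw [← hg, ← Finset.add_sum_erase _ _ (Finset.mem_univ a),
      ← Finset.add_sum_erase _ _ (Finset.mem_univ a)]
    rw [Function.update_of_ne hab, Function.update_self]
    rw [← Finset.add_sum_erase _ _ (Finset.mem_erase.2 ⟨hab.symm, Finset.mem_univ b⟩),
      ← Finset.add_sum_erase _ _ (Finset.mem_erase.2 ⟨hab.symm, Finset.mem_univ b⟩)]
    rw [Function.update_self, Function.update_of_ne hab.symm]
    have h2 : ∀ l ∈ (Finset.univ.erase a).erase b,
        (Function.update g b (g b + g a * c)) l • v l =
        g l • (Function.update v a (v a + c • v b)) l := by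
      intro l hl
      rw [Finset.mem_erase, Finset.mem_erase] at hl
      rw [Function.update_of_ne hl.1, Function.update_of_ne hl.2.1]
    rw [Finset.sum_congr rfl h2, smul_add, smul_smul, add_smul]
    abel
  have h3 := h _ key
  have ha : g a = 0 := by
    have := h3 a
    rwa [Function.update_of_ne hab] at this
  intro l
  by_cases hl : l = b
  · have := h3 b
    rw [Function.update_self, ha, zero_mul, add_zero] at this
    rw [hl, this]
  · have := h3 l
    rwa [Function.update_of_ne hl] at this

theorem wronskian_ne_zero {s : ℕ} (F : Fin s → K[X]) (h : LinearIndependent K F) :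
    (Matrix.of fun (μ l : Fin s) => hasseDeriv (μ : ℕ) (F l)).det ≠ 0 := by
  induction hn : ∑ l, (F l).natDegree using Nat.strong_induction_on generalizing F with
  | _ n ih =>
  by_cases hinj : Function.Injective fun l => (F l).natDegree
  · exact wronskian_ne_zero_of_injective F (fun l => h.ne_zero l) hinj
  · rw [Function.Injective] at hinj
    push Not at hinj
    obtain ⟨a, b, hab, hne⟩ := hinj
    -- replace `F a` by `F a - c F b`
    set c : K := (F a).leadingCoeff / (F b).leadingCoeff with hc
    have hla : (F a).leadingCoeff ≠ 0 := leadingCoeff_ne_zero.2 (h.ne_zero a)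
    have hlb : (F b).leadingCoeff ≠ 0 := leadingCoeff_ne_zero.2 (h.ne_zero b)
    have hc0 : c ≠ 0 := div_ne_zero hla hlb
    set F' : Fin s → K[X] := Function.update F a (F a + (-c) • F b) with hF'
    have hF'a : F' a = F a + (-c) • F b := by rw [hF', Function.update_self]
    have hli : LinearIndependent K F' := linearIndependent_update_add h hne _
    have hdeg : (F' a).natDegree < (F a).natDegree := by
      have e1 : F' a = F a - C c * F b := by
        rw [hF'a, neg_smul, smul_eq_C_mul, sub_eq_add_neg]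
      have hd : degree (F a) = degree (C c * F b) := by
        rw [degree_C_mul hc0, degree_eq_natDegree (h.ne_zero a), degree_eq_natDegree (h.ne_zero b),
          hab]
      have h1 := degree_sub_lt_left hd (h.ne_zero a) (by
        rw [leadingCoeff_mul, leadingCoeff_C, hc, div_mul_cancel₀ _ hlb])
      rw [← e1] at h1
      exact natDegree_lt_natDegree (hli.ne_zero a) h1
    have hsum : ∑ l, (F' l).natDegree < n := by
      rw [← hn]
      refine Finset.sum_lt_sum (fun l _ => ?_) ⟨a, Finset.mem_univ a, hdeg⟩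
      by_cases hl : l = a
      · rw [hl]; exact hdeg.le
      · rw [hF', Function.update_of_ne hl]
    have hW := ih _ hsum F' hli rfl
    have hdet : (Matrix.of fun (μ l : Fin s) => hasseDeriv (μ : ℕ) (F' l)).det =
        (Matrix.of fun (μ l : Fin s) => hasseDeriv (μ : ℕ) (F l)).det := by
      rw [← Matrix.det_updateCol_add_smul_self (Matrix.of fun (μ l : Fin s) =>
        hasseDeriv (μ : ℕ) (F l)) hne (C (-c))]
      congr 1
      ext1 μ l
      by_cases hl : l = a
      · subst hl
        rw [Matrix.updateCol_self, Matrix.of_apply, hF'a, map_add, map_smul, smul_eq_C_mul,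
          Matrix.of_apply, Matrix.of_apply, smul_eq_mul]
      · rw [Matrix.updateCol_ne hl, Matrix.of_apply, Matrix.of_apply, hF',
          Function.update_of_ne hl]
    rwa [hdet] at hW

end univariate

section multivariate

open MvPolynomial

variable {K : Type*} [Field K] [CharZero K] {n : ℕ}

/-- Kronecker substitution -/
noncomputable def kron (D : ℕ) : MvPolynomial (Fin n) K →ₐ[K] Polynomial K :=
  aeval (fun k => (Polynomial.X : Polynomial K) ^ (D ^ (k : ℕ)))

omit [CharZero K] in
theorem kron_monomial (D : ℕ) (J : Fin n →₀ ℕ) (c : K) :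
    kron D (monomial J c) = Polynomial.monomial (∑ k, J k * D ^ (k : ℕ)) c := by
  unfold kron
  rw [aeval_monomial, Finsupp.prod_fintype _ _ (by simp)]
  simp_rw [← pow_mul]
  rw [Finset.prod_pow_eq_pow_sum, ← Polynomial.C_mul_X_pow_eq_monomial]
  congr 2
  exact Finset.sum_congr rfl fun k _ => mul_comm _ _

theorem digits_inj {D : ℕ} {J J' : Fin n →₀ ℕ} (hJ : ∀ k, J k < D) (hJ' : ∀ k, J' k < D)
    (h : ∑ k, J k * D ^ (k : ℕ) = ∑ k, J' k * D ^ (k : ℕ)) : J = J' := by
  have h1 : (finFunctionFinEquiv (fun k => (⟨J k, hJ k⟩ : Fin D)) : ℕ) =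
      (finFunctionFinEquiv (fun k => (⟨J' k, hJ' k⟩ : Fin D)) : ℕ) := by
    rw [finFunctionFinEquiv_apply, finFunctionFinEquiv_apply]
    exact h
  have h2 := finFunctionFinEquiv.injective (Fin.ext h1)
  ext k
  have := congrFun h2 k
  simpa using this

omit [CharZero K] in
theorem kron_eq_zero {D : ℕ} {P : MvPolynomial (Fin n) K} (hP : ∀ J ∈ P.support, ∀ k, J k < D)
    (h : kron D P = 0) : P = 0 := by
  by_contra hne
  obtain ⟨J0, hJ0⟩ := Finset.nonempty_of_ne_empty (fun h => hne (support_eq_empty.1 h))
  have h1 : (kron D P).coeff (∑ k, J0 k * D ^ (k : ℕ)) = coeff J0 P := by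
    conv_lhs => rw [P.as_sum, map_sum, Polynomial.finsetSum_coeff]
    rw [Finset.sum_eq_single J0]
    · rw [kron_monomial, Polynomial.coeff_monomial, if_pos rfl]
    · intro J hJ hne'
      rw [kron_monomial, Polynomial.coeff_monomial, if_neg]
      intro he
      exact hne' (digits_inj (hP J hJ) (hP J0 hJ0) he)
    · intro h
      exact absurd hJ0 h
  rw [h, Polynomial.coeff_zero] at h1
  exact (mem_support_iff.1 hJ0) h1.symm

/-- the increments in the Kronecker substitution -/
noncomputable def kinc (D : ℕ) (k : Fin n) : Polynomial (Polynomial K) :=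
  (Polynomial.X + Polynomial.C Polynomial.X) ^ (D ^ (k : ℕ)) -
    Polynomial.C (Polynomial.X ^ (D ^ (k : ℕ)))

omit [CharZero K] in
theorem X_dvd_kinc (D : ℕ) (k : Fin n) : Polynomial.X ∣ (kinc D k : Polynomial (Polynomial K)) := by
  rw [Polynomial.X_dvd_iff, kinc, Polynomial.coeff_sub, Polynomial.coeff_zero_eq_eval_zero,
    Polynomial.coeff_C_zero]
  simp

omit [CharZero K] in
theorem kron_C (D : ℕ) (a : K) : kron D (C a : MvPolynomial (Fin n) K) = Polynomial.C a := by
  simp [kron]

omit [CharZero K] in
theorem kron_X (D : ℕ) (k : Fin n) : kron D (X k : MvPolynomial (Fin n) K) =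
    Polynomial.X ^ (D ^ (k : ℕ)) := by
  simp [kron]

omit [CharZero K] in
theorem kron_taylor (D : ℕ) (φ : MvPolynomial (Fin n) K) :
    Polynomial.taylor (Polynomial.X : Polynomial K) ((kron D φ).map Polynomial.C) =
    eval₂ (Polynomial.C.comp (kron D : MvPolynomial (Fin n) K →ₐ[K] Polynomial K).toRingHom)
      (fun k => kinc D k) (taylorT φ) := by
  have key : ((Polynomial.taylorAlgHom (Polynomial.X : Polynomial K)).toRingHom.comp
      (Polynomial.mapRingHom Polynomial.C)).comp
        (kron D : MvPolynomial (Fin n) K →ₐ[K] Polynomial K).toRingHom =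
      (eval₂Hom (Polynomial.C.comp (kron D : MvPolynomial (Fin n) K →ₐ[K] Polynomial K).toRingHom)
      (fun k => kinc D k)).comp
        (taylorT : MvPolynomial (Fin n) K →ₐ[K] MvPolynomial (Fin n) (MvPolynomial (Fin n) K)).toRingHom := by
    apply MvPolynomial.ringHom_ext
    · intro a
      simp only [AlgHom.toRingHom_eq_coe, RingHom.coe_comp, RingHom.coe_coe, Function.comp_apply,
        taylorT_C, kron_C, Polynomial.coe_mapRingHom, Polynomial.map_C, coe_eval₂Hom, eval₂_C]
      exact Polynomial.taylor_C _ _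
    · intro k
      simp only [AlgHom.toRingHom_eq_coe, RingHom.coe_comp, RingHom.coe_coe, Function.comp_apply,
        taylorT_X, kron_X, Polynomial.coe_mapRingHom, Polynomial.map_pow, Polynomial.map_X,
        coe_eval₂Hom, eval₂_add, eval₂_C, eval₂_X, kinc]
      rw [sub_add_cancel]
      exact Polynomial.taylor_X_pow _ _
  exact DFunLike.congr_fun key φ

omit [CharZero K] in
theorem hasseDeriv_map_C (μ : ℕ) (F : Polynomial K) :
    (Polynomial.hasseDeriv μ (F.map (Polynomial.C : K →+* Polynomial K))).eval Polynomial.X =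
      Polynomial.hasseDeriv μ F := by
  have h1 : Polynomial.hasseDeriv μ (F.map (Polynomial.C : K →+* Polynomial K)) =
      (Polynomial.hasseDeriv μ F).map Polynomial.C := by
    ext1 k
    rw [Polynomial.hasseDeriv_coeff, Polynomial.coeff_map, Polynomial.coeff_map,
      Polynomial.hasseDeriv_coeff, map_mul, map_natCast]
  rw [h1, Polynomial.eval_map, Polynomial.eval₂_C_X]

/-- the coefficients relating univariate and multivariate derivatives -/
noncomputable def kcoef (D μ : ℕ) (i : Fin n →₀ ℕ) : Polynomial K :=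
  (∏ k, (kinc D k : Polynomial (Polynomial K)) ^ i k).coeff μ

omit [CharZero K] in
theorem kcoef_eq_zero {D μ : ℕ} {i : Fin n →₀ ℕ} (h : μ < ∑ k, i k) :
    (kcoef D μ i : Polynomial K) = 0 := by
  have h1 : (Polynomial.X : Polynomial (Polynomial K)) ^ (∑ k, i k) ∣
      ∏ k, (kinc D k : Polynomial (Polynomial K)) ^ i k := by
    rw [← Finset.prod_pow_eq_pow_sum]
    exact Finset.prod_dvd_prod_of_dvd _ _ fun k _ => pow_dvd_pow_of_dvd (X_dvd_kinc D k) _
  exact Polynomial.X_pow_dvd_iff.1 h1 μ h

omit [CharZero K] in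
theorem hasseDeriv_kron (D μ : ℕ) (φ : MvPolynomial (Fin n) K) (S : Finset (Fin n →₀ ℕ))
    (hS : (taylorT φ).support ⊆ S) :
    Polynomial.hasseDeriv μ (kron D φ) =
      ∑ i ∈ S.filter (fun i => ∑ k, i k ≤ μ), kcoef D μ i * kron D (hd i φ) := by
  rw [← hasseDeriv_map_C, ← Polynomial.taylor_coeff, kron_taylor, eval₂_eq',
    Polynomial.finsetSum_coeff]
  have h1 : ∀ i ∈ S, i ∉ S.filter (fun i => ∑ k, i k ≤ μ) →
      kcoef D μ i * kron D (hd i φ) = 0 := by
    intro i hi hn
    rw [Finset.mem_filter, not_and] at hn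
    rw [kcoef_eq_zero (not_le.1 (hn hi)), zero_mul]
  rw [Finset.sum_subset (Finset.filter_subset _ _) h1]
  rw [← Finset.sum_subset hS]
  · refine Finset.sum_congr rfl fun i _ => ?_
    rw [RingHom.comp_apply, Polynomial.coeff_C_mul, mul_comm]
    rfl
  · intro i _ hi
    have : hd i φ = 0 := notMem_support_iff.1 hi
    rw [this, map_zero, mul_zero]

/-- Generalized Wronskian: linearly independent polynomials have a nonvanishing generalized
Wronskian, the operator in row `μ` being of order at most `μ`. -/
theorem generalized_wronskian {s : ℕ} (φ : Fin s → MvPolynomial (Fin n) K)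
    (h : LinearIndependent K φ) :
    ∃ i : Fin s → (Fin n →₀ ℕ), (∀ μ, ∑ k, i μ k ≤ μ) ∧
      (Matrix.of fun (μ l : Fin s) => hd (i μ) (φ l)).det ≠ 0 := by
  classical
  -- a bound for all exponents
  obtain ⟨D, hD⟩ : ∃ D : ℕ, ∀ l, ∀ J ∈ (φ l).support, ∀ k, J k < D := by
    refine ⟨(Finset.univ.sup fun l => (φ l).support.sup fun J => Finset.univ.sup fun k => J k) + 1,
      fun l J hJ k => Nat.lt_succ_of_le ?_⟩
    calc J k ≤ Finset.univ.sup fun k => J k := Finset.le_sup (f := fun k => J k) (Finset.mem_univ k)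
      _ ≤ (φ l).support.sup fun J => Finset.univ.sup fun k => J k :=
        Finset.le_sup (f := fun J : Fin n →₀ ℕ => Finset.univ.sup fun k => J k) hJ
      _ ≤ _ := Finset.le_sup (f := fun l => (φ l).support.sup fun J => Finset.univ.sup fun k => J k)
        (Finset.mem_univ l)
  -- the substituted polynomials are independent
  have hli : LinearIndependent K (fun l => kron D (φ l)) := by
    rw [Fintype.linearIndependent_iff] at h ⊢
    intro g hg
    apply h g
    apply kron_eq_zero (D := D)
    · intro J hJ k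
      have := support_sum hJ
      rw [Finset.mem_biUnion] at this
      obtain ⟨l, _, hl⟩ := this
      exact hD l J (support_smul hl) k
    · rw [map_sum, ← hg]
      exact Finset.sum_congr rfl fun l _ => map_smul _ _ _
  have hW := wronskian_ne_zero _ hli
  set S : Finset (Fin n →₀ ℕ) := Finset.univ.biUnion fun l => (taylorT (φ l)).support with hS
  have hE : (Matrix.of fun (μ l : Fin s) => Polynomial.hasseDeriv (μ : ℕ) (kron D (φ l))).det =
      ∑ r ∈ Fintype.piFinset (fun μ : Fin s => S.filter (fun i => ∑ k, i k ≤ (μ : ℕ))),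
        (∏ μ : Fin s, kcoef D (μ : ℕ) (r μ)) *
          (Matrix.of fun (μ l : Fin s) => kron D (hd (r μ) (φ l))).det := by
    have e1 : (Matrix.of fun (μ l : Fin s) => Polynomial.hasseDeriv (μ : ℕ) (kron D (φ l))).det =
        (Matrix.detRowAlternating (R := Polynomial K) (n := Fin s)).toMultilinearMap
          (fun μ => ∑ i ∈ S.filter (fun i => ∑ k, i k ≤ (μ : ℕ)),
            (fun (μ : Fin s) (i : Fin n →₀ ℕ) => (kcoef D (μ : ℕ) i : Polynomial K) •
              (fun l => kron D (hd i (φ l)))) μ i) := by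
      show Matrix.det _ = Matrix.det _
      congr 1
      ext1 μ l
      rw [Matrix.of_apply, hasseDeriv_kron D μ (φ l) S
        (Finset.subset_biUnion_of_mem (fun l => (taylorT (φ l)).support) (Finset.mem_univ l))]
      simp only [Finset.sum_apply, Pi.smul_apply, smul_eq_mul]
    rw [e1, MultilinearMap.map_sum_finset]
    refine Finset.sum_congr rfl fun r _ => ?_
    rw [MultilinearMap.map_smul_univ, smul_eq_mul]
    rfl
  rw [hE] at hW
  obtain ⟨r, hr, hne⟩ := Finset.exists_ne_zero_of_sum_ne_zero hW
  refine ⟨r, fun μ => (Finset.mem_filter.1 (Fintype.mem_piFinset.1 hr μ)).2, ?_⟩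
  intro h0
  apply hne
  have e2 : (Matrix.of fun (μ l : Fin s) => kron D (hd (r μ) (φ l))).det =
      kron D (Matrix.of fun (μ l : Fin s) => hd (r μ) (φ l)).det := by
    rw [AlgHom.map_det]
    rfl
  rw [e2, h0, map_zero, mul_zero]

end multivariate

end Pool.Agent.Lib.Subspace
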